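import Pool.Agent.KD.Parts

/-! The core theorem for deterministic certificates. -/

namespace Pool.Agent.KD

open Finset Pool.Agent.SemRO

/-- few triples (z, T1, T2): the count of rich pairs -/
theorem rich_count {n R : ℕ} {c : Fin R → (Fin n → Bool) → Fin n → Option Bool} {J : Finset (Fin R)}
    {W W' : Finset (Fin n → Bool)} (hWW : W' ⊆ W) (hsub : ∀ z ∈ W, ∀ j, Sub (c j z) z)
    {F : Set (Fin n → Bool)} (hclosed : ∀ u, (∀ j, ∃ w ∈ W, Sub (c j w) u) → u ∈ F) {L : ℕ}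
    (hR : RectFree F L) {q e a t1 t2 m0 : ℕ}
    (ha : ∀ x ∈ W', (J.biUnion fun j => dom (c j x)).card ≤ a) (hq : 1 ≤ q)
    (h : 2 * q * a + t2 ≤ n - t1) (ht : t2 ≤ e * q) :
    2 ^ t2 * ∑ T1 ∈ (univ : Finset (Fin n)).powersetCard t1, (Rich c J W' m0 (2 ^ (e + 1) * L) T1).card ≤
      2 ^ (e + 1) * (n.choose t1 * (L * 2 ^ n)) := by
  classical
  set ρ := 2 ^ (e + 1) * L with hρ
  set PC := (univ : Finset (Fin n)).powersetCard t1 with hPC
  set N2 := (n - t1).choose t2 with hN2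
  have hN2pos : 0 < N2 := Nat.choose_pos (by omega)
  -- pass to triples
  have h1 : ∀ T1 ∈ PC, N2 * (Rich c J W' m0 ρ T1).card ≤
      2 ^ (e + 1) * ∑ z ∈ Rich c J W' m0 ρ T1,
        ((T1ᶜ.powersetCard t2).filter (fun T2 => L ≤ (X1 c J W' T1 T2 z).card)).card := by
    intro T1 hT1
    have hc : T1.card = t1 := (Finset.mem_powersetCard.1 hT1).2
    rw [Finset.mul_sum]
    calc N2 * (Rich c J W' m0 ρ T1).card = ∑ _z ∈ Rich c J W' m0 ρ T1, N2 := by
          rw [Finset.sum_const, smul_eq_mul, mul_comm]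
      _ ≤ _ := Finset.sum_le_sum fun z hz => ?_
    have hr : ρ < (X0 W' T1 z).card := by
      unfold Rich at hz
      exact (Finset.mem_filter.1 hz).2.2
    exact good_T2 hc ha hq h ht hr
  have h2 : ∀ T1 ∈ PC, ∑ z ∈ Rich c J W' m0 ρ T1,
        ((T1ᶜ.powersetCard t2).filter (fun T2 => L ≤ (X1 c J W' T1 T2 z).card)).card ≤
      ∑ T2 ∈ T1ᶜ.powersetCard t2, ((V1 c J W T1).filter (fun z => (Y1 c J W T1 T2 z).card < L)).card := by
    intro T1 _
    have e1 : ∀ z, ((T1ᶜ.powersetCard t2).filter (fun T2 => L ≤ (X1 c J W' T1 T2 z).card)).card =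
        ∑ T2 ∈ T1ᶜ.powersetCard t2, if L ≤ (X1 c J W' T1 T2 z).card then 1 else 0 := by
      intro z
      rw [Finset.card_filter]
    rw [Finset.sum_congr rfl fun z _ => e1 z, Finset.sum_comm]
    refine Finset.sum_le_sum fun T2 hT2 => ?_
    rw [← Finset.card_filter]
    refine Finset.card_le_card fun z hz => ?_
    obtain ⟨hz1, hz2⟩ := Finset.mem_filter.1 hz
    unfold Rich at hz1
    obtain ⟨hz3, hz4, _⟩ := Finset.mem_filter.1 hz1
    refine Finset.mem_filter.2 ⟨?_, ?_⟩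
    · unfold V1
      exact Finset.mem_filter.2 ⟨hWW hz3, hz4.trans (sel_subset _ _)⟩
    · refine rect_small hWW hsub hclosed hR ?_ z hz2
      intro i hi hi1
      exact (Finset.mem_compl.1 ((Finset.mem_powersetCard.1 hT2).1 hi)) hi1
  have h3 : ∀ T1 ∈ PC, (∑ T2 ∈ T1ᶜ.powersetCard t2,
      ((V1 c J W T1).filter (fun z => (Y1 c J W T1 T2 z).card < L)).card) * 2 ^ t2 ≤ N2 * (L * 2 ^ n) := by
    intro T1 hT1
    have hc : T1.card = t1 := (Finset.mem_powersetCard.1 hT1).2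
    have hcc : (T1ᶜ.powersetCard t2).card = N2 := by
      rw [Finset.card_powersetCard, Finset.card_compl, Fintype.card_fin, hc]
    rw [Finset.sum_mul, ← hcc, ← smul_eq_mul (a := (T1ᶜ.powersetCard t2).card)]
    refine Finset.sum_le_card_nsmul _ _ _ fun T2 hT2 => ?_
    have := few_small (c := c) (J := J) W T1 T2 L
    rw [(Finset.mem_powersetCard.1 hT2).2] at this
    exact this
  have hPCc : PC.card = n.choose t1 := by
    rw [hPC, Finset.card_powersetCard, Finset.card_univ, Fintype.card_fin]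
  have h4 : N2 * (2 ^ t2 * ∑ T1 ∈ PC, (Rich c J W' m0 ρ T1).card) ≤
      N2 * (2 ^ (e + 1) * (n.choose t1 * (L * 2 ^ n))) := by
    calc N2 * (2 ^ t2 * ∑ T1 ∈ PC, (Rich c J W' m0 ρ T1).card)
        = 2 ^ t2 * ∑ T1 ∈ PC, N2 * (Rich c J W' m0 ρ T1).card := by rw [← Finset.mul_sum]; ring
      _ ≤ 2 ^ t2 * ∑ T1 ∈ PC, 2 ^ (e + 1) * (∑ T2 ∈ T1ᶜ.powersetCard t2,
            ((V1 c J W T1).filter (fun z => (Y1 c J W T1 T2 z).card < L)).card) := by
          refine Nat.mul_le_mul_left _ (Finset.sum_le_sum fun T1 hT1 => ?_)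
          exact (h1 T1 hT1).trans (Nat.mul_le_mul_left _ (h2 T1 hT1))
      _ = 2 ^ (e + 1) * ∑ T1 ∈ PC, (∑ T2 ∈ T1ᶜ.powersetCard t2,
            ((V1 c J W T1).filter (fun z => (Y1 c J W T1 T2 z).card < L)).card) * 2 ^ t2 := by
          rw [← Finset.mul_sum, ← Finset.sum_mul]; ring
      _ ≤ 2 ^ (e + 1) * (PC.card * (N2 * (L * 2 ^ n))) := by
          refine Nat.mul_le_mul_left _ ?_
          rw [← smul_eq_mul (a := PC.card)]
          exact Finset.sum_le_card_nsmul _ _ _ h3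
      _ = _ := by rw [hPCc]; ring
  exact Nat.le_of_mul_le_mul_left h4 hN2pos

/-- the core theorem in natural numbers -/
theorem core_nat {k r D a n : ℕ} (hk : 1 ≤ k) (hr : 16 * k ^ 2 * (5 + 2 * k * r) ≤ 2 ^ r)
    (hn : 32 * (D + a + 5 + 2 * k * r) * (2 ^ r) ^ (2 * k) ≤ n)
    (W : Finset (Fin n → Bool)) (c : Fin (2 ^ r) → (Fin n → Bool) → Fin n → Option Bool)
    (F : Set (Fin n → Bool)) (L : ℕ) (hW : 2 ^ n ≤ 2 ^ D * W.card) (hL : L ≤ 2 ^ a)
    (hsub : ∀ z ∈ W, ∀ j, Sub (c j z) z)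
    (hdet : ∀ j, ∀ z ∈ W, ∀ z' ∈ W, Compat (c j z) (c j z') → c j z = c j z')
    (hdom : ∀ z ∈ W, ∀ j, (dom (c j z)).card * 2 ^ r ≤ k * n)
    (hclosed : ∀ u, (∀ j, ∃ w ∈ W, Sub (c j w) u) → u ∈ F) : ¬ RectFree F L := by
  classical
  intro hRF
  set Q := (2 ^ r) ^ (2 * k) with hQ
  set lam := 4 + 2 * k * r with hlam
  set b := D + a + 5 + 2 * k * r with hb
  have hQ2 : Q = 2 ^ (2 * k * r) := by rw [hQ, ← pow_mul]; ring_nf
  have hQpos : 0 < Q := by positivity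
  have hQge : 2 * k * r + 1 ≤ Q := by rw [hQ2]; exact Nat.lt_two_pow_self
  have hb5 : 5 ≤ b := by omega
  have hn0 : 0 < n := by
    refine lt_of_lt_of_le ?_ hn
    positivity
  have hkR : 2 * k ≤ 2 ^ r := by
    refine le_trans ?_ hr
    nlinarith [Nat.zero_le (k * r), Nat.zero_le (k ^ 2 * (2 * k * r))]
  obtain ⟨J, hJc, hJ⟩ := exists_private (c := c) (by positivity) hkR W hdom
  rw [← hQ] at hJ
  set m0 := n / (4 * Q) with hm0
  have hm0a : 4 * Q * m0 ≤ n := Nat.mul_div_le n (4 * Q)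
  set W' := W.filter (fun z => m0 ≤ (Kv c J z).card) with hW'
  have hWW : W' ⊆ W := Finset.filter_subset _ _
  have hW1 : W.card ≤ 4 * Q * W'.card := many_private hn0 W hJ hm0a
  have hW2 : 2 ^ n ≤ 2 ^ (D + 2 + 2 * k * r) * W'.card := by
    calc 2 ^ n ≤ 2 ^ D * W.card := hW
      _ ≤ 2 ^ D * (4 * Q * W'.card) := Nat.mul_le_mul_left _ hW1
      _ = 2 ^ (D + 2 + 2 * k * r) * W'.card := by rw [hQ2]; ring
  -- sizes
  have hbQ : 32 * (b * Q) ≤ n := by rw [← mul_assoc]; exact hn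
  have hm0b : 4 * b ≤ m0 := by
    rw [hm0, Nat.le_div_iff_mul_le (by positivity)]
    calc 4 * b * (4 * Q) = 16 * (b * Q) := by ring
      _ ≤ n := by omega
  have hm0c : n ≤ 4 * Q * (m0 + 1) := by
    have := Nat.lt_mul_div_succ n (show 0 < 4 * Q by positivity)
    exact this.le
  have hChoose : n.choose (2 * b) ≤ (16 * Q) ^ (2 * b) * m0.choose (2 * b) := by
    apply choose_le_pow_mul
    have : m0 + 1 ≤ 4 * (m0 - 2 * b) := by omega
    calc n ≤ 4 * Q * (m0 + 1) := hm0c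
      _ ≤ 4 * Q * (4 * (m0 - 2 * b)) := Nat.mul_le_mul_left _ this
      _ = _ := by ring
  have hCpos : 0 < m0.choose (2 * b) := Nat.choose_pos (by omega)
  -- rich pairs
  have hρ : 2 * (2 ^ (b + 1) * L) * 2 ^ n ≤ 2 ^ (2 * b) * W'.card := by
    calc 2 * (2 ^ (b + 1) * L) * 2 ^ n ≤ 2 * (2 ^ (b + 1) * 2 ^ a) * (2 ^ (D + 2 + 2 * k * r) * W'.card) :=
          Nat.mul_le_mul (Nat.mul_le_mul_left _ (Nat.mul_le_mul_left _ hL)) hW2
      _ = 2 ^ (1 + (b + 1) + a + (D + 2 + 2 * k * r)) * W'.card := by ring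
      _ ≤ 2 ^ (2 * b) * W'.card := by
          refine Nat.mul_le_mul_right _ (Nat.pow_le_pow_right (by norm_num) ?_)
          omega
  have hrich := rich_half hWW hsub hdet (m0 := m0) (t1 := 2 * b) (ρ := 2 ^ (b + 1) * L)
    (fun z hz => (Finset.mem_filter.1 hz).2) hρ
  -- the players in `J` read few variables
  set aa := 2 * k * (k * n) / 2 ^ r with haa
  have ha : ∀ x ∈ W', (J.biUnion fun j => dom (c j x)).card ≤ aa := by
    intro x hx
    rw [haa, Nat.le_div_iff_mul_le (by positivity)]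
    calc (J.biUnion fun j => dom (c j x)).card * 2 ^ r ≤ (∑ j ∈ J, (dom (c j x)).card) * 2 ^ r :=
          Nat.mul_le_mul_right _ Finset.card_biUnion_le
      _ = ∑ j ∈ J, (dom (c j x)).card * 2 ^ r := by rw [Finset.sum_mul]
      _ ≤ J.card • (k * n) := Finset.sum_le_card_nsmul _ _ _ fun j _ => hdom x (hWW hx) j
      _ = 2 * k * (k * n) := by rw [hJc, smul_eq_mul]
  have hsz : 2 * (2 * lam + 2) * aa + (2 * lam + 2) * b ≤ n - 2 * b := by
    have h1 : aa * 2 ^ r ≤ 2 * k * (k * n) := Nat.div_mul_le_self _ _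
    have h2 : (4 * (2 * lam + 2) * aa) * 2 ^ r ≤ n * 2 ^ r := by
      calc (4 * (2 * lam + 2) * aa) * 2 ^ r = 4 * (2 * lam + 2) * (aa * 2 ^ r) := by ring
        _ ≤ 4 * (2 * lam + 2) * (2 * k * (k * n)) := Nat.mul_le_mul_left _ h1
        _ = (16 * k ^ 2 * (5 + 2 * k * r)) * n := by rw [hlam]; ring
        _ ≤ 2 ^ r * n := Nat.mul_le_mul_right _ hr
        _ = n * 2 ^ r := by ring
    have h3 : 4 * (2 * lam + 2) * aa ≤ n := Nat.le_of_mul_le_mul_right h2 (by positivity)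
    have h4 : 2 * ((2 * lam + 2) * b + 2 * b) ≤ n := by
      refine le_trans ?_ hbQ
      have h5 : 2 * (2 * lam + 4) ≤ 32 * Q := by
        rw [hlam]
        omega
      calc 2 * ((2 * lam + 2) * b + 2 * b) = (2 * (2 * lam + 4)) * b := by ring
        _ ≤ (32 * Q) * b := Nat.mul_le_mul_right _ h5
        _ = _ := by ring
    have h6 : 2 * (2 * (2 * lam + 2) * aa) ≤ n := by
      calc 2 * (2 * (2 * lam + 2) * aa) = 4 * (2 * lam + 2) * aa := by ring
        _ ≤ n := h3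
    omega
  have hcount := rich_count (m0 := m0) hWW hsub hclosed hRF ha (by omega) hsz
    (show (2 * lam + 2) * b ≤ b * (2 * lam + 2) by rw [mul_comm])
  set S := ∑ T1 ∈ (univ : Finset (Fin n)).powersetCard (2 * b), (Rich c J W' m0 (2 ^ (b + 1) * L) T1).card
  set C := m0.choose (2 * b)
  -- conclusion
  have h1 : (2 ^ n * 2 ^ ((2 * lam + 2) * b)) * C ≤
      (2 ^ n * 2 ^ ((D + 2 + 2 * k * r) + (b + 2) + lam * (2 * b) + a)) * C := by
    calc (2 ^ n * 2 ^ ((2 * lam + 2) * b)) * C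
        ≤ ((2 ^ (D + 2 + 2 * k * r) * W'.card) * 2 ^ ((2 * lam + 2) * b)) * C :=
          Nat.mul_le_mul_right _ (Nat.mul_le_mul_right _ hW2)
      _ = 2 ^ (D + 2 + 2 * k * r) * 2 ^ ((2 * lam + 2) * b) * (W'.card * C) := by ring
      _ ≤ 2 ^ (D + 2 + 2 * k * r) * 2 ^ ((2 * lam + 2) * b) * (2 * S) := Nat.mul_le_mul_left _ hrich
      _ = 2 * 2 ^ (D + 2 + 2 * k * r) * (2 ^ ((2 * lam + 2) * b) * S) := by ring
      _ ≤ 2 * 2 ^ (D + 2 + 2 * k * r) * (2 ^ (b + 1) * (n.choose (2 * b) * (L * 2 ^ n))) :=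
          Nat.mul_le_mul_left _ hcount
      _ ≤ 2 * 2 ^ (D + 2 + 2 * k * r) * (2 ^ (b + 1) * (((16 * Q) ^ (2 * b) * C) * (2 ^ a * 2 ^ n))) := by
          refine Nat.mul_le_mul_left _ (Nat.mul_le_mul_left _ (Nat.mul_le_mul hChoose ?_))
          exact Nat.mul_le_mul_right _ hL
      _ = _ := by
          have e1 : 16 * Q = 2 ^ lam := by rw [hQ2, hlam, pow_add]; norm_num
          rw [e1, ← pow_mul]
          ring
  have h2 : 2 ^ n * 2 ^ ((2 * lam + 2) * b) ≤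
      2 ^ n * 2 ^ ((D + 2 + 2 * k * r) + (b + 2) + lam * (2 * b) + a) := Nat.le_of_mul_le_mul_right h1 hCpos
  have h3 : 2 ^ ((2 * lam + 2) * b) ≤ 2 ^ ((D + 2 + 2 * k * r) + (b + 2) + lam * (2 * b) + a) :=
    Nat.le_of_mul_le_mul_left h2 (by positivity)
  have h4 : (2 * lam + 2) * b ≤ (D + 2 + 2 * k * r) + (b + 2) + lam * (2 * b) + a :=
    (Nat.pow_le_pow_iff_right (by norm_num)).1 h3
  have h5 : (2 * lam + 2) * b = lam * (2 * b) + 2 * b := by ring
  omega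

/-- the number of certificates -/
def Rd (k : ℕ) : ℕ := 12 + 4 * Nat.clog 2 k

/-- the base-two logarithm of the bound -/
def Bd (k : ℕ) : ℕ := 10 + 4 * k * Rd k

lemma Rd_large {k : ℕ} (hk : 1 ≤ k) : 16 * k ^ 2 * (5 + 2 * k * Rd k) ≤ 2 ^ Rd k := by
  unfold Rd
  set l := Nat.clog 2 k with hl
  have h1 : k ≤ 2 ^ l := Nat.le_pow_clog (by norm_num) k
  have h2 : l ≤ k := by
    rw [hl]
    rcases Nat.lt_or_ge 1 k with h | h
    · refine (Nat.clog_le_iff_le_pow (by norm_num)).2 Nat.lt_two_pow_self.le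
    · have : k = 1 := by omega
      rw [this, Nat.clog_one_right]
      omega
  have h3 : (2 : ℕ) ^ (12 + 4 * l) = 4096 * (2 ^ l) ^ 4 := by
    rw [pow_add, mul_comm 4 l, pow_mul]
    norm_num
  rw [h3]
  have h4 : k ^ 4 ≤ (2 ^ l) ^ 4 := Nat.pow_le_pow_left h1 4
  refine le_trans ?_ (Nat.mul_le_mul_left _ h4)
  have h5 : 5 + 2 * k * (12 + 4 * l) ≤ 37 * k ^ 2 := by
    have h6 : k * l ≤ k * k := Nat.mul_le_mul_left _ h2
    nlinarith
  calc 16 * k ^ 2 * (5 + 2 * k * (12 + 4 * l)) ≤ 16 * k ^ 2 * (37 * k ^ 2) := Nat.mul_le_mul_left _ h5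
    _ = 592 * k ^ 4 := by ring
    _ ≤ 4096 * k ^ 4 := Nat.mul_le_mul_right _ (by norm_num)

/-- **The core theorem.** -/
theorem core_det (k : ℕ) (hk : 1 ≤ k) (n : ℕ) (hn : 2 ^ Bd k ≤ n) :
    DCore k (2 ^ Rd k) (1 / ((2 ^ Bd k : ℕ) : ℝ)) n := by
  classical
  intro W c F L hW hsub hdet hdom hclosed hL
  obtain ⟨r, hr⟩ : ∃ r, r = Rd k := ⟨_, rfl⟩
  set B := 2 ^ Bd k with hB
  have hBpos : 0 < B := by positivity
  have hBR : (0 : ℝ) < B := by exact_mod_cast hBpos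
  have hnpos : 0 < n := lt_of_lt_of_le hBpos hn
  have hl2 : (1 : ℝ) / 2 ≤ Real.log 2 := by
    have := Real.log_two_gt_d9
    linarith
  set D := 2 * (n / B + 1) with hD
  -- `n / B ≤ D log 2`
  have h1 : (1 / (B : ℝ)) * n ≤ D * Real.log 2 := by
    have h2 : (n : ℝ) ≤ B * ((n / B : ℕ) + 1) := by
      have := (Nat.lt_mul_div_succ n hBpos).le
      exact_mod_cast this
    have h3 : (1 / (B : ℝ)) * n ≤ (n / B : ℕ) + 1 := by
      rw [one_div, ← div_eq_inv_mul, div_le_iff₀ hBR]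
      linarith [h2]
    have h4 : (D : ℝ) * (1 / 2) ≤ D * Real.log 2 := mul_le_mul_of_nonneg_left hl2 (Nat.cast_nonneg _)
    have h5 : (D : ℝ) * (1 / 2) = (n / B : ℕ) + 1 := by rw [hD]; push_cast; ring
    linarith
  have hWpos : 0 < W.card := by
    rcases Nat.eq_zero_or_pos W.card with h | h
    · exfalso
      rw [h] at hW
      simp only [Nat.cast_zero, Real.log_zero] at hW
      have h2 : (1 / (B : ℝ)) ≤ 1 / 4 := by
        apply one_div_le_one_div_of_le (by norm_num)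
        have : 4 ≤ B := by
          rw [hB]
          calc 4 = 2 ^ 2 := by norm_num
            _ ≤ 2 ^ Bd k := Nat.pow_le_pow_right (by norm_num) (by unfold Bd; omega)
        exact_mod_cast this
      have h3 : (0 : ℝ) < n := by exact_mod_cast hnpos
      nlinarith
    · exact h
  have hW2 : 2 ^ n ≤ 2 ^ D * W.card := by
    have hWR : (0 : ℝ) < W.card := by exact_mod_cast hWpos
    have h2 : Real.log ((2 : ℝ) ^ n) ≤ Real.log ((2 : ℝ) ^ D * W.card) := by
      rw [Real.log_mul (by positivity) hWR.ne', Real.log_pow, Real.log_pow]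
      linarith
    have h3 : (2 : ℝ) ^ n ≤ (2 : ℝ) ^ D * W.card :=
      (Real.log_le_log_iff (by positivity) (by positivity)).1 h2
    exact_mod_cast h3
  have hL2 : L ≤ 2 ^ D := by
    have h2 : (L : ℝ) ≤ Real.exp (D * Real.log 2) := hL.trans (Real.exp_le_exp.2 h1)
    rw [mul_comm, ← Real.rpow_def_of_pos (by norm_num), Real.rpow_natCast] at h2
    exact_mod_cast h2
  refine core_nat hk (Rd_large hk) ?_ W c F L hW2 hL2 hsub hdet hdom hclosed
  rw [← hr]
  set Q := (2 ^ r) ^ (2 * k) with hQ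
  have hQ2 : Q = 2 ^ (2 * k * r) := by rw [hQ, ← pow_mul]; ring_nf
  have hBQ : B = 1024 * (Q * Q) := by
    rw [hB, hQ2]
    unfold Bd
    rw [← hr, pow_add, ← pow_add 2 (2 * k * r), show 2 * k * r + 2 * k * r = 4 * k * r by ring]
    norm_num
  have hQge : 2 * k * r + 1 ≤ Q := by rw [hQ2]; exact Nat.lt_two_pow_self
  have hQ1 : 1 ≤ Q := by omega
  set x := n / B with hx
  have hxB : B * x ≤ n := Nat.mul_div_le n B
  have h6 : 32 * (D + D + 5 + 2 * k * r) * Q ≤ 128 * Q * x + 32 * Q * (9 + 2 * k * r) := by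
    rw [hD]; ring_nf; omega
  have h7 : 2 * (128 * Q * x) ≤ n := by
    calc 2 * (128 * Q * x) = (256 * Q) * x := by ring
      _ ≤ B * x := by
          refine Nat.mul_le_mul_right _ ?_
          rw [hBQ]
          nlinarith
      _ ≤ n := hxB
  have h8 : 2 * (32 * Q * (9 + 2 * k * r)) ≤ n := by
    refine le_trans ?_ hn
    rw [hBQ]
    have : 9 + 2 * k * r ≤ 9 * Q := by omega
    calc 2 * (32 * Q * (9 + 2 * k * r)) ≤ 2 * (32 * Q * (9 * Q)) := by
          exact Nat.mul_le_mul_left _ (Nat.mul_le_mul_left _ this)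
      _ = 576 * (Q * Q) := by ring
      _ ≤ _ := Nat.mul_le_mul_right _ (by norm_num)
  omega

end Pool.Agent.KD
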