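import Pool.Agent.KD.Ev

/-! Deterministic programs with a stack on one block. -/

namespace Pool.Agent.KD

open Pool.Agent.SemRO Pool.Agent.KNL Pool.Agent.PT44

variable {V Γ : Type} {n : ℕ}

/-- the table of the piece `i` of a skeleton: the results of the later pieces -/
def sk {R : ℕ} (v : Fin R → V × V) (i : Fin R) : V → V → Prop :=
  fun u w => ∃ j, i < j ∧ v j = (u, w)

/-- the points for which every piece of the skeleton has a short evaluation -/
def GoodE (P : SBP V Γ (Fin n)) {R : ℕ} (s : ℕ) (v : Fin R → V × V) : Set (Fin n → Bool) :=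
  {z | ∀ i, ∃ l, Ev P (sk v i) (gd (sk v i)) z (v i).1 (v i).2 l ∧ l.length ≤ s}

lemma facts_of {P : SBP V Γ (Fin n)} {R : ℕ} {v : Fin R → V × V} {z : Fin n → Bool}
    {G : Fin R → V → Prop} (h : ∀ i, ∃ l, Ev P (sk v i) (G i) z (v i).1 (v i).2 l) :
    ∀ i, ∃ l, Ev P noT allG z (v i).1 (v i).2 l := by
  have key : ∀ m : ℕ, ∀ i : Fin R, R ≤ (i : ℕ) + m → ∃ l, Ev P noT allG z (v i).1 (v i).2 l := by
    intro m
    induction m with
    | zero => intro i hi; exact absurd i.2 (by omega)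
    | succ m ih =>
      intro i hi
      obtain ⟨l, hl⟩ := h i
      refine hl.sound fun u w hq => ?_
      obtain ⟨j, hj, hv⟩ := hq
      have := ih j (by have : (i : ℕ) < j := hj; omega)
      rwa [hv] at this
  intro i
  exact key R i (by omega)

lemma sk_facts {P : SBP V Γ (Fin n)} {R : ℕ} {v : Fin R → V × V} {z : Fin n → Bool}
    (h : ∀ i, ∃ l, Ev P noT allG z (v i).1 (v i).2 l) (i : Fin R) :
    ∀ u w, sk v i u w → ∃ l, Ev P noT allG z u w l := by
  rintro u w ⟨j, _, hv⟩
  have := h j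
  rwa [hv] at this

/-- completeness of the skeletons -/
lemma goodE_complete {P : SBP V Γ (Fin n)} (hP : Det P) {z : Fin n → Bool} {s K : ℕ} (hs1 : 1 ≤ s)
    (hK0 : 0 < K) {l : List (Fin n)} (h : P.AccWalk z l) (hK : 2 * l.length + s ≤ s * K) :
    ∃ v : Fin K → V × V, v ⟨0, hK0⟩ = (P.src, P.acc) ∧ z ∈ GoodE P s v := by
  classical
  obtain ⟨ps, hlen, hch, hsz, h0⟩ := (ev_of_accWalk hP h).cut_exact s K hs1 hK
  have hi : ∀ i : Fin K, (i : ℕ) < ps.length := fun i => by rw [hlen]; exact i.2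
  have hev : ∀ i : Fin K, Ev P (sk (fun i : Fin K => (ps[(i : ℕ)]'(hi i)).1) i) allG z
      (ps[(i : ℕ)]'(hi i)).1.1 (ps[(i : ℕ)]'(hi i)).1.2 (ps[(i : ℕ)]'(hi i)).2 := by
    intro i
    refine (chainE_get hch i (hi i)).mono (fun u w hq => ?_) fun _ h => h
    obtain ⟨j, hj, hij, hq⟩ := hq
    exact ⟨⟨j, by omega⟩, hij, hq⟩
  refine ⟨fun i => (ps[(i : ℕ)]'(hi i)).1, ?_, ?_⟩
  · have := h0 ((P.src, P.acc), [])
    rw [List.getD_eq_getElem _ _ (by omega)] at this
    exact this
  · intro i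
    have hf := facts_of (fun i => ⟨_, hev i⟩)
    obtain ⟨l', h1, h2⟩ := (hev i).force hP (sk_facts hf i)
    exact ⟨l', h1, h2.trans (hsz _ (List.getElem_mem _))⟩

open Classical in
/-- few points belong to one skeleton -/
theorem goodE_count {k R s : ℕ} {ε : ℝ} (hR0 : 0 < R) (hcore : DCore k R ε n)
    {P : SBP V Γ (Fin n)} (hP : Det P) (v : Fin R → V × V) (hv : v ⟨0, hR0⟩ = (P.src, P.acc))
    (hs : s * R ≤ k * n) (F : Set (Fin n → Bool)) (hF : ∀ z l, P.AccWalk z l → z ∈ F) {L : ℕ}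
    (hR : RectFree F L) (hL : (L : ℝ) ≤ Real.exp (ε * n)) :
    (((Finset.univ.filter (fun z => z ∈ GoodE P s v)).card : ℕ) : ℝ) ≤
      Real.exp (n * Real.log 2 - ε * n) := by
  by_contra hcon
  push Not at hcon
  have hex : ∀ z : Fin n → Bool, ∃ f : Fin R → List (Fin n), z ∈ GoodE P s v →
      ∀ j, Ev P (sk v j) (gd (sk v j)) z (v j).1 (v j).2 (f j) ∧ (f j).length ≤ s := by
    intro z
    by_cases hz : z ∈ GoodE P s v
    · choose f hf using hz
      exact ⟨f, fun _ => hf⟩
    · exact ⟨fun _ => [], fun h => absurd h hz⟩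
  choose f hf using hex
  refine hcore (Finset.univ.filter (fun z => z ∈ GoodE P s v))
    (fun j z => restr (f z j).toFinset z) F L ?_ ?_ ?_ ?_ ?_ hL hR
  · have h1 := Real.log_le_log (Real.exp_pos _) hcon.le
    rwa [Real.log_exp] at h1
  · intro z _ j
    exact sub_restr _ _
  · intro j z hz z' hz' hc
    have hz1 := (Finset.mem_filter.mp hz).2
    have hz1' := (Finset.mem_filter.mp hz').2
    obtain ⟨h1, _⟩ := hf z hz1 j
    obtain ⟨h1', _⟩ := hf z' hz1' j
    have hfacts := facts_of (fun i => ⟨_, (hf z hz1 i).1⟩)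
    have hfun : ∀ u w w', sk v j u w → sk v j u w' → w = w' := by
      intro u w w' h h'
      obtain ⟨l, hl⟩ := sk_facts hfacts j u w h
      obtain ⟨l', hl'⟩ := sk_facts hfacts j u w' h'
      exact (hl.unique0 hP hl').1
    have hagree : ∀ i ∈ f z j, i ∈ f z' j → z i = z' i := by
      intro i hi hi'
      refine hc i (z i) (z' i) ?_ ?_
      · simp [restr, hi]
      · simp [restr, hi']
    have e1 : Ev P (sk v j) (gd (sk v j)) (fun i => if i ∈ f z j then z i else z' i)
        (v j).1 (v j).2 (f z j) := h1.local fun i hi => by simp [hi]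
    have e2 : Ev P (sk v j) (gd (sk v j)) (fun i => if i ∈ f z j then z i else z' i)
        (v j).1 (v j).2 (f z' j) := h1'.local fun i hi => by
      by_cases h : i ∈ f z j
      · simp only [h, if_true]
        exact (hagree i h hi).symm
      · simp [h]
    obtain ⟨_, hl⟩ := e1.unique hP hfun (fun u w h g => g w h) e2
    change restr (f z j).toFinset z = restr (f z' j).toFinset z'
    rw [restr_eq_iff]
    refine ⟨by rw [hl], fun i hi => ?_⟩
    have hi1 : i ∈ f z j := List.mem_toFinset.1 hi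
    exact hagree i hi1 (by rw [← hl]; exact hi1)
  · intro z hz j
    have hz1 := (Finset.mem_filter.mp hz).2
    change (dom (restr (f z j).toFinset z)).card * R ≤ k * n
    rw [dom_restr]
    exact (Nat.mul_le_mul_right _ ((List.toFinset_card_le _).trans (hf z hz1 j).2)).trans hs
  · intro u hu
    have hev : ∀ j, ∃ l, Ev P (sk v j) (gd (sk v j)) u (v j).1 (v j).2 l := by
      intro j
      obtain ⟨w, hw, hsub⟩ := hu j
      have hw1 := (Finset.mem_filter.mp hw).2
      refine ⟨_, (hf w hw1 j).1.local fun i hi => ?_⟩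
      exact ((sub_restr_iff _ _ _).1 hsub i (List.mem_toFinset.2 hi)).symm
    obtain ⟨l, hl⟩ := facts_of hev ⟨0, hR0⟩
    rw [hv] at hl
    exact hF u l (accWalk_of_ev hl)

open Classical in
/-- Upper bound for the number of inputs accepted with at most `k n` tests. -/
theorem det_count [Fintype V] {k R : ℕ} {ε : ℝ} (hR2 : 2 ≤ R) (hn : R ≤ n)
    (hcore : DCore (4 * k + 4) R ε n) {P : SBP V Γ (Fin n)} (hP : Det P)
    (F : Set (Fin n → Bool)) (hF : ∀ z l, P.AccWalk z l → z ∈ F) {L : ℕ}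
    (hR : RectFree F L) (hL : (L : ℝ) ≤ Real.exp (ε * n)) (G : Finset (Fin n → Bool))
    (htime : ∀ z ∈ G, ∃ l, P.AccWalk z l ∧ l.length ≤ k * n) :
    (G.card : ℝ) ≤ (Fintype.card (V × V) : ℝ) ^ R * Real.exp (n * Real.log 2 - ε * n) := by
  obtain ⟨s, hs⟩ : ∃ s, s = (4 * k + 4) * n / R := ⟨_, rfl⟩
  have hR0 : 0 < R := by omega
  have hsR : s * R ≤ (4 * k + 4) * n := by rw [hs]; exact Nat.div_mul_le_self _ _
  have hsR' : (4 * k + 4) * n < s * R + R := by
    rw [hs]
    have h1 := Nat.div_add_mod ((4 * k + 4) * n) R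
    have h2 := Nat.mod_lt ((4 * k + 4) * n) hR0
    rw [mul_comm R] at h1
    omega
  have hns : n / R ≤ s := by
    rw [hs]
    apply Nat.div_le_div_right
    exact Nat.le_mul_of_pos_left _ (by omega)
  have hs1 : 1 ≤ s := le_trans ((Nat.one_le_div_iff hR0).2 hn) hns
  have hK : ∀ l : List (Fin n), l.length ≤ k * n → 2 * l.length + s ≤ s * R := by
    intro l hl
    have h1 : 2 * s ≤ s * R := by rw [mul_comm 2 s]; exact Nat.mul_le_mul_left _ hR2
    have h2 : (4 * k + 4) * n = 4 * (k * n) + 4 * n := by ring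
    omega
  let S : (Fin R → V × V) → Finset (Fin n → Bool) := fun v =>
    if v ⟨0, hR0⟩ = (P.src, P.acc) then Finset.univ.filter (fun z => z ∈ GoodE P s v) else ∅
  have hS : ∀ v, ((S v).card : ℝ) ≤ Real.exp (n * Real.log 2 - ε * n) := by
    intro v
    simp only [S]
    split_ifs with h
    · exact goodE_count hR0 hcore hP v h hsR F hF hR hL
    · simp only [Finset.card_empty, Nat.cast_zero]; positivity
  have hsub : G ⊆ (Finset.univ : Finset (Fin R → V × V)).biUnion S := by
    intro z hz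
    obtain ⟨l, hl1, hl2⟩ := htime z hz
    obtain ⟨v, h1, h2⟩ := goodE_complete hP hs1 hR0 hl1 (hK l hl2)
    refine Finset.mem_biUnion.mpr ⟨v, Finset.mem_univ _, ?_⟩
    simp only [S]
    rw [if_pos h1]
    exact Finset.mem_filter.mpr ⟨Finset.mem_univ _, h2⟩
  calc (G.card : ℝ)
      ≤ ((∑ j : Fin R → V × V, (S j).card : ℕ) : ℝ) := by
        exact_mod_cast (Finset.card_le_card hsub).trans Finset.card_biUnion_le
    _ = ∑ j : Fin R → V × V, ((S j).card : ℝ) := by push_cast; rfl
    _ ≤ ∑ j : Fin R → V × V, Real.exp (n * Real.log 2 - ε * n) := Finset.sum_le_sum fun c _ => hS c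
    _ = (Fintype.card (V × V) : ℝ) ^ R * Real.exp (n * Real.log 2 - ε * n) := by
        rw [Finset.sum_const, Finset.card_univ, nsmul_eq_mul]
        simp only [Fintype.card_fun, Fintype.card_fin]
        push_cast
        ring

/-- the bound for deterministic programs with a stack on one block -/
theorem dbp_of_core {k R B1 B n : ℕ} (hR : 2 ≤ R) (hRB : R ≤ B1) (hB : B1 ≤ B) (hn : B1 ≤ n)
    (hcore : DCore (4 * k + 4) R (1 / (B1 : ℝ)) n) : DbpB k B n := by
  classical
  intro V Γ _ P F L hP hacc hrf hL W hW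
  have hnR : R ≤ n := hRB.trans hn
  have hB1 : (0 : ℝ) < B1 := by
    have : 0 < B1 := by omega
    exact_mod_cast this
  have hBr : (B1 : ℝ) ≤ B := by exact_mod_cast hB
  have hn0 : (0 : ℝ) ≤ n := Nat.cast_nonneg _
  have hle : (n : ℝ) / B ≤ 1 / (B1 : ℝ) * n := by
    rw [one_div_mul_eq_div]
    exact div_le_div_of_nonneg_left hn0 hB1 hBr
  have hcount := det_count (k := k) hR hnR hcore hP F hacc hrf
    (hL.trans (Real.exp_le_exp.mpr hle)) W hW
  refine hcount.trans ?_
  have hV1 : (1 : ℝ) ≤ Fintype.card V := by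
    have : 0 < Fintype.card V := Fintype.card_pos_iff.2 ⟨P.src⟩
    exact_mod_cast this
  have hQ : (Fintype.card (V × V) : ℝ) ≤ ((Fintype.card V : ℝ) + n) ^ 2 := by
    simp only [Fintype.card_prod]
    push_cast
    nlinarith [mul_le_mul_of_nonneg_right hV1 hn0]
  have e1 : Real.exp (n * Real.log 2 - 1 / (B1 : ℝ) * n) = 2 ^ n * Real.exp (-(1 / (B1 : ℝ) * n)) := by
    have e2 : (2 : ℝ) ^ n = Real.exp (n * Real.log 2) := by
      rw [Real.exp_nat_mul, Real.exp_log (by norm_num)]
    rw [e2, ← Real.exp_add]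
    congr 1
  rw [e1]
  have h1 : (Fintype.card (V × V) : ℝ) ^ R ≤ ((Fintype.card V : ℝ) + n) ^ (2 * B) := by
    calc (Fintype.card (V × V) : ℝ) ^ R ≤ (((Fintype.card V : ℝ) + n) ^ 2) ^ R :=
          pow_le_pow_left₀ (Nat.cast_nonneg _) hQ R
      _ = ((Fintype.card V : ℝ) + n) ^ (2 * R) := by rw [← pow_mul]
      _ ≤ _ := pow_le_pow_right₀ (by linarith) (by omega)
  exact mul_le_mul h1 (mul_le_mul_of_nonneg_left (Real.exp_le_exp.mpr (by linarith)) (by positivity))
    (by positivity) (by positivity)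

end Pool.Agent.KD
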