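import Pool.Agent.KD.HashB

/-! Hash functions with `poly(s)` random bits for each of the `n / s` values whose level sets contain no
rectangle with `8 s + 2` rows and columns. -/

namespace Pool.Agent.KD.Hash

open Finset Pool.Agent.SemRO Pool.Agent.KNL.Hash Pool.Agent.KQL

variable {n m G w' : ℕ}

open Classical in
lemma card_tables (hm : m ≤ n) {ι : Type} [Fintype ι] [Nonempty ι] (z : ι → Fin n → Bool)
    (α : Fin (G * w') → Fin (2 * n) → Bool) (a b : ℕ)
    (hα : ∀ p q, p ≠ q → (gcoll hm α (z p) (z q)).card < a)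
    (hb : Fintype.card ι ^ 2 * a < G * (b + 1)) :
    ((univ.filter fun g : Fin m → Fin (G * 2 ^ w') → Bool =>
      ∀ j p q, pv (E0 G w') (g j) (idx hm α (z p) j) = pv (E0 G w') (g j) (idx hm α (z q) j)).card : ℝ) ≤
      2 ^ (G * 2 ^ w' * m) / 2 ^ ((Fintype.card ι - 1) * (m - b)) := by
  set T := Fintype.card ι with hT
  set K := G * 2 ^ w' with hK
  set B : Finset (Fin m) := univ.filter fun j => ∀ g : Fin G,
    ¬ Function.Injective fun p => part g (idx hm α (z p) j) with hB
  have hBc : B.card ≤ b := by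
    have h1 : G * B.card ≤ ∑ p ∈ (univ : Finset (ι × ι)).filter (fun p => p.1 ≠ p.2),
          (gcoll hm α (z p.1) (z p.2)).card := by
      have h2 : (B ×ˢ (univ : Finset (Fin G))) ⊆
          ((univ : Finset (ι × ι)).filter fun p => p.1 ≠ p.2).biUnion
            fun p => gcoll hm α (z p.1) (z p.2) := by
        rintro ⟨j, g⟩ hj
        have hj1 := (mem_filter.1 (mem_product.1 hj).1).2 g
        rw [Function.Injective] at hj1
        push Not at hj1
        obtain ⟨p, q, hpq, hne⟩ := hj1
        rw [mem_biUnion]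
        exact ⟨(p, q), by simpa using hne, by simpa [gcoll] using hpq⟩
      have h3 := (card_le_card h2).trans card_biUnion_le
      rw [card_product, card_univ, Fintype.card_fin] at h3
      rw [mul_comm]
      exact h3
    have h4 : ∑ p ∈ (univ : Finset (ι × ι)).filter (fun p => p.1 ≠ p.2),
          (gcoll hm α (z p.1) (z p.2)).card ≤ T ^ 2 * a := by
      calc ∑ p ∈ (univ : Finset (ι × ι)).filter (fun p => p.1 ≠ p.2),
          (gcoll hm α (z p.1) (z p.2)).card
        ≤ ∑ p ∈ (univ : Finset (ι × ι)).filter (fun p => p.1 ≠ p.2), a :=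
          Finset.sum_le_sum fun p hp => (hα p.1 p.2 (mem_filter.1 hp).2).le
      _ ≤ ∑ _p ∈ (univ : Finset (ι × ι)), a := Finset.sum_le_sum_of_subset (filter_subset _ _)
      _ = T ^ 2 * a := by
          simp only [sum_const, card_univ, Fintype.card_prod, smul_eq_mul, ← hT]
          ring
    have h5 : G * B.card < G * (b + 1) := (h1.trans h4).trans_lt hb
    have h6 : B.card < b + 1 := Nat.lt_of_mul_lt_mul_left h5
    omega
  have h1 : (univ.filter fun g : Fin m → Fin K → Bool =>
      ∀ j p q, pv (E0 G w') (g j) (idx hm α (z p) j) = pv (E0 G w') (g j) (idx hm α (z q) j)) =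
      Fintype.piFinset fun j : Fin m => univ.filter fun h : Fin K → Bool =>
        ∀ p q, pv (E0 G w') h (idx hm α (z p) j) = pv (E0 G w') h (idx hm α (z q) j) := by
    ext g
    simp [Fintype.mem_piFinset]
  rw [h1, Fintype.card_piFinset]
  push_cast
  have h2 : ∀ j : Fin m, ((univ.filter fun h : Fin K → Bool =>
        ∀ p q, pv (E0 G w') h (idx hm α (z p) j) = pv (E0 G w') h (idx hm α (z q) j)).card : ℝ) ≤
      2 ^ K / (if j ∈ B then 1 else 2 ^ (T - 1)) := by
    intro j
    by_cases hj : j ∈ B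
    · rw [if_pos hj, div_one]
      have : (univ.filter fun h : Fin K → Bool =>
        ∀ p q, pv (E0 G w') h (idx hm α (z p) j) = pv (E0 G w') h (idx hm α (z q) j)).card ≤ 2 ^ K := by
        refine (card_le_univ _).trans ?_
        simp
      exact_mod_cast this
    · rw [if_neg hj]
      have hj' : ∃ g : Fin G, Function.Injective fun p => part g (idx hm α (z p) j) := by
        by_contra hcon
        push Not at hcon
        exact hj (by rw [hB, mem_filter]; exact ⟨mem_univ _, hcon⟩)
      obtain ⟨g, hg⟩ := hj'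
      exact card_const_group (fun p => idx hm α (z p) j) g hg
  calc ∏ j : Fin m, ((univ.filter fun h : Fin K → Bool =>
        ∀ p q, pv (E0 G w') h (idx hm α (z p) j) = pv (E0 G w') h (idx hm α (z q) j)).card : ℝ)
      ≤ ∏ j : Fin m, ((2 : ℝ) ^ K / (if j ∈ B then 1 else 2 ^ (T - 1))) :=
        Finset.prod_le_prod (fun j _ => by positivity) fun j _ => h2 j
    _ = 2 ^ (K * m) / 2 ^ ((T - 1) * (m - B.card)) := by
        rw [Finset.prod_div_distrib, Finset.prod_const, card_univ, Fintype.card_fin, ← pow_mul]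
        congr 1
        rw [Finset.prod_ite]
        simp only [prod_const_one, one_mul, prod_const]
        rw [← pow_mul]
        congr 2
        have h4 := Finset.card_filter_add_card_filter_not (s := (univ : Finset (Fin m)))
          (fun v => v ∈ B)
        have h5 : (univ.filter fun v : Fin m => v ∈ B) = B := by ext; simp
        rw [h5, card_univ, Fintype.card_fin] at h4
        omega
    _ ≤ 2 ^ (K * m) / 2 ^ ((T - 1) * (m - b)) := by
        apply div_le_div_of_nonneg_left (by positivity) (by positivity)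
        apply pow_le_pow_right₀ (by norm_num)
        exact Nat.mul_le_mul_left _ (by omega)

open Classical in
lemma exists_tables (hm : m ≤ n) {t : ℕ} (ht : 0 < t)
    (α : Fin (G * w') → Fin (2 * n) → Bool) (a b : ℕ)
    (hα : ∀ x x' : Fin n → Bool, x ≠ x' → (gcoll hm α x x').card < a)
    (hb : (t * t) ^ 2 * a < G * (b + 1))
    (h2 : n + n * t + 1 ≤ (t * t - 1) * (m - b)) :
    ∃ g : Fin m → Fin (G * 2 ^ w') → Bool, ∀ (A : Finset (Fin n)) (r : Fin t → Fin n → Bool), Dis A r →
      ¬ ∀ j p q, pv (E0 G w') (g j) (idx hm α (pt A r p) j) =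
        pv (E0 G w') (g j) (idx hm α (pt A r q) j) := by
  by_contra hcon
  push Not at hcon
  have : Nonempty (Fin t × Fin t) := ⟨(⟨0, ht⟩, ⟨0, ht⟩)⟩
  have hι : Fintype.card (Fin t × Fin t) = t * t := by simp
  have hcover : (univ : Finset (Fin m → Fin (G * 2 ^ w') → Bool)) ⊆
      ((univ : Finset (Finset (Fin n) × (Fin t → Fin n → Bool))).filter
        fun p => Dis p.1 p.2).biUnion
        (fun p => univ.filter fun g : Fin m → Fin (G * 2 ^ w') → Bool =>
          ∀ j a b, pv (E0 G w') (g j) (idx hm α (pt p.1 p.2 a) j) =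
            pv (E0 G w') (g j) (idx hm α (pt p.1 p.2 b) j)) := by
    intro c _
    obtain ⟨A, r, hs, h⟩ := hcon c
    rw [mem_biUnion]
    exact ⟨(A, r), by simpa using hs, by simpa using h⟩
  set Q : ℝ := 2 ^ (G * 2 ^ w' * m) with hQ
  have hQpos : 0 < Q := by positivity
  have hone : ∀ p ∈ (univ : Finset (Finset (Fin n) × (Fin t → Fin n → Bool))).filter
      (fun p => Dis p.1 p.2), ((univ.filter fun g : Fin m → Fin (G * 2 ^ w') → Bool =>
          ∀ j a b, pv (E0 G w') (g j) (idx hm α (pt p.1 p.2 a) j) =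
            pv (E0 G w') (g j) (idx hm α (pt p.1 p.2 b) j)).card : ℝ)
      ≤ Q * (1 / 2 ^ (n + n * t + 1)) := by
    intro p hp
    have h3 := card_tables (w' := w') hm (pt p.1 p.2) α a b
      (fun i j hij => hα _ _ fun h => hij (pt_inj _ _ (mem_filter.1 hp).2 h)) (by rw [hι]; exact hb)
    refine h3.trans ?_
    rw [hι, div_eq_mul_one_div]
    apply mul_le_mul_of_nonneg_left _ hQpos.le
    apply one_div_le_one_div_of_le (by positivity)
    exact pow_le_pow_right₀ (by norm_num) h2
  have hc := (card_le_card hcover).trans card_biUnion_le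
  have hcard : ((univ : Finset (Fin m → Fin (G * 2 ^ w') → Bool)).card : ℝ) = Q := by
    rw [card_univ]
    simp only [Fintype.card_pi, Fintype.card_bool, prod_const, card_univ, Fintype.card_fin]
    rw [← pow_mul, hQ]
    push_cast
    rfl
  have hc' : Q ≤ ∑ p ∈ (univ : Finset (Finset (Fin n) × (Fin t → Fin n → Bool))).filter
      (fun p => Dis p.1 p.2),
        ((univ.filter fun g : Fin m → Fin (G * 2 ^ w') → Bool =>
          ∀ j a b, pv (E0 G w') (g j) (idx hm α (pt p.1 p.2 a) j) =
            pv (E0 G w') (g j) (idx hm α (pt p.1 p.2 b) j)).card : ℝ) := by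
    rw [← hcard]
    exact_mod_cast hc
  have h7 : Q ≤ 2 ^ (n + n * t) * (Q * (1 / 2 ^ (n + n * t + 1))) := by
    refine hc'.trans ((Finset.sum_le_sum hone).trans ?_)
    calc ∑ p ∈ (univ : Finset (Finset (Fin n) × (Fin t → Fin n → Bool))).filter
            (fun p => Dis p.1 p.2), Q * (1 / 2 ^ (n + n * t + 1))
        ≤ ∑ _p ∈ (univ : Finset (Finset (Fin n) × (Fin t → Fin n → Bool))),
            Q * (1 / 2 ^ (n + n * t + 1)) :=
          Finset.sum_le_sum_of_subset_of_nonneg (filter_subset _ _) fun _ _ _ => by positivity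
      _ = _ := by
          simp only [sum_const, card_univ, Fintype.card_prod, Fintype.card_finset,
            Fintype.card_fin, nsmul_eq_mul, Fintype.card_pi, Fintype.card_bool, prod_const]
          push_cast
          rw [← pow_mul, ← pow_add]
  have h8 : (2 : ℝ) ^ (n + n * t) * (Q * (1 / 2 ^ (n + n * t + 1))) = Q / 2 := by
    rw [pow_add _ (n + n * t) 1]
    field_simp
  rw [h8] at h7
  linarith

/-- **Hash functions without rectangles.** -/
theorem exists_hash_idx {s w' n : ℕ} (hs : 1 ≤ s) (hn : s ≤ n)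
    (hw : 32 * ((8 * s + 2) * (8 * s + 2)) ^ 2 ≤ 2 ^ w') :
    ∃ (α : Fin (8 * ((8 * s + 2) * (8 * s + 2)) ^ 2 * s * w') → Fin (2 * n) → Bool)
      (g : Fin (n / s) → Fin (8 * ((8 * s + 2) * (8 * s + 2)) ^ 2 * s * 2 ^ w') → Bool),
      ∀ y : Fin (n / s) → Bool,
        RectFree {x : Fin n → Bool | ∀ j, pv (E0 (8 * ((8 * s + 2) * (8 * s + 2)) ^ 2 * s) w') (g j)
          (idx (Nat.div_le_self n s) α x j) = y j} (8 * s + 2) := by
  set t : ℕ := 8 * s + 2 with ht
  set T2 : ℕ := (t * t) ^ 2 with hT2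
  set G : ℕ := 8 * T2 * s with hG
  have hm : n / s ≤ n := Nat.div_le_self n s
  have hT2pos : 0 < T2 := by positivity
  have hms : (n / s) * s ≤ n := Nat.div_mul_le_self n s
  have hn0 : 0 < n := by omega
  have hm1 : 1 ≤ n / s := by
    rw [Nat.le_div_iff_mul_le hs]
    omega
  have hnm : n ≤ 2 * ((n / s) * s) := by
    have h1 : n < (n / s + 1) * s := by
      have := Nat.lt_div_mul_add (a := n) (show 0 < s by omega)
      linarith
    have h2 : s ≤ (n / s) * s := Nat.le_mul_of_pos_left s (by omega)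
    nlinarith
  obtain ⟨α, hα⟩ := exists_windows (n := n) (G := G) (w' := w') (Q := T2) hm hn0
    (by
      rw [hG]
      calc n / s * (8 * T2 * s) = 8 * T2 * (n / s * s) := by ring
        _ ≤ 8 * T2 * n := Nat.mul_le_mul_left _ hms) hw hT2pos
  set m : ℕ := n / s with hmdef
  obtain ⟨g, hg⟩ := exists_tables (w' := w') hm (t := t) (by omega) α (2 * n) (m / 2) hα
    (by
      rw [← hT2, hG]
      have h1 : m < 2 * (m / 2 + 1) := by omega
      calc T2 * (2 * n) ≤ T2 * (2 * (2 * (m * s))) := by gcongr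
        _ = 4 * T2 * s * m := by ring
        _ < 4 * T2 * s * (2 * (m / 2 + 1)) := Nat.mul_lt_mul_of_pos_left h1 (by positivity)
        _ = _ := by ring)
    (by
      have h1 : m ≤ 2 * (m - m / 2) := by omega
      have h2 : (t * t - 1) * m ≤ 2 * ((t * t - 1) * (m - m / 2)) := by
        calc (t * t - 1) * m ≤ (t * t - 1) * (2 * (m - m / 2)) := Nat.mul_le_mul_left _ h1
          _ = _ := by ring
      have h3 : 4 * s * (t + 1) + 4 ≤ t * t - 1 := by
        have : 4 * s * (t + 1) + 4 + 1 ≤ t * t := by rw [ht]; nlinarith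
        omega
      have h4 : (4 * s * (t + 1) + 4) * m ≤ (t * t - 1) * m := Nat.mul_le_mul_right _ h3
      have h5 : 2 * (n + n * t + 1) ≤ (4 * s * (t + 1) + 4) * m := by
        have h6 : n * (t + 1) ≤ 2 * (m * s) * (t + 1) := Nat.mul_le_mul_right _ hnm
        nlinarith
      omega)
  refine ⟨α, g, fun y => ?_⟩
  intro A u v hu hv
  by_contra hcon
  push Not at hcon
  let r : Fin t → Fin n → Bool := fun i => mix A (u i) (v i)
  have hdis : Dis A r := by
    intro i j hij
    obtain ⟨x, hx, hxx⟩ := hu i j hij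
    obtain ⟨x', hx', hxx'⟩ := hv i j hij
    exact ⟨⟨x, hx, by simpa [r, mix, hx] using hxx⟩, ⟨x', hx', by simpa [r, mix, hx'] using hxx'⟩⟩
  apply hg A r hdis
  have hpt : ∀ p, pt A r p = mix A (u p.1) (v p.2) := by
    intro p
    funext x
    by_cases hx : x ∈ A <;> simp [pt, mix, hx, r]
  intro j p q
  have h1 := hcon p.1 p.2
  have h2 := hcon q.1 q.2
  rw [← hpt] at h1 h2
  exact (h1 j).trans (h2 j).symm

end Pool.Agent.KD.Hash

namespace Pool.Agent.KD

open Pool.Agent.SemRO Pool.Agent.KQL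

/-- everything indexed by natural numbers -/
theorem lift_hash {s w K n t : ℕ} (E : Fin K → Fin w → Bool) (α : Fin w → Fin (2 * n) → Bool)
    (g : Fin (n / s) → Fin K → Bool)
    (hF : ∀ y : Fin (n / s) → Bool, RectFree {x : Fin n → Bool |
      ∀ j, pv E (g j) (Pool.Agent.KNL.Hash.idx (Nat.div_le_self n s) α x j) = y j} t) :
    ∃ (α E C : ℕ → ℕ → Bool), ∀ σ : ℕ → ℕ,
      RectFree {x : Fin n → Bool | ∀ j, j < n / s → hv w K n α E C j (xb x) = σ j} t := by
  have hm : n / s ≤ n := Nat.div_le_self n s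
  refine ⟨fun l i => if h : l < w ∧ i < 2 * n then α ⟨l, h.1⟩ ⟨i, h.2⟩ else false,
    fun e q => if h : e < K ∧ q < w then E ⟨e, h.1⟩ ⟨q, h.2⟩ else false,
    fun j e => if h : j < n / s ∧ e < K then g ⟨j, h.1⟩ ⟨e, h.2⟩ else false, fun σ => ?_⟩
  set α' : ℕ → ℕ → Bool := fun l i => if h : l < w ∧ i < 2 * n then α ⟨l, h.1⟩ ⟨i, h.2⟩ else false with hα'
  set E' : ℕ → ℕ → Bool := fun e q => if h : e < K ∧ q < w then E ⟨e, h.1⟩ ⟨q, h.2⟩ else false with hE'
  set C' : ℕ → ℕ → Bool := fun j e => if h : j < n / s ∧ e < K then g ⟨j, h.1⟩ ⟨e, h.2⟩ else false with hC'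
  have hpr : ∀ (x : Fin n → Bool) (j : Fin (n / s)) (q : Fin w),
      hpr n α' j q (xb x) = 1 ↔ Pool.Agent.KNL.Hash.idx hm α x j q = true := by
    intro x j q
    unfold Pool.Agent.KQL.hpr Pool.Agent.KNL.Hash.idx
    rw [decide_eq_true_eq, Finset.sum_range]
    have : ∀ i : Fin n, (α' q (i + j)).toNat * (xb x i).toNat =
        (if (α q ⟨i + j, by omega⟩ && x i) = true then 1 else 0) := by
      intro i
      have h1 : (i : ℕ) + j < 2 * n := by omega
      rw [hα']
      simp only [q.isLt, h1, and_self, dif_pos, Fin.eta]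
      unfold xb
      rw [dif_pos i.isLt]
      cases α q ⟨i + j, h1⟩ <;> cases x i <;> simp
    rw [Finset.sum_congr rfl fun i _ => this i]
  have hval : ∀ (x : Fin n → Bool) (j : Fin (n / s)),
      hv w K n α' E' C' j (xb x) = (pv E (g j) (Pool.Agent.KNL.Hash.idx hm α x j)).toNat := by
    intro x j
    unfold hv pv
    have h1 : ((Finset.range K).filter (fun e => C' j e = true ∧
        ∀ q < w, E' e q = true → Pool.Agent.KQL.hpr n α' j q (xb x) = 1)).card =
        (Finset.univ.filter fun e : Fin K => g j e = true ∧ ∀ q, E e q = true →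
          Pool.Agent.KNL.Hash.idx hm α x j q = true).card := by
      symm
      refine Finset.card_bij (fun e _ => (e : ℕ)) ?_ ?_ ?_
      · intro e he
        obtain ⟨_, he1, he2⟩ := Finset.mem_filter.mp he
        rw [Finset.mem_filter, Finset.mem_range]
        refine ⟨e.isLt, ?_, fun q hq hEq => ?_⟩
        · rw [hC']; simp only [j.isLt, e.isLt, and_self, dif_pos, Fin.eta]; exact he1
        · rw [hE'] at hEq
          simp only [e.isLt, hq, and_self, dif_pos, Fin.eta] at hEq
          exact (hpr x j ⟨q, hq⟩).mpr (he2 ⟨q, hq⟩ hEq)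
      · intro e _ e' _ h
        exact Fin.ext h
      · intro e he
        obtain ⟨h0, he1, he2⟩ := Finset.mem_filter.mp he
        have heK : e < K := Finset.mem_range.mp h0
        refine ⟨⟨e, heK⟩, ?_, rfl⟩
        rw [Finset.mem_filter]
        refine ⟨Finset.mem_univ _, ?_, fun q hq => ?_⟩
        · rw [hC'] at he1
          simp only [j.isLt, heK, and_self, dif_pos, Fin.eta] at he1
          exact he1
        · apply (hpr x j q).mp
          apply he2 q q.isLt
          rw [hE']
          simp only [heK, q.isLt, and_self, dif_pos, Fin.eta]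
          exact hq
    rw [h1]
    rcases Nat.mod_two_eq_zero_or_one (Finset.univ.filter fun e : Fin K => g j e = true ∧
      ∀ q, E e q = true → Pool.Agent.KNL.Hash.idx hm α x j q = true).card with h | h
    · rw [h]; rfl
    · rw [h]; rfl
  have hsub : {x : Fin n → Bool | ∀ j, j < n / s → hv w K n α' E' C' j (xb x) = σ j} ⊆
      {x : Fin n → Bool | ∀ j, pv E (g j) (Pool.Agent.KNL.Hash.idx hm α x j) = decide (σ j = 1)} := by
    intro x hx j
    have h1 := hx j j.isLt
    rw [hval] at h1
    rw [← h1]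
    cases pv E (g j) (Pool.Agent.KNL.Hash.idx hm α x j) <;> simp
  intro A u v hu hv
  obtain ⟨i, j, hij⟩ := hF (fun j => decide (σ j = 1)) A u v hu hv
  exact ⟨i, j, fun h => hij (hsub h)⟩

/-- **Hash functions with `poly(s)` parities and monomials.** -/
theorem exists_hash_groups {s w' n : ℕ} (hs : 1 ≤ s) (hn : s ≤ n)
    (hw : 32 * ((8 * s + 2) * (8 * s + 2)) ^ 2 ≤ 2 ^ w') :
    ∃ (α E C : ℕ → ℕ → Bool), ∀ σ : ℕ → ℕ,
      RectFree {x : Fin n → Bool | ∀ j, j < n / s →
        hv (8 * ((8 * s + 2) * (8 * s + 2)) ^ 2 * s * w')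
          (8 * ((8 * s + 2) * (8 * s + 2)) ^ 2 * s * 2 ^ w') n α E C j (xb x) = σ j} (8 * s + 2) := by
  obtain ⟨α, g, hF⟩ := Hash.exists_hash_idx hs hn hw
  exact lift_hash (Hash.E0 _ w') α g hF

end Pool.Agent.KD
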