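import Pool.Agent.KD.Params
import Pool.Agent.KD.Hash

/-! The hash functions with polynomial parameters. -/

namespace Pool.Agent.KD

theorem hashPoly : HashPoly := by
  refine ⟨fun s => 8 * ((8 * s + 2) * (8 * s + 2)) ^ 2 * s,
    fun s => Nat.clog 2 (32 * ((8 * s + 2) * (8 * s + 2)) ^ 2), fun s => s, 22, ?_, ?_⟩
  · intro s hs
    have hT : ((8 * s + 2) * (8 * s + 2)) ^ 2 ≤ 2 ^ 12 * (s + 1) ^ 4 := by
      calc ((8 * s + 2) * (8 * s + 2)) ^ 2 ≤ ((8 * (s + 1)) * (8 * (s + 1))) ^ 2 := by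
            gcongr <;> omega
        _ = _ := by ring
    have h2 : 2 ≤ s + 1 := by omega
    have hbase : ∀ a b : ℕ, 2 ^ a * (s + 1) ^ b ≤ (s + 1) ^ (a + b) := by
      intro a b
      rw [pow_add]
      exact Nat.mul_le_mul_right _ (Nat.pow_le_pow_left h2 a)
    have hmono : ∀ a b : ℕ, a ≤ b → (s + 1) ^ a ≤ (s + 1) ^ b := fun a b hab =>
      Nat.pow_le_pow_right (by omega) hab
    have hTpos : 0 < ((8 * s + 2) * (8 * s + 2)) ^ 2 := by positivity
    refine ⟨?_, ?_, ?_, ?_, ?_⟩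
    · exact Nat.succ_le_of_lt (by positivity)
    · have : 1 < 32 * ((8 * s + 2) * (8 * s + 2)) ^ 2 := by omega
      exact Nat.clog_pos (by norm_num) this
    · calc 8 * ((8 * s + 2) * (8 * s + 2)) ^ 2 * s ≤ 8 * (2 ^ 12 * (s + 1) ^ 4) * (s + 1) := by
            gcongr; omega
        _ = 2 ^ 15 * (s + 1) ^ 5 := by ring
        _ ≤ (s + 1) ^ (15 + 5) := hbase _ _
        _ ≤ (s + 1) ^ 22 := hmono _ _ (by norm_num)
    · have h3 : 2 ^ Nat.clog 2 (32 * ((8 * s + 2) * (8 * s + 2)) ^ 2) ≤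
          2 * (32 * ((8 * s + 2) * (8 * s + 2)) ^ 2) := by
        have h4 : 1 < 32 * ((8 * s + 2) * (8 * s + 2)) ^ 2 := by omega
        have h5 := Nat.pow_pred_clog_lt_self (b := 2) (by norm_num) h4
        have h6 : 0 < Nat.clog 2 (32 * ((8 * s + 2) * (8 * s + 2)) ^ 2) :=
          Nat.clog_pos (by norm_num) h4
        have h7 : 2 ^ Nat.clog 2 (32 * ((8 * s + 2) * (8 * s + 2)) ^ 2) =
            2 * 2 ^ (Nat.clog 2 (32 * ((8 * s + 2) * (8 * s + 2)) ^ 2)).pred := by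
          rw [← pow_succ']
          congr 1
        rw [h7]
        exact Nat.mul_le_mul_left _ h5.le
      calc _ ≤ 2 * (32 * ((8 * s + 2) * (8 * s + 2)) ^ 2) := h3
        _ ≤ 2 * (32 * (2 ^ 12 * (s + 1) ^ 4)) := by gcongr
        _ = 2 ^ 18 * (s + 1) ^ 4 := by ring
        _ ≤ (s + 1) ^ (18 + 4) := hbase _ _
        _ = (s + 1) ^ 22 := by norm_num
    · calc s ≤ (s + 1) ^ 1 := by rw [pow_one]; omega
        _ ≤ (s + 1) ^ 22 := hmono _ _ (by norm_num)
  · intro s hs n hn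
    exact exists_hash_groups hs hn (Nat.le_pow_clog (by norm_num) _)

end Pool.Agent.KD
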