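import Pool.Agent.KD.Final
import Pool.Agent.KD.Core
import Pool.Agent.KD.Dbp
import Pool.Agent.KD.HashPoly

/-! The bounds for deterministic programs. -/

namespace Pool.Agent.KD

open Pool.Agent.SemRO Pool.Agent.KNL

theorem blockOK : BlockOK :=
  blockOK_of (fun hR hRB hB hn h => dbp_of_core hR hRB hB hn h) (fun k hk n hn => core_det k hk n hn)

/-- **The quantitative lower bound for deterministic programs.** -/
theorem quant : ∃ c : ℕ, ∀ k : ℕ, 2 ≤ k → ∀ N : ℕ, k ^ (c * k) ≤ N →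
    ∃ A : Finset (Fin N → Bool), A.Nonempty ∧
      (∀ y ∈ A, Pool.Agent.KQL.Lang (List.ofFn y)) ∧
      ∀ (V Γ : Type) [Fintype V] (P : SBP V Γ (Fin N)), Det P →
        (Fintype.card V : ℝ) ≤ (2 : ℝ) ^ ((N : ℝ) / (k : ℝ) ^ (c * k)) →
        (∀ y l, P.AccWalk y l → Pool.Agent.KQL.Lang (List.ofFn y)) →
        ∀ S ⊆ A, (∀ y ∈ S, ∃ l, P.AccWalk y l ∧ l.length ≤ k * N) →
          (S.card : ℝ) ≤ (2 : ℝ) ^ (-((N : ℝ) / (k : ℝ) ^ (c * k))) * A.card :=
  quant_of blockOK hashPoly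

end Pool.Agent.KD
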