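import Pool.Agent.KD.Defs
import Pool.Agent.KNL.Stack

/-! Big-step evaluation of deterministic programs with a stack, with a table of results. -/

namespace Pool.Agent.KD

open Pool.Agent.SemRO Pool.Agent.KNL Pool.Agent.PT44

variable {V Γ I : Type}

/-- `Ev P H G y u w l`: starting in the node `u` the walk on the input `y` reaches the end `w` of its
level (a node left only by pop edges, or by no edge), testing the variables in `l`; results listed in
the table `H` may be used without any test, and the other rules are allowed only in nodes of `G` -/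
inductive Ev (P : SBP V Γ I) (H : V → V → Prop) (G : V → Prop) (y : I → Bool) :
    V → V → List I → Prop
  | jump {u w : V} : H u w → Ev P H G y u w []
  | stop {u : V} : G u → (∀ v, ¬ P.free u v) → (∀ i b v, ¬ P.test u i b v) →
      (∀ a v, ¬ P.push u a v) → Ev P H G y u u []
  | free {u v w : V} {l : List I} : G u → P.free u v → Ev P H G y v w l → Ev P H G y u w l
  | test {u v w : V} {i : I} {l : List I} : G u → P.test u i (y i) v → Ev P H G y v w l →
      Ev P H G y u w (i :: l)
  | call {u v v' x w : V} {a : Γ} {l l' : List I} : G u → P.push u a v → Ev P H G y v v' l →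
      P.pop v' a x → Ev P H G y x w l' → Ev P H G y u w (l ++ l')

/-- the empty table -/
def noT : V → V → Prop := fun _ _ => False

/-- no guard -/
def allG : V → Prop := fun _ => True

/-- the guard that forces the use of the table -/
def gd (H : V → V → Prop) : V → Prop := fun u => ∀ w, ¬ H u w

variable {P : SBP V Γ I} {H H' : V → V → Prop} {G G' : V → Prop} {y y' : I → Bool}

lemma Ev.mono {u w : V} {l : List I} (h : Ev P H G y u w l) (hH : ∀ u w, H u w → H' u w)
    (hG : ∀ u, G u → G' u) : Ev P H' G' y u w l := by
  induction h with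
  | jump h => exact .jump (hH _ _ h)
  | stop g h1 h2 h3 => exact .stop (hG _ g) h1 h2 h3
  | free g h _ ih => exact .free (hG _ g) h ih
  | test g h _ ih => exact .test (hG _ g) h ih
  | call g h _ h' _ ih ih' => exact .call (hG _ g) h ih h' ih'

/-- locality -/
lemma Ev.local {u w : V} {l : List I} (h : Ev P H G y u w l) (hy : ∀ i ∈ l, y i = y' i) :
    Ev P H G y' u w l := by
  induction h with
  | jump h => exact .jump h
  | stop g h1 h2 h3 => exact .stop g h1 h2 h3
  | free g h _ ih => exact .free g h (ih hy)
  | @test u v w i l g h _ ih =>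
    refine .test g ?_ (ih fun j hj => hy j (List.mem_cons_of_mem _ hj))
    rw [← hy i (List.mem_cons_self ..)]
    exact h
  | call g h _ h' _ ih ih' =>
    exact .call g h (ih fun j hj => hy j (List.mem_append_left _ hj)) h'
      (ih' fun j hj => hy j (List.mem_append_right _ hj))

/-- determinism -/
lemma Ev.unique (hP : Det P) (hH : ∀ u w w', H u w → H u w' → w = w')
    (hG : ∀ u w, H u w → ¬ G u) {u w : V} {l : List I} (h : Ev P H G y u w l) :
    ∀ {w' : V} {l' : List I}, Ev P H G y u w' l' → w = w' ∧ l = l' := by
  induction h with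
  | jump h =>
    intro w' l' h'
    cases h' with
    | jump h' => exact ⟨hH _ _ _ h h', rfl⟩
    | stop g => exact absurd g (hG _ _ h)
    | free g => exact absurd g (hG _ _ h)
    | test g => exact absurd g (hG _ _ h)
    | call g => exact absurd g (hG _ _ h)
  | stop g h1 h2 h3 =>
    intro w' l' h'
    cases h' with
    | jump h' => exact absurd g (hG _ _ h')
    | stop => exact ⟨rfl, rfl⟩
    | free _ h' => exact absurd h' (h1 _)
    | test _ h' => exact absurd h' (h2 _ _ _)
    | call _ h' => exact absurd h' (h3 _ _)
  | free g h _ ih =>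
    intro w' l' h'
    cases h' with
    | jump h' => exact absurd g (hG _ _ h')
    | stop _ h1 => exact absurd h (h1 _)
    | free _ h' h'' =>
      obtain rfl := hP.free_free h h'
      exact ih h''
    | test _ h' => exact absurd h' (hP.free_test h)
    | call _ h' => exact absurd h' (hP.free_push h)
  | test g h _ ih =>
    intro w' l' h'
    cases h' with
    | jump h' => exact absurd g (hG _ _ h')
    | stop _ _ h2 => exact absurd h (h2 _ _ _)
    | free _ h' => exact absurd h (hP.free_test h')
    | test _ h' h'' =>
      obtain ⟨rfl, h3⟩ := hP.test_test h h'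
      obtain rfl := h3 rfl
      obtain ⟨h4, h5⟩ := ih h''
      exact ⟨h4, by rw [h5]⟩
    | call _ h' => exact absurd h' (hP.test_push h)
  | call g h _ h1 _ ih ih' =>
    intro w' l' h'
    cases h' with
    | jump h' => exact absurd g (hG _ _ h')
    | stop _ _ _ h3 => exact absurd h (h3 _ _)
    | free _ h' => exact absurd h (hP.free_push h')
    | test _ h' => exact absurd h (hP.test_push h')
    | call _ h' h2 h3 h4 =>
      obtain ⟨rfl, rfl⟩ := hP.push_push h h'
      obtain ⟨rfl, rfl⟩ := ih h2
      obtain rfl := hP.pop_pop h1 h3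
      obtain ⟨h5, rfl⟩ := ih' h4
      exact ⟨h5, rfl⟩

/-- evaluation without table -/
lemma Ev.unique0 (hP : Det P) {u w w' : V} {l l' : List I} (h : Ev P noT allG y u w l)
    (h' : Ev P noT allG y u w' l') : w = w' ∧ l = l' :=
  h.unique hP (fun _ _ _ h => h.elim) (fun _ _ h => h.elim) h'

/-- evaluation with a table of true results gives a true result -/
lemma Ev.sound {u w : V} {l : List I} (h : Ev P H G y u w l)
    (hT : ∀ u w, H u w → ∃ l, Ev P noT allG y u w l) : ∃ l', Ev P noT allG y u w l' := by
  induction h with
  | jump h => exact hT _ _ h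
  | stop g h1 h2 h3 => exact ⟨[], .stop trivial h1 h2 h3⟩
  | free g h _ ih =>
    obtain ⟨l', hl⟩ := ih
    exact ⟨_, .free trivial h hl⟩
  | test g h _ ih =>
    obtain ⟨l', hl⟩ := ih
    exact ⟨_, .test trivial h hl⟩
  | call g h _ h' _ ih ih' =>
    obtain ⟨l', hl⟩ := ih
    obtain ⟨l'', hl'⟩ := ih'
    exact ⟨_, .call trivial h hl h' hl'⟩

/-- evaluation with a table of true results can be changed into one that always uses the table -/
lemma Ev.force (hP : Det P) {u w : V} {l : List I} (h : Ev P H G y u w l)
    (hT : ∀ u w, H u w → ∃ l, Ev P noT allG y u w l) :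
    ∃ l', Ev P H (gd H) y u w l' ∧ l'.length ≤ l.length := by
  classical
  have key : ∀ {u w : V} {l : List I}, Ev P H G y u w l → (∃ w0, H u w0) →
      ∃ l', Ev P H (gd H) y u w l' ∧ l'.length ≤ l.length := by
    rintro u w l h ⟨w0, h0⟩
    obtain ⟨l1, h1⟩ := h.sound hT
    obtain ⟨l2, h2⟩ := hT _ _ h0
    obtain ⟨rfl, _⟩ := h1.unique0 hP h2
    exact ⟨[], .jump h0, Nat.zero_le _⟩
  have hgd : ∀ {u : V}, (¬ ∃ w0, H u w0) → gd H u := fun h w hw => h ⟨w, hw⟩
  induction h with
  | jump h => exact ⟨[], .jump h, le_rfl⟩
  | @stop u g h1 h2 h3 =>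
    by_cases hu : ∃ w0, H u w0
    · exact key (.stop g h1 h2 h3) hu
    · exact ⟨[], .stop (hgd hu) h1 h2 h3, le_rfl⟩
  | @free u v w l g h h0 ih =>
    by_cases hu : ∃ w0, H u w0
    · exact key (.free g h h0) hu
    · obtain ⟨l', hl, hlen⟩ := ih
      exact ⟨_, .free (hgd hu) h hl, hlen⟩
  | @test u v w i l g h h0 ih =>
    by_cases hu : ∃ w0, H u w0
    · exact key (.test g h h0) hu
    · obtain ⟨l', hl, hlen⟩ := ih
      exact ⟨_, .test (hgd hu) h hl, by simpa using hlen⟩
  | @call u v v' x w a l l' g h h0 h' h0' ih ih' =>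
    by_cases hu : ∃ w0, H u w0
    · exact key (.call g h h0 h' h0') hu
    · obtain ⟨l1, hl1, hlen1⟩ := ih
      obtain ⟨l2, hl2, hlen2⟩ := ih'
      refine ⟨_, .call (hgd hu) h hl1 h' hl2, ?_⟩
      rw [List.length_append, List.length_append]
      omega

/-! ### Evaluation and accepting walks -/

lemma Ev.walk {u w : V} {l : List I} (h : Ev P noT allG y u w l) :
    ∀ σ : List Γ, P.Walk y u σ w σ l := by
  induction h with
  | jump h => exact h.elim
  | stop => exact fun σ => .nil _ _
  | free _ h _ ih => exact fun σ => .free h (ih σ)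
  | test _ h _ ih => exact fun σ => .test h (ih σ)
  | call _ h _ h' _ ih ih' =>
    exact fun σ => .push h ((ih _).trans (.pop h' (ih' σ)))

/-- a walk that removes the stack and ends in the accepting node -/
def DownE (P : SBP V Γ I) (y : I → Bool) : V → List Γ → List I → Prop
  | u, [], l => Ev P noT allG y u P.acc l
  | u, a :: s, l => ∃ v v' l1 l2, Ev P noT allG y u v l1 ∧ P.pop v a v' ∧ DownE P y v' s l2 ∧
      l = l1 ++ l2

lemma downE_of_walk (hP : Det P) {u w : V} {s t : List Γ} {l : List I}
    (h : P.Walk y u s w t l) (hw : w = P.acc) (ht : t = []) : DownE P y u s l := by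
  induction h with
  | nil u s =>
    subst hw ht
    exact .stop trivial (fun _ => hP.acc_free) (fun _ _ _ => hP.acc_test) (fun _ _ => hP.acc_push)
  | @free u v w s t l h _ ih =>
    have := ih hw ht
    cases s with
    | nil => exact .free trivial h this
    | cons a s =>
      obtain ⟨v1, v2, l1, l2, h1, h2, h3, rfl⟩ := this
      exact ⟨v1, v2, l1, l2, .free trivial h h1, h2, h3, rfl⟩
  | @test u v w s t i l h _ ih =>
    have := ih hw ht
    cases s with
    | nil => exact .test trivial h this
    | cons a s =>
      obtain ⟨v1, v2, l1, l2, h1, h2, h3, rfl⟩ := this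
      exact ⟨v1, v2, i :: l1, l2, .test trivial h h1, h2, h3, rfl⟩
  | @push u v w a s t l h _ ih =>
    obtain ⟨v1, v2, l1, l2, h1, h2, h3, rfl⟩ := ih hw ht
    cases s with
    | nil => exact .call trivial h h1 h2 h3
    | cons b s =>
      obtain ⟨v3, v4, l3, l4, h4, h5, h6, rfl⟩ := h3
      exact ⟨v3, v4, l1 ++ l3, l4, .call trivial h h1 h2 h4, h5, h6, by rw [List.append_assoc]⟩
  | @pop u v w a s t l h _ ih =>
    exact ⟨u, v, [], l, .stop trivial (fun _ h' => hP.free_pop h' h)
      (fun _ _ _ h' => hP.test_pop h' h) (fun _ _ h' => hP.push_pop h' h), h, ih hw ht, rfl⟩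

lemma ev_of_accWalk (hP : Det P) {l : List I} (h : P.AccWalk y l) :
    Ev P noT allG y P.src P.acc l := downE_of_walk hP h rfl rfl

lemma accWalk_of_ev {l : List I} (h : Ev P noT allG y P.src P.acc l) : P.AccWalk y l := h.walk []

/-! ### Cutting an evaluation -/

/-- the table given by a list of pieces -/
def tab (ps : List ((V × V) × List I)) : V → V → Prop := fun u w => (u, w) ∈ ps.map Prod.fst

/-- every result of the list can be evaluated using the later entries -/
def ChainE (P : SBP V Γ I) (y : I → Bool) : List ((V × V) × List I) → Prop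
  | [] => True
  | p :: ps => ChainE P y ps ∧ Ev P (tab ps) allG y p.1.1 p.1.2 p.2

lemma tab_left {ps ps' : List ((V × V) × List I)} : ∀ u w, tab ps u w → tab (ps ++ ps') u w := by
  intro u w h
  unfold tab at h ⊢
  rw [List.map_append]
  exact List.mem_append_left _ h

lemma tab_right {ps ps' : List ((V × V) × List I)} : ∀ u w, tab ps' u w → tab (ps ++ ps') u w := by
  intro u w h
  unfold tab at h ⊢
  rw [List.map_append]
  exact List.mem_append_right _ h

lemma ChainE.append {ps ps' : List ((V × V) × List I)} (h : ChainE P y ps) (h' : ChainE P y ps') :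
    ChainE P y (ps ++ ps') := by
  induction ps with
  | nil => exact h'
  | cons p ps ih => exact ⟨ih h.1, h.2.mono tab_left fun _ h => h⟩

/-- total number of tests of a list of pieces -/
def totE (ps : List ((V × V) × List I)) : ℕ := (ps.map fun p => p.2.length).sum

lemma totE_append (ps ps' : List ((V × V) × List I)) : totE (ps ++ ps') = totE ps + totE ps' := by
  simp [totE]

lemma totE_cons (p : (V × V) × List I) (ps : List ((V × V) × List I)) :
    totE (p :: ps) = p.2.length + totE ps := by
  simp [totE]

/-- cutting an evaluation -/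
theorem Ev.cut (s : ℕ) (hs : 1 ≤ s) {u w : V} {l : List I} (h : Ev P noT allG y u w l) :
    ∃ (ps : List ((V × V) × List I)) (r : List I), ChainE P y ps ∧ Ev P (tab ps) allG y u w r ∧
      (∀ p ∈ ps, p.2.length ≤ s) ∧ r.length ≤ s ∧ totE ps + r.length ≤ l.length ∧
      s * ps.length ≤ 2 * totE ps := by
  induction h with
  | jump h => exact h.elim
  | stop _ h1 h2 h3 =>
    exact ⟨[], [], trivial, .stop trivial h1 h2 h3, by simp, by simp, by simp [totE], by simp [totE]⟩
  | free _ h _ ih =>
    obtain ⟨ps, r, h1, h2, h3⟩ := ih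
    exact ⟨ps, r, h1, .free trivial h h2, h3⟩
  | @test u v w i l _ h _ ih =>
    obtain ⟨ps, r, h1, h2, h3, h4, h5, h6⟩ := ih
    by_cases hlen : r.length + 1 ≤ s
    · refine ⟨ps, i :: r, h1, .test trivial h h2, h3, hlen, ?_, h6⟩
      rw [List.length_cons, List.length_cons]; omega
    · refine ⟨((v, w), r) :: ps, [i], ⟨h1, h2⟩, .test trivial h (.jump ?_), ?_, hs, ?_, ?_⟩
      · simp [tab]
      · intro p hp
        rcases List.mem_cons.1 hp with rfl | hp
        · exact h4
        · exact h3 p hp
      · rw [totE_cons, List.length_cons, List.length_cons, List.length_nil]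
        dsimp only
        omega
      · rw [totE_cons, List.length_cons, Nat.mul_add]
        dsimp only
        omega
  | @call u v v' x w a l l' _ h _ h' _ ih ih' =>
    obtain ⟨ps, r, h1, h2, h3, h4, h5, h6⟩ := ih
    obtain ⟨ps', r', h1', h2', h3', h4', h5', h6'⟩ := ih'
    by_cases hlen : r.length + r'.length ≤ s
    · refine ⟨ps' ++ ps, r ++ r', h1'.append h1, ?_, ?_, ?_, ?_, ?_⟩
      · exact .call trivial h (h2.mono tab_right fun _ h => h) h' (h2'.mono tab_left fun _ h => h)
      · intro p hp
        rcases List.mem_append.1 hp with hp | hp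
        · exact h3' p hp
        · exact h3 p hp
      · simpa using hlen
      · rw [totE_append, List.length_append, List.length_append]; omega
      · rw [totE_append, List.length_append, Nat.mul_add]; omega
    · refine ⟨((x, w), r') :: (ps' ++ (((v, v'), r) :: ps)), [],
        ⟨h1'.append ⟨h1, h2⟩, h2'.mono tab_left fun _ h => h⟩, ?_, ?_, by simp, ?_, ?_⟩
      · exact Ev.call (l := []) (l' := []) trivial h (.jump (by simp [tab])) h'
          (.jump (by simp [tab]))
      · intro p hp
        rcases List.mem_cons.1 hp with rfl | hp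
        · exact h4'
        rcases List.mem_append.1 hp with hp | hp
        · exact h3' p hp
        rcases List.mem_cons.1 hp with rfl | hp
        · exact h4
        · exact h3 p hp
      · rw [totE_cons, totE_append, totE_cons, List.length_append, List.length_nil]
        dsimp only
        omega
      · rw [totE_cons, totE_append, totE_cons, List.length_cons, List.length_append,
          List.length_cons]
        dsimp only
        have : s * (ps'.length + (ps.length + 1) + 1) = s * ps'.length + s * ps.length + 2 * s := by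
          ring
        rw [this]
        omega

/-- a chain of exactly `K` pieces beginning with the goal -/
theorem Ev.cut_exact (s K : ℕ) (hs : 1 ≤ s) {u w : V} {l : List I} (h : Ev P noT allG y u w l)
    (hK : 2 * l.length + s ≤ s * K) :
    ∃ ps : List ((V × V) × List I), ps.length = K ∧ ChainE P y ps ∧ (∀ p ∈ ps, p.2.length ≤ s) ∧
      ∀ d : (V × V) × List I, (ps.getD 0 d).1 = (u, w) := by
  obtain ⟨ps, r, h1, h2, h3, h4, h5, h6⟩ := h.cut s hs
  have hlen : ps.length + 1 ≤ K := by
    have h7 : s * (ps.length + 1) ≤ s * K := by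
      rw [Nat.mul_add]; omega
    exact Nat.le_of_mul_le_mul_left h7 (by omega)
  obtain ⟨j, hj⟩ := Nat.exists_eq_add_of_le hlen
  have hpad : ∀ j : ℕ, ChainE P y (List.replicate j ((u, w), []) ++ (((u, w), r) :: ps)) := by
    intro j
    induction j with
    | zero => exact ⟨h1, h2⟩
    | succ j ih =>
      refine ⟨ih, .jump ?_⟩
      simp [tab]
  refine ⟨List.replicate j ((u, w), []) ++ (((u, w), r) :: ps), ?_, hpad j, ?_, ?_⟩
  · rw [List.length_append, List.length_replicate, List.length_cons]; omega
  · intro p hp
    rcases List.mem_append.1 hp with hp | hp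
    · rw [List.eq_of_mem_replicate hp]; simp
    · rcases List.mem_cons.1 hp with rfl | hp
      · exact h4
      · exact h3 p hp
  · intro d
    cases j with
    | zero => simp
    | succ j => simp [List.replicate_succ]

lemma chainE_get : ∀ {ps : List ((V × V) × List I)}, ChainE P y ps → ∀ (i : ℕ) (hi : i < ps.length),
    Ev P (fun u w => ∃ (j : ℕ) (hj : j < ps.length), i < j ∧ ps[j].1 = (u, w)) allG y
      (ps[i].1.1) (ps[i].1.2) (ps[i].2) := by
  intro ps
  induction ps with
  | nil => intro _ i hi; exact absurd hi (by simp)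
  | cons p ps ih =>
    intro h i hi
    cases i with
    | zero =>
      refine h.2.mono (fun u w hq => ?_) fun _ h => h
      obtain ⟨x, hx, hxq⟩ := List.mem_map.1 hq
      obtain ⟨j, hj, rfl⟩ := List.mem_iff_getElem.1 hx
      exact ⟨j + 1, by simpa using hj, by omega, by simpa using hxq⟩
    | succ i =>
      have hi' : i < ps.length := by simpa using hi
      refine (ih h.1 i hi').mono (fun u w hq => ?_) fun _ h => h
      obtain ⟨j, hj, hij, hq⟩ := hq
      exact ⟨j + 1, by simpa using hj, by omega, by simpa using hq⟩

end Pool.Agent.KD
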