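import Pool.Agent.KD.Defs
import Pool.Agent.KNL.LowerS

/-! Fixing variables of a deterministic program. -/

namespace Pool.Agent.KD

open Pool.Agent.SemRO Pool.Agent.KNL

variable {V Γ : Type} {N n : ℕ}

/-- the restriction of a deterministic program is deterministic -/
theorem Det.sres {P : SBP V Γ (Fin N)} (h : Det P) (o : Fin N → Option (Fin n))
    (base : Fin N → Bool) : Det (sres P o base) where
  free_free := by
    rintro u v v' (h1 | ⟨i, hi, h1⟩) (h2 | ⟨i', hi', h2⟩)
    · exact h.free_free h1 h2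
    · exact absurd h2 (h.free_test h1)
    · exact absurd h1 (h.free_test h2)
    · obtain ⟨e, e'⟩ := h.test_test h1 h2
      exact e' (by rw [e])
  free_test := by
    rintro u v i b v' (h1 | ⟨i0, hi0, h1⟩) ⟨i1, hi1, h2⟩
    · exact h.free_test h1 h2
    · obtain ⟨e, _⟩ := h.test_test h1 h2
      rw [e, hi1] at hi0
      exact absurd hi0 (by simp)
  free_push := by
    rintro u v a v' (h1 | ⟨i0, _, h1⟩) h2
    · exact h.free_push h1 h2
    · exact h.test_push h1 h2
  free_pop := by
    rintro u v a v' (h1 | ⟨i0, _, h1⟩) h2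
    · exact h.free_pop h1 h2
    · exact h.test_pop h1 h2
  test_test := by
    rintro u i b v i' b' v' ⟨j, hj, h1⟩ ⟨j', hj', h2⟩
    obtain ⟨e, e'⟩ := h.test_test h1 h2
    refine ⟨?_, e'⟩
    rw [e, hj'] at hj
    exact (Option.some.inj hj).symm
  test_push := by
    rintro u i b v a v' ⟨j, _, h1⟩ h2
    exact h.test_push h1 h2
  test_pop := by
    rintro u i b v a v' ⟨j, _, h1⟩ h2
    exact h.test_pop h1 h2
  push_push := fun h1 h2 => h.push_push h1 h2
  push_pop := fun h1 h2 => h.push_pop h1 h2
  pop_pop := fun h1 h2 => h.pop_pop h1 h2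
  acc_free := by
    rintro v (h1 | ⟨i, _, h1⟩)
    · exact h.acc_free h1
    · exact h.acc_test h1
  acc_test := by
    rintro i b v ⟨j, _, h1⟩
    exact h.acc_test h1
  acc_push := fun h1 => h.acc_push h1
  acc_pop := fun h1 => h.acc_pop h1

end Pool.Agent.KD
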