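import Mathlib

/-!
# Compactness for finite templates in permutation models: definitions and the compactness lemma

A permutation model of ZFA is given by a group `G` and a normal filter `F` of subgroups of `G`.  Its sets (with full
support) are the sets `X` with an action of `G` all of whose point stabilizers belong to `F`; a function from `X` to a
finite set lies in the model if and only if it is invariant under some `H ∈ F`.
-/

set_option autoImplicit false

namespace Pool.Agent.KD

universe u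

/-- `K_D` in the permutation model given by the set `F` of subgroups of `G`: for every set `X` with an action of `G`
all of whose stabilizers are in `F` and with relations invariant under `G`, if every finite substructure of `X` has a
homomorphism to the template, then there is a homomorphism of `X` to the template invariant under some `H ∈ F`. -/
def K {G : Type u} [Group G] (F : Set (Subgroup G)) {ι : Type} {ar : ι → ℕ} {D : Type}
    (RD : ∀ i, Set (Fin (ar i) → D)) : Prop :=
  ∀ (X : Type u) [MulAction G X] (RX : ∀ i, Set (Fin (ar i) → X)),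
    (∀ x : X, MulAction.stabilizer G x ∈ F) →
    (∀ (g : G) (i : ι), ∀ t ∈ RX i, (fun a => g • t a) ∈ RX i) →
    (∀ S : Finset X, ∃ f : X → D, ∀ (i : ι), ∀ t ∈ RX i, (∀ a, t a ∈ S) → (fun a => f (t a)) ∈ RD i) →
    ∃ H ∈ F, ∃ f : X → D, (∀ (i : ι), ∀ t ∈ RX i, (fun a => f (t a)) ∈ RD i) ∧
      ∀ h ∈ H, ∀ x : X, f (h • x) = f x

/-- The template has a cyclic polymorphism of arity `n`. -/
def Cyclic (n : ℕ) {ι : Type} {ar : ι → ℕ} {D : Type} (RD : ∀ i, Set (Fin (ar i) → D)) : Prop :=
  ∃ φ : (Fin n → D) → D,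
    (∀ (i : ι) (t : Fin n → Fin (ar i) → D), (∀ j, t j ∈ RD i) → (fun a => φ (fun j => t j a)) ∈ RD i) ∧
      ∀ x : Fin n → D, φ (fun j => x (finRotate n j)) = φ x

/-- The condition `(*)`: a cyclic polymorphism of arity `p` for every prime `p > |D|`. -/
def Star {ι : Type} {ar : ι → ℕ} {D : Type} (RD : ∀ i, Set (Fin (ar i) → D)) : Prop :=
  ∀ p : ℕ, p.Prime → Nat.card D < p → Cyclic p RD

/-- Compactness: a structure all of whose finite substructures have homomorphisms to a finite template has one. -/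
theorem exists_hom {ι : Type} {ar : ι → ℕ} {D : Type} [Finite D] (RD : ∀ i, Set (Fin (ar i) → D))
    {X : Type u} (RX : ∀ i, Set (Fin (ar i) → X))
    (hfin : ∀ S : Finset X, ∃ f : X → D, ∀ (i : ι), ∀ t ∈ RX i, (∀ a, t a ∈ S) → (fun a => f (t a)) ∈ RD i)
    {κ : Type*} (C : κ → Set (X → D)) (hC : ∀ k, ∃ S : Finset X, ∀ f f' : X → D, (∀ x ∈ S, f x = f' x) →
      f ∈ C k → f' ∈ C k)
    (hav : ∀ (T : Finset κ) (f : X → D), (∀ (i : ι), ∀ t ∈ RX i, (fun a => f (t a)) ∈ RD i) →
      ∃ f' : X → D, (∀ (i : ι), ∀ t ∈ RX i, (fun a => f' (t a)) ∈ RD i) ∧ ∀ k ∈ T, f' ∈ C k) :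
    ∃ f : X → D, (∀ (i : ι), ∀ t ∈ RX i, (fun a => f (t a)) ∈ RD i) ∧ ∀ k, f ∈ C k := by
  classical
  let _ : TopologicalSpace D := ⊥
  have _ : DiscreteTopology D := ⟨rfl⟩
  -- sets depending on finitely many coordinates are closed
  have hcl : ∀ A : Set (X → D), (∃ S : Finset X, ∀ f f' : X → D, (∀ x ∈ S, f x = f' x) → f ∈ A → f' ∈ A) →
      IsClosed A := by
    rintro A ⟨S, hS⟩
    rw [← isOpen_compl_iff, isOpen_pi_iff]
    intro f hf
    refine ⟨S, fun x => {f x}, fun x _ => ⟨isOpen_discrete _, rfl⟩, fun f' hf' hA => hf ?_⟩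
    refine hS f' f (fun x hx => ?_) hA
    exact hf' x hx
  have hloc : ∀ (i : ι) (t : Fin (ar i) → X), IsClosed {f : X → D | (fun a => f (t a)) ∈ RD i} := by
    intro i t
    refine hcl _ ⟨Finset.univ.image t, fun f f' h hf => ?_⟩
    have e : (fun a => f' (t a)) = fun a => f (t a) := by
      funext a
      exact (h _ (Finset.mem_image_of_mem _ (Finset.mem_univ a))).symm
    show (fun a => f' (t a)) ∈ RD i
    rw [e]
    exact hf
  have hne : ∃ f : X → D, ∀ (i : ι), ∀ t ∈ RX i, (fun a => f (t a)) ∈ RD i := by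
    have h := CompactSpace.iInter_nonempty
      (t := fun q : (Σ i : ι, {t : Fin (ar i) → X // t ∈ RX i}) => {f : X → D | (fun a => f (q.2.1 a)) ∈ RD q.1})
      (fun q => hloc q.1 q.2.1) ?_
    · obtain ⟨f, hf⟩ := h
      rw [Set.mem_iInter] at hf
      exact ⟨f, fun i t ht => hf ⟨i, t, ht⟩⟩
    · intro T
      obtain ⟨f, hf⟩ := hfin (T.biUnion fun q => Finset.univ.image q.2.1)
      refine ⟨f, ?_⟩
      rw [Set.mem_iInter₂]
      intro q hq
      refine hf q.1 q.2.1 q.2.2 fun a => ?_
      exact Finset.mem_biUnion.2 ⟨q, hq, Finset.mem_image_of_mem _ (Finset.mem_univ a)⟩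
  obtain ⟨f0, hf0⟩ := hne
  have h := CompactSpace.iInter_nonempty
    (t := fun k : κ => {f : X → D | ∀ (i : ι), ∀ t ∈ RX i, (fun a => f (t a)) ∈ RD i} ∩ C k) ?_ ?_
  · by_cases hκ : Nonempty κ
    · obtain ⟨f, hf⟩ := h
      rw [Set.mem_iInter] at hf
      exact ⟨f, (hf hκ.some).1, fun k => (hf k).2⟩
    · exact ⟨f0, hf0, fun k => absurd ⟨k⟩ hκ⟩
  · intro k
    refine IsClosed.inter ?_ (hcl _ (hC k))
    have e : {f : X → D | ∀ (i : ι), ∀ t ∈ RX i, (fun a => f (t a)) ∈ RD i} =
        ⋂ (i : ι) (t : Fin (ar i) → X) (_ : t ∈ RX i), {f : X → D | (fun a => f (t a)) ∈ RD i} := by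
      ext f
      simp only [Set.mem_ofPred_eq, Set.mem_iInter]
    rw [e]
    exact isClosed_iInter fun i => isClosed_iInter fun t => isClosed_iInter fun _ => hloc i t
  · intro T
    obtain ⟨f, hf, hT⟩ := hav T f0 hf0
    refine ⟨f, ?_⟩
    rw [Set.mem_iInter₂]
    exact fun k hk => ⟨hf, hT k hk⟩

end Pool.Agent.KD
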