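import Pool.Agent.KD.Defs

/-! Counting lemmas for the deterministic core theorem. -/

namespace Pool.Agent.KD

open Finset Pool.Agent.SemRO

variable {n : ℕ}

/-- the points that agree with `z` off `T` -/
def cube (T : Finset (Fin n)) (z : Fin n → Bool) : Finset (Fin n → Bool) :=
  Fintype.piFinset (fun i => if i ∈ T then (univ : Finset Bool) else {z i})

lemma mem_cube {T : Finset (Fin n)} {z y : Fin n → Bool} : y ∈ cube T z ↔ ∀ i, i ∉ T → y i = z i := by
  unfold cube
  rw [Fintype.mem_piFinset]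
  refine forall_congr' fun i => ?_
  by_cases h : i ∈ T
  · simp [h]
  · simp [h]

lemma card_cube (T : Finset (Fin n)) (z : Fin n → Bool) : (cube T z).card = 2 ^ T.card := by
  unfold cube
  rw [Fintype.card_piFinset]
  have : ∀ i : Fin n, (if i ∈ T then (univ : Finset Bool) else {z i}).card = if i ∈ T then 2 else 1 := by
    intro i
    split_ifs <;> simp
  rw [Finset.prod_congr rfl fun i _ => this i, Finset.prod_ite]
  simp

/-- points in small classes modulo `T` are few -/
lemma small_classes [DecidableEq (Fin n → Bool)] (T : Finset (Fin n)) (G P Y : Finset (Fin n → Bool)) (ρ : ℕ) (hPG : P ⊆ G)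
    (hP : ∀ z ∈ P, (G.filter (fun x => x ∈ cube T z)).card ≤ ρ)
    (hY : ∀ z ∈ P, cube T z ⊆ Y) : P.card * 2 ^ T.card ≤ ρ * Y.card := by
  calc P.card * 2 ^ T.card = ∑ z ∈ P, (cube T z).card := by
        rw [Finset.sum_congr rfl fun z _ => card_cube T z, Finset.sum_const, smul_eq_mul]
    _ = ∑ z ∈ P, ∑ y ∈ Y, (if y ∈ cube T z then 1 else 0) := by
        refine Finset.sum_congr rfl fun z hz => ?_
        rw [← Finset.card_filter]
        congr 1
        ext y
        rw [Finset.mem_filter]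
        exact ⟨fun h => ⟨hY z hz h, h⟩, fun h => h.2⟩
    _ = ∑ y ∈ Y, ∑ z ∈ P, (if y ∈ cube T z then 1 else 0) := Finset.sum_comm
    _ ≤ ∑ _y ∈ Y, ρ := by
        refine Finset.sum_le_sum fun y _ => ?_
        rw [← Finset.card_filter]
        rcases (P.filter fun z => y ∈ cube T z).eq_empty_or_nonempty with h | ⟨z0, hz0⟩
        · rw [h, Finset.card_empty]
          exact Nat.zero_le _
        · obtain ⟨h1, h2⟩ := Finset.mem_filter.1 hz0
          refine le_trans (Finset.card_le_card fun z hz => ?_) (hP z0 h1)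
          obtain ⟨h3, h4⟩ := Finset.mem_filter.1 hz
          refine Finset.mem_filter.2 ⟨hPG h3, mem_cube.2 fun i hi => ?_⟩
          rw [← mem_cube.1 h4 i hi, mem_cube.1 h2 i hi]
    _ = ρ * Y.card := by rw [Finset.sum_const, smul_eq_mul, mul_comm]

/-- a subset with `m` elements of a set with at least `m` elements, chosen once for every set -/
noncomputable def sel (m : ℕ) (K : Finset (Fin n)) : Finset (Fin n) :=
  if h : m ≤ K.card then (Finset.exists_subset_card_eq h).choose else ∅

lemma sel_subset (m : ℕ) (K : Finset (Fin n)) : sel m K ⊆ K := by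
  unfold sel
  split_ifs with h
  · exact (Finset.exists_subset_card_eq h).choose_spec.1
  · exact Finset.empty_subset _

lemma card_sel {m : ℕ} {K : Finset (Fin n)} (h : m ≤ K.card) : (sel m K).card = m := by
  unfold sel
  rw [dif_pos h]
  exact (Finset.exists_subset_card_eq h).choose_spec.2

/-- quotients of binomial coefficients, first form -/
lemma choose_le_pow_mul {N m t Λ : ℕ} (h : N ≤ Λ * (m - t)) : N.choose t ≤ Λ ^ t * m.choose t := by
  have key : ∀ s ≤ t, N.choose s ≤ Λ ^ s * m.choose s := by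
    intro s
    induction s with
    | zero => intro _; simp
    | succ s ih =>
      intro hs
      have h1 := ih (by omega)
      have h2 : N - s ≤ Λ * (m - s) := by
        have h3 : m - t ≤ m - s := by omega
        calc N - s ≤ N := Nat.sub_le _ _
          _ ≤ Λ * (m - t) := h
          _ ≤ Λ * (m - s) := Nat.mul_le_mul_left _ h3
      have h4 : N.choose (s + 1) * (s + 1) ≤ (Λ ^ (s + 1) * m.choose (s + 1)) * (s + 1) := by
        calc N.choose (s + 1) * (s + 1) = N.choose s * (N - s) := Nat.choose_succ_right_eq N s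
          _ ≤ (Λ ^ s * m.choose s) * (Λ * (m - s)) := Nat.mul_le_mul h1 h2
          _ = Λ ^ (s + 1) * (m.choose s * (m - s)) := by ring
          _ = Λ ^ (s + 1) * (m.choose (s + 1) * (s + 1)) := by rw [Nat.choose_succ_right_eq m s]
          _ = _ := by ring
      exact Nat.le_of_mul_le_mul_right h4 (Nat.succ_pos s)
  exact key t le_rfl

/-- quotients of binomial coefficients, second form -/
lemma choose_sub_ge {M a t q : ℕ} (hq : 1 ≤ q) (h : 2 * q * a + t ≤ M) :
    (1 - 1 / (2 * q : ℝ)) ^ t * (M.choose t : ℝ) ≤ ((M - a).choose t : ℝ) := by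
  have hq0 : (0 : ℝ) < q := by exact_mod_cast hq
  have hd0 : (0 : ℝ) ≤ 1 - 1 / (2 * q : ℝ) := by
    rw [sub_nonneg, div_le_one (by positivity)]
    have : (1 : ℝ) ≤ q := by exact_mod_cast hq
    linarith
  have key : ∀ s ≤ t, (1 - 1 / (2 * q : ℝ)) ^ s * (M.choose s : ℝ) ≤ ((M - a).choose s : ℝ) := by
    intro s
    induction s with
    | zero => intro _; simp
    | succ s ih =>
      intro hs
      have h1 := ih (by omega)
      have haM : a + s ≤ M := by
        have : a ≤ 2 * q * a := Nat.le_mul_of_pos_left _ (by omega)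
        omega
      have h2 : (1 - 1 / (2 * q : ℝ)) * ((M : ℝ) - s) ≤ (M : ℝ) - a - s := by
        have h3 : (2 * q * a + s : ℝ) ≤ M := by
          have : 2 * q * a + s ≤ M := by omega
          exact_mod_cast this
        have h4 : (a : ℝ) ≤ 1 / (2 * q : ℝ) * ((M : ℝ) - s) := by
          rw [one_div, ← div_eq_inv_mul, le_div_iff₀ (by positivity)]
          linarith
        linarith
      have e1 : ((M.choose (s + 1) : ℕ) : ℝ) * (s + 1) = (M.choose s : ℝ) * ((M : ℝ) - s) := by
        have := Nat.choose_succ_right_eq M s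
        have h5 : ((M - s : ℕ) : ℝ) = (M : ℝ) - s := by rw [Nat.cast_sub (by omega)]
        rw [← h5]
        exact_mod_cast this
      have e2 : (((M - a).choose (s + 1) : ℕ) : ℝ) * (s + 1) = ((M - a).choose s : ℝ) * ((M : ℝ) - a - s) := by
        have := Nat.choose_succ_right_eq (M - a) s
        have h5 : ((M - a - s : ℕ) : ℝ) = (M : ℝ) - a - s := by
          rw [Nat.cast_sub (by omega), Nat.cast_sub (by omega)]
        rw [← h5]
        exact_mod_cast this
      have hs1 : (0 : ℝ) < s + 1 := by positivity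
      refine le_of_mul_le_mul_right ?_ hs1
      rw [e2, mul_assoc, e1]
      have hMs : (0 : ℝ) ≤ (M : ℝ) - s := by
        have : ((a + s : ℕ) : ℝ) ≤ M := by exact_mod_cast haM
        push_cast at this
        have ha0 : (0 : ℝ) ≤ a := Nat.cast_nonneg _
        linarith
      calc (1 - 1 / (2 * q : ℝ)) ^ (s + 1) * ((M.choose s : ℝ) * ((M : ℝ) - s))
          = ((1 - 1 / (2 * q : ℝ)) ^ s * (M.choose s : ℝ)) * ((1 - 1 / (2 * q : ℝ)) * ((M : ℝ) - s)) := by ring
        _ ≤ ((M - a).choose s : ℝ) * ((M : ℝ) - a - s) :=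
            mul_le_mul h1 h2 (mul_nonneg hd0 hMs) (Nat.cast_nonneg _)
  exact key t le_rfl

lemma half_pow {q e : ℕ} (hq : 1 ≤ q) : (1 / 2 : ℝ) ^ e ≤ (1 - 1 / (2 * q : ℝ)) ^ (e * q) := by
  have hq0 : (0 : ℝ) < q := by exact_mod_cast hq
  rw [mul_comm e q, pow_mul]
  refine pow_le_pow_left₀ (by norm_num) ?_ e
  have h := one_add_mul_le_pow (a := -(1 / (2 * q : ℝ))) (by
    have h1 : 1 / (2 * q : ℝ) ≤ 1 := by
      rw [div_le_one (by positivity)]
      have : (1 : ℝ) ≤ q := by exact_mod_cast hq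
      linarith
    linarith) q
  have e1 : (1 : ℝ) + q * -(1 / (2 * q : ℝ)) = 1 / 2 := by field_simp; norm_num
  rw [e1] at h
  calc (1 / 2 : ℝ) ≤ (1 + -(1 / (2 * q : ℝ))) ^ q := h
    _ = _ := by rw [← sub_eq_add_neg]

/-- a random set avoids a sparse set -/
lemma choose_sparse {M a t q e : ℕ} (hq : 1 ≤ q) (h : 2 * q * a + t ≤ M) (ht : t ≤ e * q) :
    M.choose t ≤ 2 ^ e * (M - a).choose t := by
  have h1 := choose_sub_ge hq h
  have h2 := half_pow (e := e) hq
  have hd1 : (1 - 1 / (2 * q : ℝ)) ≤ 1 := by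
    have : (0 : ℝ) ≤ 1 / (2 * q : ℝ) := by positivity
    linarith
  have hd0 : (0 : ℝ) ≤ 1 - 1 / (2 * q : ℝ) := by
    have hq0 : (0 : ℝ) < q := by exact_mod_cast hq
    rw [sub_nonneg, div_le_one (by positivity)]
    have : (1 : ℝ) ≤ q := by exact_mod_cast hq
    linarith
  have h3 : (1 / 2 : ℝ) ^ e ≤ (1 - 1 / (2 * q : ℝ)) ^ t :=
    h2.trans (pow_le_pow_of_le_one hd0 hd1 ht)
  have h4 : (1 / 2 : ℝ) ^ e * (M.choose t : ℝ) ≤ ((M - a).choose t : ℝ) :=
    (mul_le_mul_of_nonneg_right h3 (Nat.cast_nonneg _)).trans h1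
  have h5 : (M.choose t : ℝ) ≤ 2 ^ e * ((M - a).choose t : ℝ) := by
    have h6 : (2 : ℝ) ^ e * ((1 / 2) ^ e * (M.choose t : ℝ)) = M.choose t := by
      rw [← mul_assoc, ← mul_pow]; norm_num
    calc (M.choose t : ℝ) = 2 ^ e * ((1 / 2) ^ e * (M.choose t : ℝ)) := h6.symm
      _ ≤ _ := mul_le_mul_of_nonneg_left h4 (by positivity)
  exact_mod_cast h5

end Pool.Agent.KD
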