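import Pool.Agent.KNL.Model
import Pool.Agent.SemRO.Core

/-! Deterministic programs with a stack; the statements of the core theorem and of the bound for one block. -/

namespace Pool.Agent.KD

open Pool.Agent.SemRO Pool.Agent.KNL

/-- Deterministic programs: from every node leave either one unlabelled edge, or edges that test one
variable (at most one for each value), or one push edge, or pop edges (at most one for each symbol);
no edge leaves the accepting node. -/
structure Det {V Γ I : Type} (P : SBP V Γ I) : Prop where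
  free_free : ∀ {u v v'}, P.free u v → P.free u v' → v = v'
  free_test : ∀ {u v i b v'}, P.free u v → ¬ P.test u i b v'
  free_push : ∀ {u v a v'}, P.free u v → ¬ P.push u a v'
  free_pop : ∀ {u v a v'}, P.free u v → ¬ P.pop u a v'
  test_test : ∀ {u i b v i' b' v'}, P.test u i b v → P.test u i' b' v' → i = i' ∧ (b = b' → v = v')
  test_push : ∀ {u i b v a v'}, P.test u i b v → ¬ P.push u a v'
  test_pop : ∀ {u i b v a v'}, P.test u i b v → ¬ P.pop u a v'
  push_push : ∀ {u a v a' v'}, P.push u a v → P.push u a' v' → a = a' ∧ v = v'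
  push_pop : ∀ {u a v a' v'}, P.push u a v → ¬ P.pop u a' v'
  pop_pop : ∀ {u a v v'}, P.pop u a v → P.pop u a v' → v = v'
  acc_free : ∀ {v}, ¬ P.free P.acc v
  acc_test : ∀ {i b v}, ¬ P.test P.acc i b v
  acc_push : ∀ {a v}, ¬ P.push P.acc a v
  acc_pop : ∀ {a v}, ¬ P.pop P.acc a v

/-- two partial assignments agree where both are defined -/
def Compat {n : ℕ} (c c' : Fin n → Option Bool) : Prop :=
  ∀ i b b', c i = some b → c' i = some b' → b = b'

/-- the statement of the core theorem for `R` deterministic certificates reading `k n / R` variables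
each: compatible certificates are equal -/
def DCore (k R : ℕ) (ε : ℝ) (n : ℕ) : Prop :=
  ∀ (W : Finset (Fin n → Bool)) (c : Fin R → (Fin n → Bool) → Fin n → Option Bool)
    (F : Set (Fin n → Bool)) (L : ℕ),
    n * Real.log 2 - ε * n ≤ Real.log W.card →
    (∀ z ∈ W, ∀ j, Sub (c j z) z) →
    (∀ j, ∀ z ∈ W, ∀ z' ∈ W, Compat (c j z) (c j z') → c j z = c j z') →
    (∀ z ∈ W, ∀ j, (dom (c j z)).card * R ≤ k * n) →
    (∀ u, (∀ j, ∃ w ∈ W, Sub (c j w) u) → u ∈ F) →
    (L : ℝ) ≤ Real.exp (ε * n) → ¬ RectFree F L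

/-- the bound for deterministic programs with a stack on one block of `n` variables -/
def DbpB (k B n : ℕ) : Prop :=
  ∀ (V Γ : Type) [Fintype V] (P : SBP V Γ (Fin n)) (F : Set (Fin n → Bool)) (L : ℕ), Det P →
    (∀ x l, P.AccWalk x l → x ∈ F) → RectFree F L → (L : ℝ) ≤ Real.exp ((n : ℝ) / B) →
    ∀ (W : Finset (Fin n → Bool)), (∀ x ∈ W, ∃ l, P.AccWalk x l ∧ l.length ≤ k * n) →
      (W.card : ℝ) ≤ ((Fintype.card V : ℝ) + n) ^ (2 * B) * (2 ^ n * Real.exp (-((n : ℝ) / B)))

end Pool.Agent.KD
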