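import Pool.Agent.KD.Params

/-! The final form of the lower bound for deterministic programs: time
`c N log (N / S) / log (log (N / S))`. -/

namespace Pool.Agent.KD

open Pool.Agent.SemRO Pool.Agent.KNL

/-- **Time and size.** -/
theorem time_of_quant (h : ∃ c : ℕ, ∀ k : ℕ, 2 ≤ k → ∀ N : ℕ, k ^ (c * k) ≤ N →
    ∃ A : Finset (Fin N → Bool), A.Nonempty ∧
      (∀ y ∈ A, Pool.Agent.KQL.Lang (List.ofFn y)) ∧
      ∀ (V Γ : Type) [Fintype V] (P : SBP V Γ (Fin N)), Det P →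
        (Fintype.card V : ℝ) ≤ (2 : ℝ) ^ ((N : ℝ) / (k : ℝ) ^ (c * k)) →
        (∀ y l, P.AccWalk y l → Pool.Agent.KQL.Lang (List.ofFn y)) →
        ∀ S ⊆ A, (∀ y ∈ S, ∃ l, P.AccWalk y l ∧ l.length ≤ k * N) →
          (S.card : ℝ) ≤ (2 : ℝ) ^ (-((N : ℝ) / (k : ℝ) ^ (c * k))) * A.card) :
    ∃ c x0 : ℝ, 0 < c ∧ 1 ≤ x0 ∧ ∀ (N S : ℕ), 1 ≤ S → x0 * S ≤ N →
      ∀ (V Γ : Type) [Fintype V] (P : SBP V Γ (Fin N)), Det P →
        Fintype.card V ≤ 2 ^ S →
        (∀ y, (∃ l, P.AccWalk y l) ↔ Pool.Agent.KQL.Lang (List.ofFn y)) →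
        ∀ T : ℕ, (∀ y, Pool.Agent.KQL.Lang (List.ofFn y) → ∃ l, P.AccWalk y l ∧ l.length ≤ T) →
          c * N * Real.log (N / S) / Real.log (Real.log (N / S)) ≤ T := by
  obtain ⟨c, hc⟩ := h
  obtain ⟨C, hC⟩ : ∃ C : ℝ, C = c + 1 := ⟨_, rfl⟩
  have hC1 : 1 ≤ C := by
    have : (0 : ℝ) ≤ c := Nat.cast_nonneg _
    linarith
  have hC0 : 0 < C := by linarith
  refine ⟨1 / (2 * C), Real.exp (16 * C ^ 2), by positivity, Real.one_le_exp (by positivity), ?_⟩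
  intro N S hS hxN V Γ _ P hdet hV hP T hT
  by_contra hcon
  push Not at hcon
  have hSr : (1 : ℝ) ≤ S := by exact_mod_cast hS
  have hS0 : (0 : ℝ) < S := by linarith
  obtain ⟨x, hx⟩ : ∃ x : ℝ, x = N / S := ⟨_, rfl⟩
  rw [← hx] at hcon
  have hxx0 : Real.exp (16 * C ^ 2) ≤ x := by
    rw [hx, le_div_iff₀ hS0]; exact hxN
  have hx0 : 0 < x := lt_of_lt_of_le (Real.exp_pos _) hxx0
  obtain ⟨y, hy⟩ : ∃ y : ℝ, y = Real.log x := ⟨_, rfl⟩
  rw [← hy] at hcon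
  have hyC : 16 * C ^ 2 ≤ y := by
    rw [hy, Real.le_log_iff_exp_le hx0]; exact hxx0
  have hy16 : (16 : ℝ) ≤ y := by nlinarith
  have hy0 : 0 < y := by linarith
  have hly1 : 1 ≤ Real.log y := by
    rw [Real.le_log_iff_exp_le hy0]
    have := Real.exp_one_lt_d9
    linarith
  have hly0 : 0 < Real.log y := by linarith
  obtain ⟨z, hz⟩ : ∃ z : ℝ, z = y / (C * Real.log y) := ⟨_, rfl⟩
  have hsq : Real.log y ≤ 2 * Real.sqrt y := by
    have h1 := Real.log_le_sub_one_of_pos (Real.sqrt_pos.mpr hy0)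
    have h2 : Real.log (Real.sqrt y) = Real.log y / 2 := Real.log_sqrt hy0.le
    linarith
  have hsqC : 4 * C ≤ Real.sqrt y := by
    apply Real.le_sqrt_of_sq_le
    calc (4 * C) ^ 2 = 16 * C ^ 2 := by ring
      _ ≤ y := hyC
  have hss : Real.sqrt y * Real.sqrt y = y := Real.mul_self_sqrt hy0.le
  have hz2 : 2 ≤ z := by
    rw [hz, le_div_iff₀ (by positivity)]
    have h1 : 2 * (C * Real.log y) ≤ 2 * (C * (2 * Real.sqrt y)) := by
      gcongr
    have h2 : 4 * C * Real.sqrt y ≤ Real.sqrt y * Real.sqrt y :=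
      mul_le_mul_of_nonneg_right hsqC (Real.sqrt_nonneg y)
    linarith
  have hzy : z ≤ y := by
    rw [hz]
    apply div_le_self hy0.le
    calc (1 : ℝ) = 1 * 1 := by ring
      _ ≤ C * Real.log y := mul_le_mul hC1 hly1 (by norm_num) (by linarith)
  obtain ⟨k, hk⟩ : ∃ k, k = ⌊z⌋₊ := ⟨_, rfl⟩
  have hz0 : 0 ≤ z := by linarith
  have hkz : (k : ℝ) ≤ z := by rw [hk]; exact Nat.floor_le hz0
  have hkz' : z < k + 1 := by rw [hk]; exact Nat.lt_floor_add_one z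
  have hk2 : 2 ≤ k := by rw [hk]; exact Nat.le_floor (by exact_mod_cast hz2)
  have hkr : (2 : ℝ) ≤ k := by exact_mod_cast hk2
  have hk0 : (0 : ℝ) < k := by linarith
  -- `k ^ (c k) ≤ x`
  have hkx : (k : ℝ) ^ (c * k) ≤ x := by
    have h1 : (k : ℝ) ^ (c * k) = Real.exp (((c * k : ℕ) : ℝ) * Real.log k) := by
      rw [Real.exp_nat_mul, Real.exp_log hk0]
    rw [h1, ← Real.le_log_iff_exp_le hx0, ← hy]
    push_cast
    have h2 : Real.log k ≤ Real.log y := Real.log_le_log hk0 (hkz.trans hzy)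
    have h3 : 0 ≤ Real.log k := Real.log_nonneg (by linarith)
    have h4 : z * (C * Real.log y) = y := by
      rw [hz]; field_simp
    calc (c : ℝ) * k * Real.log k ≤ C * z * Real.log y := by
          have h5 : (c : ℝ) ≤ C := by linarith
          have h6 : (0 : ℝ) ≤ c := Nat.cast_nonneg _
          gcongr
      _ = z * (C * Real.log y) := by ring
      _ = y := h4
      _ ≤ y := le_rfl
  have hpos : (0 : ℝ) < (k : ℝ) ^ (c * k) := by positivity
  have hxN' : x * S = N := by rw [hx]; field_simp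
  have hNr : (k : ℝ) ^ (c * k) * S ≤ N := by
    rw [← hxN']; exact mul_le_mul_of_nonneg_right hkx hS0.le
  have hN : k ^ (c * k) ≤ N := by
    have : (k : ℝ) ^ (c * k) ≤ N := by
      calc (k : ℝ) ^ (c * k) = (k : ℝ) ^ (c * k) * 1 := by ring
        _ ≤ (k : ℝ) ^ (c * k) * S := mul_le_mul_of_nonneg_left hSr hpos.le
        _ ≤ N := hNr
    exact_mod_cast this
  have hNpos : (0 : ℝ) < N := by
    rw [← hxN']; positivity
  obtain ⟨A, hA, hAL, hA2⟩ := hc k hk2 N hN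
  have hSN : (S : ℝ) ≤ N / (k : ℝ) ^ (c * k) := by
    rw [le_div_iff₀ hpos]; linarith
  have hVr : (Fintype.card V : ℝ) ≤ (2 : ℝ) ^ ((N : ℝ) / (k : ℝ) ^ (c * k)) := by
    have h1 : (Fintype.card V : ℝ) ≤ (2 : ℝ) ^ (S : ℝ) := by
      rw [Real.rpow_natCast]; exact_mod_cast hV
    exact h1.trans (Real.rpow_le_rpow_of_exponent_le (by norm_num) hSN)
  have hTk : T ≤ k * N := by
    have h1 : 1 / (2 * C) * N * y / Real.log y = N * (z / 2) := by
      rw [hz]; field_simp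
    have h2 : z / 2 ≤ k := by linarith
    have h3 : (N : ℝ) * (z / 2) ≤ N * k := mul_le_mul_of_nonneg_left h2 hNpos.le
    have h4 : (T : ℝ) ≤ k * N := by linarith
    exact_mod_cast h4
  have h1 := hA2 V Γ P hdet hVr (fun y l hy => (hP y).mp ⟨l, hy⟩) A (Finset.Subset.refl _)
    (fun y hy => by
      obtain ⟨l, hl, hlen⟩ := hT y (hAL y hy)
      exact ⟨l, hl, hlen.trans hTk⟩)
  have hAc : (0 : ℝ) < A.card := by exact_mod_cast Finset.card_pos.mpr hA
  have h2 : (2 : ℝ) ^ (-((N : ℝ) / (k : ℝ) ^ (c * k))) < 1 := by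
    apply Real.rpow_lt_one_of_one_lt_of_neg (by norm_num)
    linarith
  nlinarith

end Pool.Agent.KD
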