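import Mathlib

/-! Functions bounded by `k ^ (c k)`. -/

namespace Pool.Agent.KD

/-- at most `k ^ (c k)` for all `k ≥ 2` -/
def KB (g : ℕ → ℕ) : Prop := ∃ c : ℕ, ∀ k : ℕ, 2 ≤ k → g k ≤ k ^ (c * k)

lemma KB.mono {g h : ℕ → ℕ} (hh : KB h) (hgh : ∀ k, 2 ≤ k → g k ≤ h k) : KB g := by
  obtain ⟨c, hc⟩ := hh
  exact ⟨c, fun k hk => (hgh k hk).trans (hc k hk)⟩

lemma kk_mono {k : ℕ} (hk : 2 ≤ k) {a b : ℕ} (h : a ≤ b) : k ^ (a * k) ≤ k ^ (b * k) :=
  Nat.pow_le_pow_right (by omega) (Nat.mul_le_mul_right _ h)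

lemma KB.const (r : ℕ) : KB (fun _ => r) := by
  refine ⟨r, fun k hk => ?_⟩
  calc r ≤ 2 ^ r := (Nat.lt_two_pow_self).le
    _ ≤ k ^ r := Nat.pow_le_pow_left hk r
    _ ≤ k ^ (r * k) := Nat.pow_le_pow_right (by omega) (Nat.le_mul_of_pos_right _ (by omega))

lemma KB.add {g h : ℕ → ℕ} (hg : KB g) (hh : KB h) : KB (fun k => g k + h k) := by
  obtain ⟨a, ha⟩ := hg
  obtain ⟨b, hb⟩ := hh
  refine ⟨max a b + 1, fun k hk => ?_⟩
  have h1 := (ha k hk).trans (kk_mono hk (le_max_left a b))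
  have h2 := (hb k hk).trans (kk_mono hk (le_max_right a b))
  have h3 : 2 ≤ k ^ k := by
    calc 2 ≤ k := hk
      _ = k ^ 1 := (pow_one k).symm
      _ ≤ k ^ k := Nat.pow_le_pow_right (by omega) (by omega)
  have h4 : k ^ ((max a b + 1) * k) = k ^ (max a b * k) * k ^ k := by
    rw [← pow_add]; congr 1; ring
  rw [h4]
  have h5 : k ^ (max a b * k) * 2 ≤ k ^ (max a b * k) * k ^ k := Nat.mul_le_mul_left _ h3
  show g k + h k ≤ _
  omega

lemma KB.mul {g h : ℕ → ℕ} (hg : KB g) (hh : KB h) : KB (fun k => g k * h k) := by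
  obtain ⟨a, ha⟩ := hg
  obtain ⟨b, hb⟩ := hh
  refine ⟨a + b, fun k hk => ?_⟩
  rw [add_mul, pow_add]
  exact Nat.mul_le_mul (ha k hk) (hb k hk)

lemma KB.pow {g : ℕ → ℕ} (hg : KB g) (d : ℕ) : KB (fun k => g k ^ d) := by
  obtain ⟨a, ha⟩ := hg
  refine ⟨a * d, fun k hk => ?_⟩
  have e : a * d * k = (a * k) * d := by ring
  rw [e, pow_mul]
  exact Nat.pow_le_pow_left (ha k hk) d

/-- the constant of the core theorem -/
def Bcore (k : ℕ) : ℕ := 2 ^ (10 + 4 * k * (12 + 4 * Nat.clog 2 k))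

lemma two_pow_clog (x : ℕ) (hx : 1 ≤ x) : 2 ^ Nat.clog 2 x ≤ 2 * x := by
  rcases Nat.lt_or_ge x 2 with h | h
  · have : x = 1 := by omega
    subst this
    simp
  · have h1 := Nat.pow_pred_clog_lt_self (b := 2) (by norm_num) (show 1 < x by omega)
    have h2 : 1 ≤ Nat.clog 2 x := Nat.clog_pos (by norm_num) h
    have h3 : Nat.clog 2 x = (Nat.clog 2 x).pred + 1 := by
      rw [Nat.pred_eq_sub_one]; omega
    rw [h3, pow_succ]
    omega

/-- `Bcore` of a linear function is bounded by `k ^ (c k)` -/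
lemma Bcore_KB (a b : ℕ) : KB (fun k => Bcore (a * k + b)) := by
  set A := a + b with hA
  refine ⟨10 + 48 * A + (A + 2) * (16 * A), fun k hk => ?_⟩
  have hk1 : 1 ≤ k := by omega
  have hx : a * k + b ≤ A * k := by
    rw [hA, add_mul]
    exact Nat.add_le_add_left (Nat.le_mul_of_pos_right _ hk1) _
  rcases Nat.eq_zero_or_pos (a * k + b) with h0 | hpos
  · simp only [h0, Bcore]
    calc 2 ^ (10 + 4 * 0 * (12 + 4 * Nat.clog 2 0)) = 2 ^ 10 := by norm_num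
      _ ≤ k ^ 10 := Nat.pow_le_pow_left hk _
      _ ≤ _ := by
        apply Nat.pow_le_pow_right hk1
        calc 10 ≤ 10 * k := Nat.le_mul_of_pos_right _ hk1
          _ ≤ _ := Nat.mul_le_mul_right _ (by omega)
  · have hpos' : 1 ≤ a * k + b := hpos
    obtain ⟨x, hxe⟩ : ∃ x, x = a * k + b := ⟨_, rfl⟩
    rw [← hxe] at hx hpos'
    simp only [Bcore, ← hxe]
    have e : 10 + 4 * x * (12 + 4 * Nat.clog 2 x) = 10 + 48 * x + Nat.clog 2 x * (16 * x) := by ring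
    rw [e, pow_add, pow_add, pow_mul 2 (Nat.clog 2 x)]
    have h1 : 2 ^ Nat.clog 2 x ≤ k ^ (A + 2) := by
      calc 2 ^ Nat.clog 2 x ≤ 2 * x := two_pow_clog x hpos'
        _ ≤ 2 * (A * k) := Nat.mul_le_mul_left _ hx
        _ ≤ 2 * (2 ^ A * k) := Nat.mul_le_mul_left _ (Nat.mul_le_mul_right _ (Nat.lt_two_pow_self).le)
        _ ≤ k * (k ^ A * k) := Nat.mul_le_mul hk (Nat.mul_le_mul_right _ (Nat.pow_le_pow_left hk _))
        _ = k ^ (A + 2) := by ring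
    have h2 : (2 ^ Nat.clog 2 x) ^ (16 * x) ≤ k ^ ((A + 2) * (16 * (A * k))) := by
      calc (2 ^ Nat.clog 2 x) ^ (16 * x) ≤ (k ^ (A + 2)) ^ (16 * x) := Nat.pow_le_pow_left h1 _
        _ = k ^ ((A + 2) * (16 * x)) := by rw [← pow_mul]
        _ ≤ _ := Nat.pow_le_pow_right hk1 (Nat.mul_le_mul_left _ (Nat.mul_le_mul_left _ hx))
    have h3 : 2 ^ (48 * x) ≤ k ^ (48 * (A * k)) := by
      calc 2 ^ (48 * x) ≤ k ^ (48 * x) := Nat.pow_le_pow_left hk _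
        _ ≤ _ := Nat.pow_le_pow_right hk1 (Nat.mul_le_mul_left _ hx)
    have h4 : 2 ^ 10 ≤ k ^ (10 * k) := by
      calc 2 ^ 10 ≤ k ^ 10 := Nat.pow_le_pow_left hk _
        _ ≤ _ := Nat.pow_le_pow_right hk1 (Nat.le_mul_of_pos_right _ hk1)
    calc 2 ^ 10 * 2 ^ (48 * x) * (2 ^ Nat.clog 2 x) ^ (16 * x)
        ≤ k ^ (10 * k) * k ^ (48 * (A * k)) * k ^ ((A + 2) * (16 * (A * k))) :=
          Nat.mul_le_mul (Nat.mul_le_mul h4 h3) h2
      _ = k ^ ((10 + 48 * A + (A + 2) * (16 * A)) * k) := by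
        rw [← pow_add, ← pow_add]; congr 1; ring

end Pool.Agent.KD
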