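import Pool.Agent.KQL.HashDef

/-! Polynomials over the field with two elements that are sums of arbitrary functions of groups of
variables: such a random polynomial is rarely constant on points that are distinct on one group. -/

namespace Pool.Agent.KD.Hash

open Finset Pool.Agent.KQL

/-- a bit as an element of the field with two elements -/
def bz (b : Bool) : ZMod 2 := if b then 1 else 0

theorem bz_inj : Function.Injective bz := by
  intro a b
  cases a <;> cases b <;> simp [bz]

theorem z2 (x : ZMod 2) : x = 0 ∨ x = 1 := by
  revert x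
  decide

/-- value of a polynomial with coefficients in the field with two elements -/
def PV {w K : ℕ} (E : Fin K → Fin w → Bool) (c : Fin K → ZMod 2) (v : Fin w → Bool) : ZMod 2 :=
  ∑ e, c e * (if ∀ q, E e q = true → v q = true then 1 else 0)

theorem bz_pv {w K : ℕ} (E : Fin K → Fin w → Bool) (c : Fin K → Bool) (v : Fin w → Bool) :
    bz (pv E c v) = PV E (fun e => bz (c e)) v := by
  classical
  have h1 : PV E (fun e => bz (c e)) v = (((Finset.univ.filter fun e =>
      c e = true ∧ ∀ q, E e q = true → v q = true).card : ℕ) : ZMod 2) := by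
    rw [PV, Finset.natCast_card_filter]
    refine Finset.sum_congr rfl fun e _ => ?_
    by_cases hc : c e = true
    · by_cases hq : ∀ q, E e q = true → v q = true
      · rw [if_pos hq, if_pos ⟨hc, hq⟩, hc]
        simp [bz]
      · rw [if_neg hq, if_neg (fun h => hq h.2), mul_zero]
    · have hc' : c e = false := by simpa using hc
      rw [if_neg (fun h : c e = true ∧ _ => hc h.1), hc']
      simp [bz]
  rw [h1, pv]
  rcases Nat.mod_two_eq_zero_or_one (Finset.univ.filter fun e =>
      c e = true ∧ ∀ q, E e q = true → v q = true).card with h | h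
  · have h3 : (((Finset.univ.filter fun e =>
      c e = true ∧ ∀ q, E e q = true → v q = true).card : ℕ) : ZMod 2) = 0 :=
      (ZMod.natCast_eq_zero_iff_even).mpr (Nat.even_iff.mpr h)
    rw [h3]
    simp [bz, h]
  · have h3 : (((Finset.univ.filter fun e =>
      c e = true ∧ ∀ q, E e q = true → v q = true).card : ℕ) : ZMod 2) = 1 :=
      (ZMod.natCast_eq_one_iff_odd).mpr (Nat.odd_iff.mpr h)
    rw [h3]
    simp [bz, h]

theorem PV_add {w K : ℕ} (E : Fin K → Fin w → Bool) (c c' : Fin K → ZMod 2) (v : Fin w → Bool) :
    PV E (c + c') v = PV E c v + PV E c' v := by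
  simp only [PV, Pi.add_apply, add_mul, Finset.sum_add_distrib]

theorem PV_sum {w K : ℕ} (E : Fin K → Fin w → Bool) {κ : Type} (s : Finset κ)
    (c : κ → Fin K → ZMod 2) (v : Fin w → Bool) :
    PV E (∑ k ∈ s, c k) v = ∑ k ∈ s, PV E (c k) v := by
  simp only [PV, Finset.sum_apply, Finset.sum_mul]
  rw [Finset.sum_comm]

theorem PV_smul {w K : ℕ} (E : Fin K → Fin w → Bool) (r : ZMod 2) (c : Fin K → ZMod 2)
    (v : Fin w → Bool) : PV E (r • c) v = r * PV E c v := by
  simp only [PV, Pi.smul_apply, smul_eq_mul, Finset.mul_sum, mul_assoc]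

/-- if every indicator is a polynomial then random polynomials are rarely constant -/
theorem card_const {w K : ℕ} (E : Fin K → Fin w → Bool) {ι : Type} [Fintype ι] [Nonempty ι]
    (v : ι → Fin w → Bool)
    (hind : ∀ p0 : ι, ∃ c : Fin K → ZMod 2, PV E c (v p0) = 1 ∧ ∀ p, p ≠ p0 → PV E c (v p) = 0) :
    (((Finset.univ : Finset (Fin K → Bool)).filter
        fun c => ∀ p q, pv E c (v p) = pv E c (v q)).card : ℝ) ≤
        2 ^ K / 2 ^ (Fintype.card ι - 1) := by
  classical
  have surj : ∀ y : ι → ZMod 2, ∃ c : Fin K → ZMod 2, ∀ p, PV E c (v p) = y p := by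
    intro y
    choose c hc using hind
    refine ⟨∑ p0, y p0 • c p0, fun p => ?_⟩
    rw [PV_sum]
    simp only [PV_smul]
    rw [Finset.sum_eq_single p]
    · rw [(hc p).1, mul_one]
    · intro b _ hb
      rw [(hc b).2 p (Ne.symm hb), mul_zero]
    · intro h; exact absurd (Finset.mem_univ p) h
  rw [le_div_iff₀ (by positivity)]
  obtain ⟨p0⟩ : Nonempty ι := inferInstance
  -- the shifts
  have hs : ∀ y : {p : ι // p ≠ p0} → Bool, ∃ c : Fin K → ZMod 2,
      ∀ p, PV E c (v p) = if h : p = p0 then 0 else bz (y ⟨p, h⟩) := fun y =>
    surj _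
  choose cs hcs using hs
  let S : Finset (Fin K → Bool) :=
    (Finset.univ : Finset (Fin K → Bool)).filter
      fun c => ∀ p q, pv E c (v p) = pv E c (v q)
  let F : (Fin K → Bool) × ({p : ι // p ≠ p0} → Bool) → (Fin K → ZMod 2) :=
    fun x => (fun e => bz (x.1 e)) + cs x.2
  have hF : Set.InjOn F ((S ×ˢ (Finset.univ : Finset ({p : ι // p ≠ p0} → Bool)) :
      Finset _) : Set ((Fin K → Bool) × ({p : ι // p ≠ p0} → Bool))) := by
    rintro ⟨c, y⟩ hx ⟨c', y'⟩ hx' hxx
    simp only [Finset.coe_product, Set.mem_prod, Finset.mem_coe, Finset.mem_univ, and_true, S,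
      Finset.mem_filter, true_and] at hx hx'
    have h1 : ∀ p, PV E (F (c, y)) (v p) = PV E (F (c', y')) (v p) := fun p => by rw [hxx]
    have h2 : ∀ p, bz (pv E c (v p)) + (if h : p = p0 then 0 else bz (y ⟨p, h⟩)) =
        bz (pv E c' (v p)) + (if h : p = p0 then 0 else bz (y' ⟨p, h⟩)) := by
      intro p
      have h3 := h1 p
      simp only [F] at h3
      rw [PV_add, PV_add, ← bz_pv, ← bz_pv, hcs, hcs] at h3
      exact h3
    have h3 := h2 p0
    rw [dif_pos rfl, dif_pos rfl, add_zero, add_zero] at h3
    have hy : y = y' := by
      funext p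
      have h4 := h2 p.1
      rw [dif_neg p.2, dif_neg p.2, hx p.1 p0, hx' p.1 p0, h3] at h4
      exact bz_inj (add_left_cancel h4)
    subst hy
    have h5 : (fun e => bz (c e)) = (fun e => bz (c' e)) := add_right_cancel hxx
    have hcc : c = c' := by
      funext e
      exact bz_inj (congrFun h5 e)
    rw [hcc]
  have hcard : (S ×ˢ (Finset.univ : Finset ({p : ι // p ≠ p0} → Bool))).card ≤
      Fintype.card (Fin K → ZMod 2) := by
    rw [← Finset.card_univ]
    exact Finset.card_le_card_of_injOn F (fun _ _ => Finset.mem_univ _) hF
  have h6 : Fintype.card ({p : ι // p ≠ p0} → Bool) = 2 ^ (Fintype.card ι - 1) := by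
    rw [Fintype.card_fun, Fintype.card_bool, Fintype.card_subtype_compl, Fintype.card_subtype_eq]
  have h7 : Fintype.card (Fin K → ZMod 2) = 2 ^ K := by
    rw [Fintype.card_fun, ZMod.card, Fintype.card_fin]
  rw [Finset.card_product, Finset.card_univ, h6, h7] at hcard
  have h8 : ((S.card * 2 ^ (Fintype.card ι - 1) : ℕ) : ℝ) ≤ ((2 ^ K : ℕ) : ℝ) := by
    exact_mod_cast hcard
  push_cast at h8
  exact h8

/-- the number of sets between `u` and `x` is odd only if `u = x` -/
theorem sum_between {κ : Type} [Fintype κ] [DecidableEq κ] (u x : κ → Bool) :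
    (∑ y : κ → Bool, (if (∀ q, u q = true → y q = true) then (1 : ZMod 2) else 0) *
      (if (∀ q, y q = true → x q = true) then 1 else 0)) = if x = u then 1 else 0 := by
  classical
  by_cases hxu : x = u
  · rw [if_pos hxu]
    subst hxu
    rw [Finset.sum_eq_single x]
    · simp
    · intro y _ hy
      by_cases h1 : ∀ q, x q = true → y q = true
      · by_cases h2 : ∀ q, y q = true → x q = true
        · exfalso
          apply hy
          funext q
          cases hx : x q <;> cases hyq : y q
          · rfl
          · exact absurd (h2 q hyq) (by simp [hx])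
          · exact absurd (h1 q hx) (by simp [hyq])
          · rfl
        · rw [if_neg h2, mul_zero]
      · rw [if_neg h1, zero_mul]
    · intro h; exact absurd (Finset.mem_univ x) h
  · rw [if_neg hxu]
    by_cases hlt : ∃ q, x q = true ∧ u q = false
    · obtain ⟨q, hx, hu⟩ := hlt
      refine Finset.sum_involution (fun y _ => Function.update y q (!y q)) ?_ ?_ ?_ ?_
      · intro y _
        have e1 : (∀ r, u r = true → Function.update y q (!y q) r = true) ↔
            ∀ r, u r = true → y r = true := by
          constructor
          · intro h r hr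
            have hrq : r ≠ q := by rintro rfl; rw [hu] at hr; exact absurd hr (by simp)
            have := h r hr
            rwa [Function.update_of_ne hrq] at this
          · intro h r hr
            have hrq : r ≠ q := by rintro rfl; rw [hu] at hr; exact absurd hr (by simp)
            rw [Function.update_of_ne hrq]
            exact h r hr
        have e2 : (∀ r, Function.update y q (!y q) r = true → x r = true) ↔
            ∀ r, y r = true → x r = true := by
          constructor
          · intro h r hr
            by_cases hrq : r = q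
            · rw [hrq]; exact hx
            · apply h r
              rwa [Function.update_of_ne hrq]
          · intro h r hr
            by_cases hrq : r = q
            · rw [hrq]; exact hx
            · rw [Function.update_of_ne hrq] at hr
              exact h r hr
        simp only [e1, e2]
        exact CharTwo.add_self_eq_zero _
      · intro y _ _ h
        have := congrFun h q
        simp at this
      · intro y _; exact Finset.mem_univ _
      · intro y _
        simp
    · push Not at hlt
      apply Finset.sum_eq_zero
      intro y _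
      by_cases h1 : ∀ q, u q = true → y q = true
      · by_cases h2 : ∀ q, y q = true → x q = true
        · exfalso
          apply hxu
          funext q
          cases hx : x q <;> cases hu : u q
          · rfl
          · exact absurd (h2 q (h1 q hu)) (by simp [hx])
          · exact absurd hu (hlt q hx)
          · rfl
        · rw [if_neg h2, mul_zero]
      · rw [if_neg h1, zero_mul]

/-- the subsets of a set with `w'` elements -/
noncomputable def bet (w' : ℕ) : Fin (2 ^ w') ≃ (Fin w' → Bool) :=
  Fintype.equivOfCardEq (by simp)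

/-- the monomials: all monomials in the variables of one of the `G` groups -/
noncomputable def E0 (G w' : ℕ) (e : Fin (G * 2 ^ w')) (q : Fin (G * w')) : Bool :=
  decide ((finProdFinEquiv.symm e).1 = (finProdFinEquiv.symm q).1) &&
    bet w' (finProdFinEquiv.symm e).2 (finProdFinEquiv.symm q).2

/-- the part of a vector that belongs to the group `g` -/
def part {G w' : ℕ} (g : Fin G) (v : Fin (G * w') → Bool) (q : Fin w') : Bool :=
  v (finProdFinEquiv (g, q))

theorem E0_le {G w' : ℕ} (e : Fin G × Fin (2 ^ w')) (v : Fin (G * w') → Bool) :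
    (∀ q, E0 G w' (finProdFinEquiv e) q = true → v q = true) ↔
      ∀ q, bet w' e.2 q = true → part e.1 v q = true := by
  constructor
  · intro h q hq
    apply h
    simp [E0, hq]
  · intro h q hq
    simp only [E0, Equiv.symm_apply_apply, Bool.and_eq_true, decide_eq_true_eq] at hq
    have h1 := h _ hq.2
    rw [part, hq.1] at h1
    have e1 : finProdFinEquiv ((finProdFinEquiv.symm q).1, (finProdFinEquiv.symm q).2) = q :=
      finProdFinEquiv.apply_symm_apply q
    rwa [e1] at h1

theorem PV_ind {G w' : ℕ} (g : Fin G) (u : Fin w' → Bool) (v : Fin (G * w') → Bool) :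
    PV (E0 G w') (fun e => if (finProdFinEquiv.symm e).1 = g ∧
      ∀ q, u q = true → bet w' (finProdFinEquiv.symm e).2 q = true then 1 else 0) v =
      if part g v = u then 1 else 0 := by
  classical
  rw [← sum_between u (part g v), PV]
  rw [← Equiv.sum_comp (finProdFinEquiv (m := G) (n := 2 ^ w'))]
  simp only [Equiv.symm_apply_apply, E0_le]
  rw [Fintype.sum_prod_type]
  rw [Finset.sum_eq_single g]
  · rw [← Equiv.sum_comp (bet w')]
    refine Finset.sum_congr rfl fun e _ => ?_
    by_cases h1 : ∀ q, u q = true → bet w' e q = true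
    · by_cases h2 : ∀ q, bet w' e q = true → part g v q = true
      · rw [if_pos ⟨rfl, h1⟩, if_pos h2, if_pos h1, if_pos h2]
      · rw [if_neg h2, if_neg h2, mul_zero, mul_zero]
    · rw [if_neg (fun h => h1 h.2), if_neg h1, zero_mul, zero_mul]
  · intro b _ hb
    apply Finset.sum_eq_zero
    intro e _
    rw [if_neg (fun h => hb h.1), zero_mul]
  · intro h; exact absurd (Finset.mem_univ g) h

/-- **Random sums of functions of the groups are rarely constant on points that are distinct on one
group.** -/
theorem card_const_group {G w' : ℕ} {ι : Type} [Fintype ι] [Nonempty ι]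
    (v : ι → Fin (G * w') → Bool) (g : Fin G) (hv : Function.Injective fun p => part g (v p)) :
    (((Finset.univ : Finset (Fin (G * 2 ^ w') → Bool)).filter
        fun c => ∀ p q, pv (E0 G w') c (v p) = pv (E0 G w') c (v q)).card : ℝ) ≤
        2 ^ (G * 2 ^ w') / 2 ^ (Fintype.card ι - 1) := by
  refine card_const (E0 G w') v fun p0 => ⟨fun e => if (finProdFinEquiv.symm e).1 = g ∧
      ∀ q, part g (v p0) q = true → bet w' (finProdFinEquiv.symm e).2 q = true then 1 else 0,
      ?_, fun p hp => ?_⟩
  · rw [PV_ind, if_pos rfl]
  · rw [PV_ind, if_neg]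
    intro h
    exact hp (hv h)

end Pool.Agent.KD.Hash
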