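import Pool.Agent.KNL.Hash
import Pool.Agent.KD.HashA

/-! Random windows: for all pairs of inputs there are few collisions of groups. -/

namespace Pool.Agent.KD.Hash

open Finset Pool.Agent.SemRO Pool.Agent.KNL.Hash

variable {n m G w' : ℕ}

/-- the positions and groups where two inputs have the same parities -/
def gcoll (hm : m ≤ n) (α : Fin (G * w') → Fin (2 * n) → Bool) (x x' : Fin n → Bool) :
    Finset (Fin m × Fin G) :=
  univ.filter fun jg => part jg.2 (idx hm α x jg.1) = part jg.2 (idx hm α x' jg.1)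

lemma part_idx_eq_iff (hm : m ≤ n) (α : Fin (G * w') → Fin (2 * n) → Bool) (x x' : Fin n → Bool)
    (j : Fin m) (g : Fin G) :
    part g (idx hm α x j) = part g (idx hm α x' j) ↔
      ∀ q : Fin w', sp (α (finProdFinEquiv (g, q))) (diff x x') j = 0 :=
  idx_eq_iff hm (fun q : Fin w' => α (finProdFinEquiv (g, q))) x x' j

open Classical in
lemma card_subset_gcoll (hm : m ≤ n) (x x' : Fin n → Bool) (h : x ≠ x') (J : Finset (Fin m × Fin G)) :
    (univ.filter fun α : Fin (G * w') → Fin (2 * n) → Bool => J ⊆ gcoll hm α x x').card *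
      2 ^ (w' * J.card) = 2 ^ (2 * n * (G * w')) := by
  obtain ⟨i0, h0, hlt⟩ := diff_ne x x' h
  set Jg : Fin G → Finset (Fin m) := fun g => univ.filter fun j => (j, g) ∈ J with hJg
  have h1 : (univ.filter fun α : Fin (G * w') → Fin (2 * n) → Bool => J ⊆ gcoll hm α x x') =
      Fintype.piFinset fun q : Fin (G * w') =>
        univ.filter fun a : Fin (2 * n) → Bool =>
          ∀ j ∈ Jg (finProdFinEquiv.symm q).1, sp a (diff x x') j = 0 := by
    ext α
    simp only [mem_filter, mem_univ, true_and, Fintype.mem_piFinset, Finset.subset_iff, gcoll,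
      part_idx_eq_iff, hJg]
    constructor
    · intro hh q j hj
      have := hh hj (finProdFinEquiv.symm q).2
      have e1 : finProdFinEquiv ((finProdFinEquiv.symm q).1, (finProdFinEquiv.symm q).2) = q :=
        finProdFinEquiv.apply_symm_apply q
      simpa only [e1] using this
    · rintro hh ⟨j, g⟩ hj q
      have := hh (finProdFinEquiv (g, q)) j
      rw [Equiv.symm_apply_apply] at this
      exact this hj
  rw [h1, Fintype.card_piFinset]
  have h2 : ∀ q : Fin (G * w'), (univ.filter fun a : Fin (2 * n) → Bool =>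
          ∀ j ∈ Jg (finProdFinEquiv.symm q).1, sp a (diff x x') j = 0).card *
        2 ^ (Jg (finProdFinEquiv.symm q).1).card = 2 ^ (2 * n) := fun q =>
    card_sp (N := 2 * n) (diff x x') i0 h0 hlt (fun j : Fin m => by omega) _
  have h3 : w' * J.card = ∑ q : Fin (G * w'), (Jg (finProdFinEquiv.symm q).1).card := by
    rw [← Equiv.sum_comp (finProdFinEquiv (m := G) (n := w'))]
    simp only [Equiv.symm_apply_apply]
    rw [Fintype.sum_prod_type]
    simp only [sum_const, card_univ, Fintype.card_fin, smul_eq_mul]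
    rw [← Finset.mul_sum]
    congr 1
    have h4 : J = univ.biUnion fun g : Fin G => (Jg g).image fun j => (j, g) := by
      ext ⟨j, g⟩
      simp [hJg]
    rw [h4, Finset.card_biUnion]
    · refine Finset.sum_congr rfl fun g _ => ?_
      rw [Finset.card_image_of_injective]
      intro a b hab
      exact (Prod.ext_iff.1 hab).1
    · intro g _ g' _ hgg
      simp only [Function.onFun]
      rw [Finset.disjoint_left]
      intro a ha hb
      rw [mem_image] at ha hb
      obtain ⟨_, _, rfl⟩ := ha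
      obtain ⟨_, _, h5⟩ := hb
      exact hgg (Prod.ext_iff.1 h5).2.symm
  rw [h3, ← Finset.prod_pow_eq_pow_sum, ← Finset.prod_mul_distrib, Finset.prod_congr rfl fun q _ => h2 q,
    prod_const, card_univ, Fintype.card_fin, ← pow_mul]

open Classical in
lemma card_many_gcoll (hm : m ≤ n) (x x' : Fin n → Bool) (h : x ≠ x') (a : ℕ) :
    ((univ.filter fun α : Fin (G * w') → Fin (2 * n) → Bool => a ≤ (gcoll hm α x x').card).card : ℝ) ≤
      ((m * G).choose a : ℝ) * (2 ^ (2 * n * (G * w')) / 2 ^ (w' * a)) := by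
  have hsub : (univ.filter fun α : Fin (G * w') → Fin (2 * n) → Bool => a ≤ (gcoll hm α x x').card) ⊆
      ((univ : Finset (Fin m × Fin G)).powersetCard a).biUnion fun J =>
        univ.filter fun α : Fin (G * w') → Fin (2 * n) → Bool => J ⊆ gcoll hm α x x' := by
    intro α hα
    obtain ⟨J, hJ, hJc⟩ := Finset.exists_subset_card_eq (mem_filter.1 hα).2
    rw [mem_biUnion]
    exact ⟨J, by simp [mem_powersetCard, hJc], by simp [hJ]⟩
  have h1 : ∀ J ∈ (univ : Finset (Fin m × Fin G)).powersetCard a,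
      ((univ.filter fun α : Fin (G * w') → Fin (2 * n) → Bool => J ⊆ gcoll hm α x x').card : ℝ) ≤
        2 ^ (2 * n * (G * w')) / 2 ^ (w' * a) := by
    intro J hJ
    have hJc := (mem_powersetCard.1 hJ).2
    rw [le_div_iff₀ (by positivity), ← hJc]
    exact_mod_cast (card_subset_gcoll hm x x' h J).le
  calc ((univ.filter fun α : Fin (G * w') → Fin (2 * n) → Bool => a ≤ (gcoll hm α x x').card).card : ℝ)
      ≤ ∑ J ∈ (univ : Finset (Fin m × Fin G)).powersetCard a,
        ((univ.filter fun α : Fin (G * w') → Fin (2 * n) → Bool => J ⊆ gcoll hm α x x').card : ℝ) := by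
        exact_mod_cast (card_le_card hsub).trans card_biUnion_le
    _ ≤ ∑ J ∈ (univ : Finset (Fin m × Fin G)).powersetCard a, (2 : ℝ) ^ (2 * n * (G * w')) / 2 ^ (w' * a) :=
        Finset.sum_le_sum h1
    _ = ((m * G).choose a : ℝ) * (2 ^ (2 * n * (G * w')) / 2 ^ (w' * a)) := by
        rw [sum_const, card_powersetCard, card_univ, Fintype.card_prod, Fintype.card_fin,
          Fintype.card_fin, nsmul_eq_mul]

/-- `C(M, a) <= (e M / a)^a` -/
lemma choose_le (M a : ℕ) (ha : 0 < a) : (M.choose a : ℝ) ≤ (Real.exp 1 * M / a) ^ a := by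
  have h1 : (M.choose a : ℝ) ≤ (M : ℝ) ^ a / (a.factorial : ℝ) := Nat.choose_le_pow_div a M
  have h2 : ((a : ℝ)) ^ a / (a.factorial : ℝ) ≤ Real.exp a :=
    Real.pow_div_factorial_le_exp (a : ℝ) (by positivity) a
  have h3 : (0 : ℝ) < a.factorial := by exact_mod_cast a.factorial_pos
  have ha' : (0 : ℝ) < a := by exact_mod_cast ha
  refine h1.trans ?_
  rw [div_pow, mul_pow, ← Real.exp_nat_mul, mul_one, div_le_div_iff₀ h3 (by positivity)]
  rw [div_le_iff₀ h3] at h2
  calc (M : ℝ) ^ a * (a : ℝ) ^ a ≤ (M : ℝ) ^ a * (Real.exp a * a.factorial) :=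
        mul_le_mul_of_nonneg_left h2 (by positivity)
    _ = _ := by ring

open Classical in
/-- **Windows with few collisions for all pairs.** -/
theorem exists_windows (hm : m ≤ n) (hn : 0 < n) {Q : ℕ} (hM : m * G ≤ 8 * Q * n)
    (hw : 32 * Q ≤ 2 ^ w') (hQ : 0 < Q) :
    ∃ α : Fin (G * w') → Fin (2 * n) → Bool, ∀ x x' : Fin n → Bool, x ≠ x' →
      (gcoll hm α x x').card < 2 * n := by
  by_contra hcon
  push Not at hcon
  have hcover : (univ : Finset (Fin (G * w') → Fin (2 * n) → Bool)) ⊆
      ((univ : Finset ((Fin n → Bool) × (Fin n → Bool))).filter fun p => p.1 ≠ p.2).biUnion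
        (fun p => univ.filter fun α : Fin (G * w') → Fin (2 * n) → Bool =>
          2 * n ≤ (gcoll hm α p.1 p.2).card) := by
    intro α _
    obtain ⟨x, x', hxx, h⟩ := hcon α
    rw [mem_biUnion]
    exact ⟨(x, x'), by simpa using hxx, by simpa using h⟩
  set N : ℝ := 2 ^ (2 * n * (G * w')) with hN
  have hNpos : 0 < N := by positivity
  have hc := (card_le_card hcover).trans card_biUnion_le
  have hcard : ((univ : Finset (Fin (G * w') → Fin (2 * n) → Bool)).card : ℝ) = N := by
    rw [card_univ]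
    simp only [Fintype.card_pi, Fintype.card_bool, prod_const, card_univ, Fintype.card_fin]
    rw [← pow_mul, hN]
    push_cast
    rfl
  have hc' : N ≤ ∑ p ∈ (univ : Finset ((Fin n → Bool) × (Fin n → Bool))).filter (fun p => p.1 ≠ p.2),
      ((univ.filter fun α : Fin (G * w') → Fin (2 * n) → Bool =>
          2 * n ≤ (gcoll hm α p.1 p.2).card).card : ℝ) := by
    rw [← hcard]
    exact_mod_cast hc
  have h1 : N ≤ 2 ^ (2 * n) * (((m * G).choose (2 * n) : ℝ) * (N / 2 ^ (w' * (2 * n)))) := by
    refine hc'.trans ?_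
    calc ∑ p ∈ (univ : Finset ((Fin n → Bool) × (Fin n → Bool))).filter (fun p => p.1 ≠ p.2),
          ((univ.filter fun α : Fin (G * w') → Fin (2 * n) → Bool =>
          2 * n ≤ (gcoll hm α p.1 p.2).card).card : ℝ)
        ≤ ∑ p ∈ (univ : Finset ((Fin n → Bool) × (Fin n → Bool))).filter (fun p => p.1 ≠ p.2),
          (((m * G).choose (2 * n) : ℝ) * (N / 2 ^ (w' * (2 * n)))) :=
          Finset.sum_le_sum fun p hp => card_many_gcoll hm p.1 p.2 (mem_filter.1 hp).2 _
      _ ≤ ∑ _p : (Fin n → Bool) × (Fin n → Bool),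
          (((m * G).choose (2 * n) : ℝ) * (N / 2 ^ (w' * (2 * n)))) :=
          Finset.sum_le_sum_of_subset_of_nonneg (filter_subset _ _) fun _ _ _ => by positivity
      _ = _ := by
          simp only [sum_const, card_univ, Fintype.card_prod, Fintype.card_pi, Fintype.card_bool,
            prod_const, Fintype.card_fin, nsmul_eq_mul]
          push_cast
          rw [two_mul n, pow_add]
  have h2 := choose_le (m * G) (2 * n) (by omega)
  have hn' : (0 : ℝ) < n := by exact_mod_cast hn
  have hQ' : (0 : ℝ) < Q := by exact_mod_cast hQ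
  have hM' : ((m * G : ℕ) : ℝ) ≤ 8 * Q * n := by exact_mod_cast hM
  have hw2 : (32 : ℝ) * Q ≤ 2 ^ w' := by exact_mod_cast hw
  have h3 : Real.exp 1 * ((m * G : ℕ) : ℝ) / ((2 * n : ℕ) : ℝ) ≤ 11 * Q := by
    rw [div_le_iff₀ (by positivity)]
    push_cast
    push_cast at hM'
    have he := Real.exp_one_lt_d9
    have : Real.exp 1 ≤ 2.75 := by linarith
    calc Real.exp 1 * ((m : ℝ) * G) ≤ 2.75 * (8 * Q * n) := by
          apply mul_le_mul this hM' (by positivity) (by norm_num)
      _ = _ := by ring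
  have h4 : ((m * G).choose (2 * n) : ℝ) ≤ (11 * Q) ^ (2 * n) :=
    h2.trans (pow_le_pow_left₀ (by positivity) h3 _)
  have h5 : N ≤ ((22 * Q) ^ (2 * n) / (2 ^ w') ^ (2 * n)) * N := by
    calc N ≤ 2 ^ (2 * n) * (((m * G).choose (2 * n) : ℝ) * (N / 2 ^ (w' * (2 * n)))) := h1
      _ ≤ 2 ^ (2 * n) * ((11 * Q) ^ (2 * n) * (N / 2 ^ (w' * (2 * n)))) := by
          gcongr
      _ = _ := by
          rw [pow_mul 2 w' (2 * n)]
          have : (22 * (Q : ℝ)) = 2 * (11 * Q) := by ring
          rw [this, mul_pow 2 (11 * (Q : ℝ))]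
          ring
  have h6 : (22 * (Q : ℝ)) ^ (2 * n) / (2 ^ w') ^ (2 * n) < 1 := by
    rw [div_lt_one (by positivity)]
    apply pow_lt_pow_left₀ _ (by positivity) (by omega)
    linarith
  nlinarith

end Pool.Agent.KD.Hash
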