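import Pool.Agent.KD.Lower
import Pool.Agent.KD.Growth

/-! The choice of the parameters for deterministic programs. -/

namespace Pool.Agent.KD

open Pool.Agent.SemRO Pool.Agent.KNL
open Pool.Agent.KQL (hv xb)

/-- the bound for one block, for time `k n`, with constants `k ^ (O (k))` -/
def BlockOK : Prop :=
  ∃ B0 : ℕ → ℕ, KB B0 ∧ ∀ k : ℕ, 2 ≤ k → ∀ B n : ℕ, B0 k ≤ B → B0 k ≤ n → DbpB (5 * k) B n

/-- hash functions with parameters of polynomial size -/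
def HashPoly : Prop :=
  ∃ (Gf wf nf : ℕ → ℕ) (d : ℕ),
    (∀ s, 1 ≤ s → 1 ≤ Gf s ∧ 1 ≤ wf s ∧ Gf s ≤ (s + 1) ^ d ∧ 2 ^ wf s ≤ (s + 1) ^ d ∧
      nf s ≤ (s + 1) ^ d) ∧
    ∀ s, 1 ≤ s → ∀ n, nf s ≤ n → ∃ (α E C : ℕ → ℕ → Bool), ∀ σ : ℕ → ℕ,
      RectFree {x : Fin n → Bool |
        ∀ j, j < n / s → hv (Gf s * wf s) (Gf s * 2 ^ wf s) n α E C j (xb x) = σ j} (8 * s + 2)

/-- **The quantitative lower bound for deterministic programs.** -/
theorem quant_of (h1 : BlockOK) (h2 : HashPoly) : ∃ c : ℕ, ∀ k : ℕ, 2 ≤ k → ∀ N : ℕ, k ^ (c * k) ≤ N →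
    ∃ A : Finset (Fin N → Bool), A.Nonempty ∧
      (∀ y ∈ A, Pool.Agent.KQL.Lang (List.ofFn y)) ∧
      ∀ (V Γ : Type) [Fintype V] (P : SBP V Γ (Fin N)), Det P →
        (Fintype.card V : ℝ) ≤ (2 : ℝ) ^ ((N : ℝ) / (k : ℝ) ^ (c * k)) →
        (∀ y l, P.AccWalk y l → Pool.Agent.KQL.Lang (List.ofFn y)) →
        ∀ S ⊆ A, (∀ y ∈ S, ∃ l, P.AccWalk y l ∧ l.length ≤ k * N) →
          (S.card : ℝ) ≤ (2 : ℝ) ^ (-((N : ℝ) / (k : ℝ) ^ (c * k))) * A.card := by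
  classical
  obtain ⟨B0, hB0, hblock⟩ := h1
  obtain ⟨Gf, wf, nf, d, hpar, hhash⟩ := h2
  obtain ⟨B, hB⟩ : ∃ B : ℕ → ℕ, ∀ k, B k = B0 k + 1 := ⟨_, fun _ => rfl⟩
  obtain ⟨s, hs⟩ : ∃ s : ℕ → ℕ, ∀ k, s k = 4 * B k := ⟨_, fun _ => rfl⟩
  have hspos : ∀ k, 1 ≤ s k := fun k => by rw [hs, hB]; omega
  obtain ⟨w, hw⟩ : ∃ w : ℕ → ℕ, ∀ k, w k = Gf (s k) * wf (s k) := ⟨_, fun _ => rfl⟩
  obtain ⟨K, hK⟩ : ∃ K : ℕ → ℕ, ∀ k, K k = Gf (s k) * 2 ^ wf (s k) := ⟨_, fun _ => rfl⟩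
  obtain ⟨n1, hn1⟩ : ∃ n1 : ℕ → ℕ, ∀ k, n1 k = nf (s k) + (8 + (w k + K k + s k + 3)) +
    8 * B k * (2 * K k * w k) + (8 * s k + 2) * B k + B k := ⟨_, fun _ => rfl⟩
  obtain ⟨G, hG⟩ : ∃ G : ℕ → ℕ, ∀ k, G k = w k + K k + s k + 3 + 8 * K k * w k * n1 k :=
    ⟨_, fun _ => rfl⟩
  obtain ⟨Z, hZ⟩ : ∃ Z : ℕ → ℕ, ∀ k, Z k = 18 * B k * (2 * K k * w k) * (4 * B k + 1) :=
    ⟨_, fun _ => rfl⟩
  -- growth
  have hBK : KB B := (hB0.add (KB.const 1)).mono fun k _ => by rw [hB]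
  have hsK : KB s := ((KB.const 4).mul hBK).mono fun k _ => by rw [hs]
  have hs1K : KB (fun k => (s k + 1) ^ d) := (hsK.add (KB.const 1)).pow d
  have hwK : KB w := (hs1K.mul hs1K).mono fun k _ => by
    rw [hw]
    obtain ⟨_, _, h3, h4, _⟩ := hpar (s k) (hspos k)
    exact Nat.mul_le_mul h3 ((Nat.lt_two_pow_self).le.trans h4)
  have hKK : KB K := (hs1K.mul hs1K).mono fun k _ => by
    rw [hK]
    obtain ⟨_, _, h3, h4, _⟩ := hpar (s k) (hspos k)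
    exact Nat.mul_le_mul h3 h4
  have hnK : KB (fun k => nf (s k)) := hs1K.mono fun k _ => (hpar (s k) (hspos k)).2.2.2.2
  have hKwK : KB (fun k => 2 * K k * w k) := ((KB.const 2).mul hKK).mul hwK
  have hn1K : KB n1 := by
    have h3 := (((hwK.add hKK).add hsK).add (KB.const 3))
    have h5 : KB (fun k => 8 * B k * (2 * K k * w k)) := ((KB.const 8).mul hBK).mul hKwK
    have h6 : KB (fun k => (8 * s k + 2) * B k) := (((KB.const 8).mul hsK).add (KB.const 2)).mul hBK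
    exact (((((hnK.add ((KB.const 8).add h3))).add h5).add h6).add hBK).mono fun k _ => by rw [hn1]
  have hGK : KB G := by
    have h3 := (((hwK.add hKK).add hsK).add (KB.const 3))
    have h4 : KB (fun k => 8 * K k * w k * n1 k) := (((KB.const 8).mul hKK).mul hwK).mul hn1K
    exact (h3.add h4).mono fun k _ => by rw [hG]
  have hZK : KB Z := by
    have h3 : KB (fun k => 18 * B k * (2 * K k * w k)) := ((KB.const 18).mul hBK).mul hKwK
    exact (h3.mul (((KB.const 4).mul hBK).add (KB.const 1))).mono fun k _ => by rw [hZ]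
  obtain ⟨a1, ha1⟩ := hGK
  obtain ⟨a2, ha2⟩ := hZK
  refine ⟨2 * max a1 a2 + 1, fun k hk N hN => ?_⟩
  obtain ⟨a, ha⟩ : ∃ a, a = max a1 a2 := ⟨_, rfl⟩
  have hGa : G k ≤ k ^ (a * k) := by
    rw [ha]; exact (ha1 k hk).trans (kk_mono hk (le_max_left a1 a2))
  have hZa : Z k ≤ k ^ (a * k) := by
    rw [ha]; exact (ha2 k hk).trans (kk_mono hk (le_max_right a1 a2))
  rw [← ha] at hN ⊢
  have hk1 : 1 ≤ k := by omega
  have hkk : 2 ≤ k ^ k := by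
    calc 2 ≤ k := hk
      _ = k ^ 1 := (pow_one k).symm
      _ ≤ k ^ k := Nat.pow_le_pow_right hk1 hk1
  have hpow : 2 * (k ^ (a * k)) ^ 2 ≤ k ^ ((2 * a + 1) * k) := by
    have e : k ^ ((2 * a + 1) * k) = k ^ k * (k ^ (a * k)) ^ 2 := by
      rw [← pow_mul, ← pow_add]; congr 1; ring
    rw [e]
    exact Nat.mul_le_mul_right _ hkk
  have hle : k ^ (a * k) ≤ k ^ ((2 * a + 1) * k) := kk_mono hk (by omega)
  have hNG : G k ≤ N := hGa.trans (hle.trans hN)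
  have hZN : 2 * (k ^ (a * k)) ^ 2 ≤ N := hpow.trans hN
  have hBpos : 1 ≤ B k := by rw [hB]; omega
  obtain ⟨hG1, hw1, _, _, _⟩ := hpar (s k) (hspos k)
  have hwpos : 1 ≤ w k := by rw [hw]; exact Nat.mul_le_mul hG1 hw1
  have hKpos : 1 ≤ K k := by
    rw [hK]; exact Nat.mul_le_mul hG1 (Nat.one_le_two_pow)
  obtain ⟨n, hn⟩ : ∃ n, n = (N - (w k + K k + s k + 3)) / (8 * K k * w k) := ⟨_, rfl⟩
  have hKwpos : 0 < 8 * K k * w k := by positivity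
  have hn1n : n1 k ≤ n := by
    rw [hn, Nat.le_div_iff_mul_le hKwpos]
    have e : n1 k * (8 * K k * w k) = 8 * K k * w k * n1 k := by ring
    have := hG k
    omega
  have hn1k := hn1 k
  have hhash' := hhash (s k) (hspos k) n (by omega)
  rw [← hw, ← hK] at hhash'
  have hcore : DbpB (5 * k) (B k) n := hblock k hk (B k) n (by rw [hB]; omega) (by
    have := hB k
    omega)
  obtain ⟨A, hA, hAL, hA2⟩ := lower_one_det (N := N) (w := w k) (K := K k) (s := s k) (n := n)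
    (m := n / s k) (k := k) (B := B k) (t := 8 * s k + 2) (Z := k ^ (a * k)) hBpos (hs k).ge hwpos hKpos
    hn rfl hcore hhash' (by omega) (by omega) (by omega) (by rw [← hZ]; exact hZa) hZN
  have hcast : (((k ^ (a * k) : ℕ)) : ℝ) = (k : ℝ) ^ (a * k) := by push_cast; rfl
  rw [hcast] at hA2
  have hkr : (1 : ℝ) ≤ k := by exact_mod_cast hk1
  have hmono : (N : ℝ) / (k : ℝ) ^ ((2 * a + 1) * k) ≤ (N : ℝ) / (k : ℝ) ^ (a * k) :=
    div_le_div_of_nonneg_left (Nat.cast_nonneg _) (by positivity)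
      (pow_le_pow_right₀ hkr (Nat.mul_le_mul_right _ (by omega)))
  refine ⟨A, hA, hAL, fun V Γ _ P hdet hV hP S hS hSl => ?_⟩
  have h1 := hA2 V Γ P hdet (hV.trans (Real.rpow_le_rpow_of_exponent_le (by norm_num) hmono)) hP S hS hSl
  refine h1.trans (mul_le_mul_of_nonneg_right ?_ (Nat.cast_nonneg _))
  exact Real.rpow_le_rpow_of_exponent_le (by norm_num) (by linarith)

/-- one block from the core theorem -/
theorem blockOK_of
    (hdbp : ∀ {k R B1 B n : ℕ}, 2 ≤ R → R ≤ B1 → B1 ≤ B → B1 ≤ n →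
      DCore (4 * k + 4) R (1 / (B1 : ℝ)) n → DbpB k B n)
    (hcore : ∀ k : ℕ, 1 ≤ k → ∀ n : ℕ, Bcore k ≤ n →
      DCore k (2 ^ (12 + 4 * Nat.clog 2 k)) (1 / (Bcore k : ℝ)) n) : BlockOK := by
  refine ⟨fun k => Bcore (20 * k + 4), Bcore_KB 20 4, fun k _ B n hB hn => ?_⟩
  have e : 4 * (5 * k) + 4 = 20 * k + 4 := by ring
  refine hdbp (R := 2 ^ (12 + 4 * Nat.clog 2 (20 * k + 4))) (B1 := Bcore (20 * k + 4)) ?_ ?_ hB hn ?_
  · calc 2 = 2 ^ 1 := by norm_num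
      _ ≤ _ := Nat.pow_le_pow_right (by norm_num) (by omega)
  · unfold Bcore
    apply Nat.pow_le_pow_right (by norm_num)
    have : 1 * (12 + 4 * Nat.clog 2 (20 * k + 4)) ≤ 4 * (20 * k + 4) * (12 + 4 * Nat.clog 2 (20 * k + 4)) :=
      Nat.mul_le_mul_right _ (by omega)
    omega
  · rw [e]
    exact hcore (20 * k + 4) (by omega) n hn

end Pool.Agent.KD
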