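import Pool.Agent.KD.Count

/-! The parts of the core theorem: private variables, rich pairs, sets unread by few players,
the mixing step. -/

namespace Pool.Agent.KD

open Finset Pool.Agent.SemRO

variable {n R : ℕ}

open Classical in
/-- the variables that no certificate off `J` reads -/
noncomputable def Kv (c : Fin R → (Fin n → Bool) → Fin n → Option Bool) (J : Finset (Fin R))
    (z : Fin n → Bool) : Finset (Fin n) :=
  univ.filter (fun i => ∀ j, j ∉ J → i ∉ dom (c j z))

variable {c : Fin R → (Fin n → Bool) → Fin n → Option Bool} {J : Finset (Fin R)}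

lemma mem_Kv {z : Fin n → Bool} {i : Fin n} : i ∈ Kv c J z ↔ ∀ j, j ∉ J → i ∉ dom (c j z) := by
  unfold Kv
  rw [Finset.mem_filter]
  exact ⟨fun h => h.2, fun h => ⟨Finset.mem_univ _, h⟩⟩

/-- at least half of the variables have at most `2 k` readers -/
lemma half_readers {k : ℕ} (hR : 0 < R) (d : Fin R → Finset (Fin n)) (hd : ∀ j, (d j).card * R ≤ k * n)
    [DecidablePred fun i : Fin n => (univ.filter fun j => i ∈ d j).card ≤ 2 * k] :
    n ≤ 2 * (univ.filter fun i : Fin n => (univ.filter fun j => i ∈ d j).card ≤ 2 * k).card := by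
  classical
  have h1 : ∑ i : Fin n, (univ.filter fun j => i ∈ d j).card = ∑ j : Fin R, (d j).card := by
    have e1 : ∀ i : Fin n, (univ.filter fun j => i ∈ d j).card = ∑ j : Fin R, if i ∈ d j then 1 else 0 := by
      intro i
      rw [Finset.card_filter]
    rw [Finset.sum_congr rfl fun i _ => e1 i, Finset.sum_comm]
    refine Finset.sum_congr rfl fun j _ => ?_
    rw [← Finset.card_filter]
    congr 1
    ext i
    simp
  have h2 : (∑ j : Fin R, (d j).card) ≤ k * n := by
    have h3 : (∑ j : Fin R, (d j).card) * R ≤ (k * n) * R := by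
      rw [Finset.sum_mul]
      calc ∑ j : Fin R, (d j).card * R ≤ ∑ _j : Fin R, k * n := Finset.sum_le_sum fun j _ => hd j
        _ = (k * n) * R := by rw [Finset.sum_const, Finset.card_univ, Fintype.card_fin, smul_eq_mul, mul_comm]
    exact Nat.le_of_mul_le_mul_right h3 hR
  set G := univ.filter fun i : Fin n => (univ.filter fun j => i ∈ d j).card ≤ 2 * k with hG
  have h4 : (2 * k + 1) * (univ.filter fun i : Fin n => ¬ (univ.filter fun j => i ∈ d j).card ≤ 2 * k).card
      ≤ k * n := by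
    refine le_trans ?_ (h1.le.trans h2)
    rw [mul_comm, ← smul_eq_mul]
    refine le_trans (Finset.card_nsmul_le_sum _ (fun i => (univ.filter fun j => i ∈ d j).card) _ ?_)
      (Finset.sum_le_sum_of_subset (Finset.filter_subset _ _))
    intro i hi
    have := (Finset.mem_filter.1 hi).2
    push Not at this
    exact this
  have h5 : G.card + (univ.filter fun i : Fin n => ¬ (univ.filter fun j => i ∈ d j).card ≤ 2 * k).card = n := by
    rw [hG, Finset.card_filter_add_card_filter_not, Finset.card_univ, Fintype.card_fin]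
  set Bc := (univ.filter fun i : Fin n => ¬ (univ.filter fun j => i ∈ d j).card ≤ 2 * k).card
  by_contra hcon
  push Not at hcon
  have h6 : n + 1 ≤ 2 * Bc := by omega
  have h7 : (2 * k + 1) * (n + 1) ≤ 2 * (k * n) := by
    calc (2 * k + 1) * (n + 1) ≤ (2 * k + 1) * (2 * Bc) := Nat.mul_le_mul_left _ h6
      _ = 2 * ((2 * k + 1) * Bc) := by ring
      _ ≤ 2 * (k * n) := Nat.mul_le_mul_left _ h4
  nlinarith

/-- **Private variables** (1.1). -/
theorem exists_private {k : ℕ} (hR : 0 < R) (hk : 2 * k ≤ R)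
    (c : Fin R → (Fin n → Bool) → Fin n → Option Bool) (W : Finset (Fin n → Bool))
    (hdom : ∀ z ∈ W, ∀ j, (dom (c j z)).card * R ≤ k * n) :
    ∃ J : Finset (Fin R), J.card = 2 * k ∧
      W.card * n ≤ 2 * R ^ (2 * k) * ∑ z ∈ W, (Kv c J z).card := by
  classical
  have h1 : ∀ z ∈ W, n ≤ 2 * ∑ J ∈ (univ : Finset (Fin R)).powersetCard (2 * k), (Kv c J z).card := by
    intro z hz
    refine (half_readers hR (fun j => dom (c j z)) (hdom z hz)).trans (Nat.mul_le_mul_left _ ?_)
    have e1 : ∑ J ∈ (univ : Finset (Fin R)).powersetCard (2 * k), (Kv c J z).card =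
        ∑ i : Fin n, (((univ : Finset (Fin R)).powersetCard (2 * k)).filter
          (fun J => ∀ j, j ∉ J → i ∉ dom (c j z))).card := by
      have e2 : ∀ J : Finset (Fin R), (Kv c J z).card =
          ∑ i : Fin n, if (∀ j, j ∉ J → i ∉ dom (c j z)) then 1 else 0 := by
        intro J
        unfold Kv
        rw [Finset.card_filter]
      rw [Finset.sum_congr rfl fun J _ => e2 J, Finset.sum_comm]
      refine Finset.sum_congr rfl fun i _ => ?_
      rw [Finset.card_filter]
    rw [e1, Finset.card_filter]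
    refine Finset.sum_le_sum fun i _ => ?_
    split_ifs with hi
    · rw [Nat.one_le_iff_ne_zero, Finset.card_ne_zero]
      obtain ⟨J, hJ1, _, hJ3⟩ := Finset.exists_subsuperset_card_eq
        (Finset.subset_univ (univ.filter fun j => i ∈ dom (c j z))) hi
        (by rw [Finset.card_univ, Fintype.card_fin]; exact hk)
      refine ⟨J, Finset.mem_filter.2 ⟨Finset.mem_powersetCard.2 ⟨Finset.subset_univ _, hJ3⟩, ?_⟩⟩
      intro j hj h
      exact hj (hJ1 (Finset.mem_filter.2 ⟨Finset.mem_univ _, h⟩))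
    · exact Nat.zero_le _
  obtain ⟨J, hJ, hmax⟩ := Finset.exists_max_image ((univ : Finset (Fin R)).powersetCard (2 * k))
    (fun J => ∑ z ∈ W, (Kv c J z).card)
    (Finset.powersetCard_nonempty.2 (by rw [Finset.card_univ, Fintype.card_fin]; exact hk))
  refine ⟨J, (Finset.mem_powersetCard.1 hJ).2, ?_⟩
  calc W.card * n = ∑ _z ∈ W, n := by rw [Finset.sum_const, smul_eq_mul]
    _ ≤ ∑ z ∈ W, 2 * ∑ J ∈ (univ : Finset (Fin R)).powersetCard (2 * k), (Kv c J z).card :=
        Finset.sum_le_sum h1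
    _ = 2 * ∑ J ∈ (univ : Finset (Fin R)).powersetCard (2 * k), ∑ z ∈ W, (Kv c J z).card := by
        rw [← Finset.mul_sum, Finset.sum_comm]
    _ ≤ 2 * (((univ : Finset (Fin R)).powersetCard (2 * k)).card * ∑ z ∈ W, (Kv c J z).card) := by
        refine Nat.mul_le_mul_left _ ?_
        exact (Finset.sum_le_card_nsmul _ _ _ hmax).trans (by rw [smul_eq_mul])
    _ ≤ 2 * (R ^ (2 * k) * ∑ z ∈ W, (Kv c J z).card) := by
        refine Nat.mul_le_mul_left _ (Nat.mul_le_mul_right _ ?_)
        rw [Finset.card_powersetCard, Finset.card_univ, Fintype.card_fin]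
        exact Nat.choose_le_pow _ _
    _ = _ := by ring

/-- many points have many private variables -/
lemma many_private {Q m0 : ℕ} (hn : 0 < n) (W : Finset (Fin n → Bool))
    (h : W.card * n ≤ 2 * Q * ∑ z ∈ W, (Kv c J z).card) (hm : 4 * Q * m0 ≤ n)
    [DecidablePred fun z => m0 ≤ (Kv c J z).card] :
    W.card ≤ 4 * Q * (W.filter fun z => m0 ≤ (Kv c J z).card).card := by
  classical
  have h1 : ∑ z ∈ W, (Kv c J z).card ≤
      (W.filter fun z => m0 ≤ (Kv c J z).card).card * n + W.card * m0 := by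
    calc ∑ z ∈ W, (Kv c J z).card ≤ ∑ z ∈ W, ((if m0 ≤ (Kv c J z).card then n else 0) + m0) := by
          refine Finset.sum_le_sum fun z _ => ?_
          split_ifs with hz
          · exact le_trans (Finset.card_le_univ _) (by rw [Fintype.card_fin]; omega)
          · push Not at hz
            omega
      _ = _ := by
          rw [Finset.sum_add_distrib, ← Finset.sum_filter, Finset.sum_const, Finset.sum_const, smul_eq_mul,
            smul_eq_mul]
  set w := (W.filter fun z => m0 ≤ (Kv c J z).card).card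
  have h2 : W.card * n ≤ 2 * Q * (w * n + W.card * m0) := h.trans (Nat.mul_le_mul_left _ h1)
  have h3 : 2 * (2 * Q * (W.card * m0)) ≤ W.card * n := by
    calc 2 * (2 * Q * (W.card * m0)) = W.card * (4 * Q * m0) := by ring
      _ ≤ W.card * n := Nat.mul_le_mul_left _ hm
  have h4 : W.card * n ≤ (4 * Q * w) * n := by nlinarith
  exact Nat.le_of_mul_le_mul_right h4 hn

/-- **No loss of entropy** (1.2): one point determines the private variables. -/
lemma Kv_eq {W : Finset (Fin n → Bool)} (hsub : ∀ z ∈ W, ∀ j, Sub (c j z) z)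
    (hdet : ∀ j, ∀ z ∈ W, ∀ z' ∈ W, Compat (c j z) (c j z') → c j z = c j z')
    {z z' y : Fin n → Bool} (hz : z ∈ W) (hz' : z' ∈ W) {T T' : Finset (Fin n)}
    (hT : T ⊆ Kv c J z) (hT' : T' ⊆ Kv c J z') (hy : y ∈ cube T z) (hy' : y ∈ cube T' z') :
    Kv c J z = Kv c J z' := by
  have key : ∀ {z : Fin n → Bool} {T : Finset (Fin n)}, z ∈ W → T ⊆ Kv c J z → y ∈ cube T z →
      ∀ j, j ∉ J → Sub (c j z) y := by
    intro z T hz hT hy j hj i b hb
    have hi : i ∈ dom (c j z) := mem_dom.2 (by rw [hb]; simp)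
    have hiT : i ∉ T := fun h => mem_Kv.1 (hT h) j hj hi
    rw [mem_cube.1 hy i hiT]
    exact hsub z hz j i b hb
  have h1 : ∀ j, j ∉ J → c j z = c j z' := by
    intro j hj
    refine hdet j z hz z' hz' fun i b b' hb hb' => ?_
    rw [← key hz hT hy j hj i b hb, ← key hz' hT' hy' j hj i b' hb']
  ext i
  rw [mem_Kv, mem_Kv]
  exact ⟨fun h j hj => by rw [← h1 j hj]; exact h j hj, fun h j hj => by rw [h1 j hj]; exact h j hj⟩

open Classical in
/-- the points of `W'` in the class of `z` -/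
noncomputable def X0 (W' : Finset (Fin n → Bool)) (T1 : Finset (Fin n)) (z : Fin n → Bool) :
    Finset (Fin n → Bool) :=
  W'.filter (fun x => x ∈ cube T1 z)

lemma mem_X0 {W' : Finset (Fin n → Bool)} {T1 : Finset (Fin n)} {z x : Fin n → Bool} :
    x ∈ X0 W' T1 z ↔ x ∈ W' ∧ ∀ i, i ∉ T1 → x i = z i := by
  unfold X0
  rw [Finset.mem_filter, mem_cube]

open Classical in
/-- the rich points for `T1` -/
noncomputable def Rich (c : Fin R → (Fin n → Bool) → Fin n → Option Bool) (J : Finset (Fin R))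
    (W' : Finset (Fin n → Bool)) (m0 ρ : ℕ) (T1 : Finset (Fin n)) : Finset (Fin n → Bool) :=
  W'.filter (fun z => T1 ⊆ sel m0 (Kv c J z) ∧ ρ < (X0 W' T1 z).card)

/-- **Half of the pairs are rich** (1.2). -/
theorem rich_half {W W' : Finset (Fin n → Bool)} (hWW : W' ⊆ W) (hsub : ∀ z ∈ W, ∀ j, Sub (c j z) z)
    (hdet : ∀ j, ∀ z ∈ W, ∀ z' ∈ W, Compat (c j z) (c j z') → c j z = c j z') {m0 t1 ρ : ℕ}
    (hm : ∀ z ∈ W', m0 ≤ (Kv c J z).card) (hρ : 2 * ρ * 2 ^ n ≤ 2 ^ t1 * W'.card) :
    W'.card * m0.choose t1 ≤ 2 * ∑ T1 ∈ (univ : Finset (Fin n)).powersetCard t1, (Rich c J W' m0 ρ T1).card := by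
  classical
  set PC := (univ : Finset (Fin n)).powersetCard t1 with hPC
  set K : (Fin n → Bool) → Finset (Fin n) := fun z => sel m0 (Kv c J z) with hK
  have hKK : ∀ z, K z ⊆ Kv c J z := fun z => sel_subset _ _
  set tot : Finset (Fin n) → Finset (Fin n → Bool) := fun T1 => W'.filter (fun z => T1 ⊆ K z) with htot
  set poor : Finset (Fin n) → Finset (Fin n → Bool) :=
    fun T1 => (tot T1).filter (fun z => (X0 W' T1 z).card ≤ ρ) with hpoor
  set Yt : Finset (Fin n) → Finset (Fin n → Bool) :=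
    fun T1 => univ.filter (fun y => ∃ z ∈ W', T1 ⊆ K z ∧ y ∈ cube T1 z) with hYt
  -- the total
  have h1 : ∑ T1 ∈ PC, (tot T1).card = W'.card * m0.choose t1 := by
    have e1 : ∀ T1, (tot T1).card = ∑ z ∈ W', if T1 ⊆ K z then 1 else 0 := by
      intro T1
      rw [htot]
      rw [Finset.card_filter]
    rw [Finset.sum_congr rfl fun T1 _ => e1 T1, Finset.sum_comm]
    have e2 : ∀ z ∈ W', (∑ T1 ∈ PC, if T1 ⊆ K z then 1 else 0) = m0.choose t1 := by
      intro z hz
      rw [← Finset.card_filter]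
      have e3 : PC.filter (fun T1 => T1 ⊆ K z) = (K z).powersetCard t1 := by
        ext T
        rw [Finset.mem_filter, hPC, Finset.mem_powersetCard, Finset.mem_powersetCard]
        exact ⟨fun h => ⟨h.2, h.1.2⟩, fun h => ⟨⟨Finset.subset_univ _, h.2⟩, h.1⟩⟩
      rw [e3, Finset.card_powersetCard, hK]
      simp only
      rw [card_sel (hm z hz)]
    rw [Finset.sum_congr rfl e2, Finset.sum_const, smul_eq_mul]
  -- the poor points for one `T1`
  have h2 : ∀ T1 ∈ PC, (poor T1).card * 2 ^ t1 ≤ ρ * (Yt T1).card := by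
    intro T1 hT1
    have hc : T1.card = t1 := (Finset.mem_powersetCard.1 hT1).2
    rw [← hc]
    refine small_classes T1 W' (poor T1) (Yt T1) ρ ?_ ?_ ?_
    · exact (Finset.filter_subset _ _).trans (Finset.filter_subset _ _)
    · intro z hz
      have := (Finset.mem_filter.1 hz).2
      unfold X0 at this
      convert this using 2
    · intro z hz y hy
      obtain ⟨hz1, hz2⟩ := Finset.mem_filter.1 (Finset.mem_filter.1 hz).1
      exact Finset.mem_filter.2 ⟨Finset.mem_univ _, z, hz1, hz2, hy⟩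
  -- the total size of the sets `Yt`
  have h3 : ∑ T1 ∈ PC, (Yt T1).card ≤ 2 ^ n * m0.choose t1 := by
    have e1 : ∀ T1, (Yt T1).card = ∑ y : Fin n → Bool, if (∃ z ∈ W', T1 ⊆ K z ∧ y ∈ cube T1 z) then 1 else 0 := by
      intro T1
      rw [hYt]
      rw [Finset.card_filter]
    rw [Finset.sum_congr rfl fun T1 _ => e1 T1, Finset.sum_comm]
    have e2 : ∀ y : Fin n → Bool,
        (∑ T1 ∈ PC, if (∃ z ∈ W', T1 ⊆ K z ∧ y ∈ cube T1 z) then 1 else 0) ≤ m0.choose t1 := by
      intro y
      rw [← Finset.card_filter]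
      rcases (PC.filter fun T1 => ∃ z ∈ W', T1 ⊆ K z ∧ y ∈ cube T1 z).eq_empty_or_nonempty with h | ⟨T0, hT0⟩
      · rw [h, Finset.card_empty]
        exact Nat.zero_le _
      · obtain ⟨_, z0, hz0, hT0K, hy0⟩ := Finset.mem_filter.1 hT0
        have e3 : (PC.filter fun T1 => ∃ z ∈ W', T1 ⊆ K z ∧ y ∈ cube T1 z) ⊆ (K z0).powersetCard t1 := by
          intro T1 hT1
          obtain ⟨h4, z1, hz1, hT1K, hy1⟩ := Finset.mem_filter.1 hT1
          have h5 : Kv c J z1 = Kv c J z0 :=
            Kv_eq hsub hdet (hWW hz1) (hWW hz0) (hT1K.trans (hKK _)) (hT0K.trans (hKK _)) hy1 hy0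
          refine Finset.mem_powersetCard.2 ⟨?_, (Finset.mem_powersetCard.1 h4).2⟩
          rw [hK] at hT1K ⊢
          simp only at hT1K ⊢
          rw [← h5]
          exact hT1K
        refine (Finset.card_le_card e3).trans ?_
        rw [Finset.card_powersetCard, hK]
        simp only
        rw [card_sel (hm z0 hz0)]
    calc ∑ y : Fin n → Bool, (∑ T1 ∈ PC, if (∃ z ∈ W', T1 ⊆ K z ∧ y ∈ cube T1 z) then 1 else 0)
        ≤ ∑ _y : Fin n → Bool, m0.choose t1 := Finset.sum_le_sum fun y _ => e2 y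
      _ = 2 ^ n * m0.choose t1 := by
          rw [Finset.sum_const, smul_eq_mul, Finset.card_univ, Fintype.card_fun, Fintype.card_bool,
            Fintype.card_fin]
  have h4 : (∑ T1 ∈ PC, (poor T1).card) * 2 ^ t1 ≤ ρ * (2 ^ n * m0.choose t1) := by
    rw [Finset.sum_mul]
    calc ∑ T1 ∈ PC, (poor T1).card * 2 ^ t1 ≤ ∑ T1 ∈ PC, ρ * (Yt T1).card := Finset.sum_le_sum h2
      _ = ρ * ∑ T1 ∈ PC, (Yt T1).card := by rw [Finset.mul_sum]
      _ ≤ _ := Nat.mul_le_mul_left _ h3
  have h5 : 2 * (∑ T1 ∈ PC, (poor T1).card) ≤ W'.card * m0.choose t1 := by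
    have : (2 * (∑ T1 ∈ PC, (poor T1).card)) * 2 ^ t1 ≤ (W'.card * m0.choose t1) * 2 ^ t1 := by
      calc (2 * (∑ T1 ∈ PC, (poor T1).card)) * 2 ^ t1 = 2 * ((∑ T1 ∈ PC, (poor T1).card) * 2 ^ t1) := by ring
        _ ≤ 2 * (ρ * (2 ^ n * m0.choose t1)) := Nat.mul_le_mul_left _ h4
        _ = (2 * ρ * 2 ^ n) * m0.choose t1 := by ring
        _ ≤ (2 ^ t1 * W'.card) * m0.choose t1 := Nat.mul_le_mul_right _ hρ
        _ = _ := by ring
    exact Nat.le_of_mul_le_mul_right this (by positivity)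
  have h6 : ∀ T1, (tot T1).card = (poor T1).card + (Rich c J W' m0 ρ T1).card := by
    intro T1
    have e1 : Rich c J W' m0 ρ T1 = (tot T1).filter (fun z => ¬ (X0 W' T1 z).card ≤ ρ) := by
      ext z
      unfold Rich
      simp only [htot, hK, Finset.mem_filter, not_le]
      tauto
    rw [e1, hpoor]
    exact (Finset.card_filter_add_card_filter_not _).symm
  rw [Finset.sum_congr rfl fun T1 _ => h6 T1, Finset.sum_add_distrib] at h1
  omega

open Classical in
/-- the points of the class of `z` for which `T2` is unread by the players in `J` -/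
noncomputable def X1 (c : Fin R → (Fin n → Bool) → Fin n → Option Bool) (J : Finset (Fin R))
    (W' : Finset (Fin n → Bool)) (T1 T2 : Finset (Fin n)) (z : Fin n → Bool) : Finset (Fin n → Bool) :=
  (X0 W' T1 z).filter (fun x => ∀ j ∈ J, ∀ i ∈ T2, i ∉ dom (c j x))

/-- **Sets unread by few players** (1.3). -/
theorem good_T2 {W' : Finset (Fin n → Bool)} {L q e a t1 t2 : ℕ} {z : Fin n → Bool} {T1 : Finset (Fin n)}
    (hT1 : T1.card = t1) (ha : ∀ x ∈ W', (J.biUnion fun j => dom (c j x)).card ≤ a) (hq : 1 ≤ q)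
    (h : 2 * q * a + t2 ≤ n - t1) (ht : t2 ≤ e * q) (hrich : 2 ^ (e + 1) * L < (X0 W' T1 z).card)
    [DecidablePred fun T2 => L ≤ (X1 c J W' T1 T2 z).card] :
    (n - t1).choose t2 ≤ 2 ^ (e + 1) *
      ((T1ᶜ.powersetCard t2).filter (fun T2 => L ≤ (X1 c J W' T1 T2 z).card)).card := by
  classical
  set PC := T1ᶜ.powersetCard t2 with hPC
  have hPCc : PC.card = (n - t1).choose t2 := by
    rw [hPC, Finset.card_powersetCard, Finset.card_compl, Fintype.card_fin, hT1]
  set N2 := (n - t1).choose t2 with hN2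
  set X := X0 W' T1 z with hX
  set good := PC.filter (fun T2 => L ≤ (X1 c J W' T1 T2 z).card) with hgood
  have hsp : N2 ≤ 2 ^ e * ((n - t1) - a).choose t2 := choose_sparse hq h ht
  have h1 : ∀ x ∈ X, ((n - t1) - a).choose t2 ≤
      (PC.filter (fun T2 => ∀ j ∈ J, ∀ i ∈ T2, i ∉ dom (c j x))).card := by
    intro x hx
    have hsubs : (T1ᶜ \ J.biUnion (fun j => dom (c j x))).powersetCard t2 ⊆
        PC.filter (fun T2 => ∀ j ∈ J, ∀ i ∈ T2, i ∉ dom (c j x)) := by
      intro T hT
      obtain ⟨hTa, hTb⟩ := Finset.mem_powersetCard.mp hT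
      rw [Finset.mem_filter, hPC, Finset.mem_powersetCard]
      refine ⟨⟨hTa.trans Finset.sdiff_subset, hTb⟩, fun j hj i hi hd => ?_⟩
      exact (Finset.mem_sdiff.mp (hTa hi)).2 (Finset.mem_biUnion.2 ⟨j, hj, hd⟩)
    refine le_trans ?_ (Finset.card_le_card hsubs)
    rw [Finset.card_powersetCard]
    apply Nat.choose_le_choose
    have e1 := Finset.le_card_sdiff (J.biUnion (fun j => dom (c j x))) T1ᶜ
    rw [Finset.card_compl, Fintype.card_fin, hT1] at e1
    have e2 := ha x (mem_X0.1 hx).1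
    omega
  have h2 : ∑ T2 ∈ PC, (X1 c J W' T1 T2 z).card =
      ∑ x ∈ X, (PC.filter (fun T2 => ∀ j ∈ J, ∀ i ∈ T2, i ∉ dom (c j x))).card := by
    have e1 : ∀ T2, (X1 c J W' T1 T2 z).card =
        ∑ x ∈ X, if (∀ j ∈ J, ∀ i ∈ T2, i ∉ dom (c j x)) then 1 else 0 := by
      intro T2
      unfold X1
      rw [Finset.card_filter]
    rw [Finset.sum_congr rfl fun T2 _ => e1 T2, Finset.sum_comm]
    refine Finset.sum_congr rfl fun x _ => ?_
    rw [Finset.card_filter]
  have h3 : X.card * ((n - t1) - a).choose t2 ≤ ∑ T2 ∈ PC, (X1 c J W' T1 T2 z).card := by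
    rw [h2, ← smul_eq_mul]
    exact Finset.card_nsmul_le_sum _ _ _ h1
  have h4 : ∑ T2 ∈ PC, (X1 c J W' T1 T2 z).card ≤ good.card * X.card + N2 * L := by
    calc ∑ T2 ∈ PC, (X1 c J W' T1 T2 z).card
        ≤ ∑ T2 ∈ PC, ((if L ≤ (X1 c J W' T1 T2 z).card then X.card else 0) + L) := by
          refine Finset.sum_le_sum fun T2 _ => ?_
          have hle : (X1 c J W' T1 T2 z).card ≤ X.card := by
            unfold X1
            exact Finset.card_le_card (Finset.filter_subset _ _)
          split_ifs with h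
          · omega
          · push Not at h
            omega
      _ = _ := by
          rw [Finset.sum_add_distrib, ← Finset.sum_filter, Finset.sum_const, Finset.sum_const, smul_eq_mul,
            smul_eq_mul, hPCc]
  have h5 : X.card * N2 ≤ 2 ^ e * (good.card * X.card + N2 * L) := by
    calc X.card * N2 ≤ X.card * (2 ^ e * ((n - t1) - a).choose t2) := Nat.mul_le_mul_left _ hsp
      _ = 2 ^ e * (X.card * ((n - t1) - a).choose t2) := by ring
      _ ≤ 2 ^ e * (good.card * X.card + N2 * L) := Nat.mul_le_mul_left _ (h3.trans h4)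
  have hpos : 0 < X.card := lt_of_le_of_lt (Nat.zero_le _) hrich
  have h6 : 2 * (2 ^ e * (N2 * L)) ≤ X.card * N2 := by
    calc 2 * (2 ^ e * (N2 * L)) = (2 ^ (e + 1) * L) * N2 := by ring
      _ ≤ X.card * N2 := Nat.mul_le_mul_right _ hrich.le
  have h7 : X.card * N2 ≤ X.card * (2 ^ (e + 1) * good.card) := by
    have : 2 * (X.card * N2) ≤ 2 * (2 ^ e * (good.card * X.card)) + X.card * N2 := by
      calc 2 * (X.card * N2) ≤ 2 * (2 ^ e * (good.card * X.card + N2 * L)) := Nat.mul_le_mul_left _ h5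
        _ = 2 * (2 ^ e * (good.card * X.card)) + 2 * (2 ^ e * (N2 * L)) := by ring
        _ ≤ _ := Nat.add_le_add_left h6 _
    calc X.card * N2 ≤ 2 * (2 ^ e * (good.card * X.card)) := by omega
      _ = _ := by ring
  exact Nat.le_of_mul_le_mul_left h7 hpos

open Classical in
/-- the points for which no certificate off `J` reads `T1` -/
noncomputable def V1 (c : Fin R → (Fin n → Bool) → Fin n → Option Bool) (J : Finset (Fin R))
    (W : Finset (Fin n → Bool)) (T1 : Finset (Fin n)) : Finset (Fin n → Bool) :=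
  W.filter (fun y => T1 ⊆ Kv c J y)

open Classical in
/-- the points of `V1` that agree with `z` off `T2` -/
noncomputable def Y1 (c : Fin R → (Fin n → Bool) → Fin n → Option Bool) (J : Finset (Fin R))
    (W : Finset (Fin n → Bool)) (T1 T2 : Finset (Fin n)) (z : Fin n → Bool) : Finset (Fin n → Bool) :=
  (V1 c J W T1).filter (fun y => y ∈ cube T2 z)

/-- **Mixing** (1.5). -/
lemma mix_mem {W W' : Finset (Fin n → Bool)} (hWW : W' ⊆ W) (hsub : ∀ z ∈ W, ∀ j, Sub (c j z) z)
    {F : Set (Fin n → Bool)} (hclosed : ∀ u, (∀ j, ∃ w ∈ W, Sub (c j w) u) → u ∈ F)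
    {T1 T2 : Finset (Fin n)} {z x y : Fin n → Bool} (hx : x ∈ X1 c J W' T1 T2 z)
    (hy : y ∈ Y1 c J W T1 T2 z) : mix T1 x y ∈ F := by
  classical
  unfold X1 at hx
  unfold Y1 V1 at hy
  obtain ⟨hx1, hx2⟩ := Finset.mem_filter.1 hx
  obtain ⟨hxW, hxz⟩ := mem_X0.1 hx1
  obtain ⟨hy1, hy2⟩ := Finset.mem_filter.1 hy
  obtain ⟨hyW, hyT⟩ := Finset.mem_filter.1 hy1
  have hyz := mem_cube.1 hy2
  apply hclosed
  intro j
  by_cases hj : j ∈ J
  · refine ⟨x, hWW hxW, ?_⟩
    intro i b hb
    have hi : i ∈ dom (c j x) := by rw [mem_dom, hb]; simp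
    have hi2 : i ∉ T2 := fun h => hx2 j hj i h hi
    unfold mix
    split_ifs with h1
    · exact hsub x (hWW hxW) j i b hb
    · rw [hyz i hi2, ← hxz i h1]
      exact hsub x (hWW hxW) j i b hb
  · refine ⟨y, hyW, ?_⟩
    intro i b hb
    have hi : i ∈ dom (c j y) := by rw [mem_dom, hb]; simp
    have hi1 : i ∉ T1 := fun h => mem_Kv.1 (hyT h) j hj hi
    rw [mix, if_neg hi1]
    exact hsub y hyW j i b hb

lemma rect_small {W W' : Finset (Fin n → Bool)} (hWW : W' ⊆ W) (hsub : ∀ z ∈ W, ∀ j, Sub (c j z) z)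
    {F : Set (Fin n → Bool)} (hclosed : ∀ u, (∀ j, ∃ w ∈ W, Sub (c j w) u) → u ∈ F) {L : ℕ}
    (hR : RectFree F L) {T1 T2 : Finset (Fin n)} (hT : ∀ i ∈ T2, i ∉ T1) (z : Fin n → Bool)
    (hX : L ≤ (X1 c J W' T1 T2 z).card) : (Y1 c J W T1 T2 z).card < L := by
  classical
  by_contra hcon
  push Not at hcon
  obtain ⟨u, hu1, hu2⟩ := exists_distinct (X1 c J W' T1 T2 z) id L (by simpa using hX)
  obtain ⟨v, hv1, hv2⟩ := exists_distinct (Y1 c J W T1 T2 z) id L (by simpa using hcon)
  have hXz : ∀ {x}, x ∈ X1 c J W' T1 T2 z → ∀ i, i ∉ T1 → x i = z i := by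
    intro x hx
    unfold X1 at hx
    exact (mem_X0.1 (Finset.mem_filter.1 hx).1).2
  have hYz : ∀ {y}, y ∈ Y1 c J W T1 T2 z → ∀ i, i ∉ T2 → y i = z i := by
    intro y hy
    unfold Y1 at hy
    exact mem_cube.1 (Finset.mem_filter.1 hy).2
  obtain ⟨i, j, hij⟩ := hR T1 u v
    (by
      intro i j hij
      by_contra hno
      push Not at hno
      apply hu2 i j hij
      funext k
      by_cases hk : k ∈ T1
      · exact hno k hk
      · simp only [id]
        rw [hXz (hu1 i) k hk, hXz (hu1 j) k hk])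
    (by
      intro i j hij
      by_contra hno
      push Not at hno
      apply hv2 i j hij
      funext k
      by_cases hk : k ∈ T2
      · exact hno k (hT k hk)
      · simp only [id]
        rw [hYz (hv1 i) k hk, hYz (hv1 j) k hk])
  exact hij (mix_mem hWW hsub hclosed (hu1 i) (hv1 j))

/-- few points of `V1` have a small class (1.4) -/
lemma few_small (W : Finset (Fin n → Bool)) (T1 T2 : Finset (Fin n)) (L : ℕ)
    [DecidablePred fun z => (Y1 c J W T1 T2 z).card < L] :
    ((V1 c J W T1).filter (fun z => (Y1 c J W T1 T2 z).card < L)).card * 2 ^ T2.card ≤ L * 2 ^ n := by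
  classical
  have h := small_classes T2 (V1 c J W T1)
    ((V1 c J W T1).filter (fun z => (Y1 c J W T1 T2 z).card < L)) univ L (Finset.filter_subset _ _) ?_
    (fun z _ => Finset.subset_univ _)
  · rw [Finset.card_univ, Fintype.card_fun, Fintype.card_bool, Fintype.card_fin] at h
    exact h
  · intro z hz
    have := (Finset.mem_filter.1 hz).2
    unfold Y1 at this
    refine le_trans (le_of_eq ?_) this.le
    congr 1

end Pool.Agent.KD
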